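import Pool.Agent.H367.OS.Seq
import Pool.Graph.R_pool_sql_team_seeded_2aa45f1a.Q193.LT.Crit

/-!
# The sequence `G_m = 1` and cohomology theories with compact supports
-/

set_option autoImplicit false

open CategoryTheory CategoryTheory.Limits AlgebraicGeometry MvPolynomial Pool.Agent.Y116.UV
  Pool.Agent.Z125.UN Pool.Agent.Q193.LT Pool.Agent.H854.SQ

universe v u

namespace Pool.Agent.H367.OS

/-- The cohomology with compact supports of a disjoint union `X = Z ⊔ U` is the direct sum
`H^n_c(Z) ⊕ H^n_c(U)`. -/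
def DisjointUnions {R : Type} [CommRing R] {A : Type u} [Category.{v} A] [Abelian A]
    (D : CompactData R A) : Prop :=
  ∀ {Z X U : Sch R} (i : Z ⟶ X) (j : U ⟶ X), FT True X → IsTriple i j → IsOpenImmersion i.left →
    ∀ n, Nonempty (D.H n X ≅ D.H n Z ⊞ D.H n U)

section

variable {R : Type} [CommRing R] {A : Type u} [Category.{v} A] [Abelian A] {D : CompactData R A}
  {S : A → Prop}

theorem clopen_serre (hd : DisjointUnions D) (hS : IsTateSerre D S) :
    Clopen fun X : Sch R => ∀ n, S (D.H n X) := by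
  intro Z X U i j hX ht hi h n
  obtain ⟨e⟩ := hd i j hX ht hi n
  exact hS.toIsSerre.of_epi (biprod.fst : D.H n Z ⊞ D.H n U ⟶ D.H n Z)
    (hS.toIsSerre.iso e (h n))

end

section

variable {k : Type} [Field k] {A : Type u} [Category.{v} A] [Abelian A] {D : CompactData k A}
  {S : A → Prop}

/-- One hypersurface `G_m = 1` is sufficient for a given scheme. -/
theorem serre_single (hk : IsPrimeField k) (hD : IsCompact D) (hd : DisjointUnions D) (X : Sch k)
    (hX : FT True X) : ∃ m₀ : ℕ, ∀ m, m₀ ≤ m → ∀ S : A → Prop, IsTateSerre D S →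
      (∀ i, S (D.H i (aff k k))) → (∀ i, S (D.H i (cub k m))) → ∀ i, S (D.H i X) := by
  obtain ⟨m₀, h⟩ := single hk X hX
  exact ⟨m₀, fun m hm S hS h1 h2 =>
    h m hm _ (bnd_compact hD hS h1).toUni (clopen_serre hd hS) h2⟩

/-- Infinitely many members of the sequence are sufficient. -/
theorem serre_sequence (hk : IsPrimeField k) (hD : IsCompact D) (hd : DisjointUnions D)
    (hS : IsTateSerre D S) (h1 : ∀ i, S (D.H i (aff k k)))
    (h : ∃ᶠ m in Filter.atTop, ∀ i, S (D.H i (cub k m))) (X : Sch k) (hX : FT True X) :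
    ∀ i, S (D.H i X) :=
  sequence hk (bnd_compact hD hS h1).toUni (clopen_serre hd hS) h X hX

/-- The equivalences. -/
theorem serre_tfae [PerfectField k] (hk : IsPrimeField k) (hD : IsCompact D)
    (hd : DisjointUnions D) (hg : Generated D) (hS : IsTateSerre D S)
    (h1 : ∀ i, S (D.H i (aff k k))) :
    List.TFAE [∃ᶠ m in Filter.atTop, ∀ i, S (D.H i (cub k m)),
      ∀ Y : Sch k, SmoothProj Y → ∀ i, S (D.H i Y),
      ∀ X : Sch k, FT True X → ∀ i, S (D.H i X)] := by
  tfae_have 1 → 3 := serre_sequence hk hD hd hS h1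
  tfae_have 3 → 2 := fun h Y hY => h Y hY.ft
  tfae_have 2 → 3 := fun h =>
    (all_iff (bnd_compact hD hS h1)).mpr ((proj_all_iff hD hg hS h1).mp h)
  tfae_have 3 → 1 := fun h =>
    Filter.Eventually.frequently (Filter.Eventually.of_forall fun m => h _ (ft_aff True))
  tfae_finish

end

section motives

variable {k : Type} [Field k] {A : Type u} [Category.{v} A] [Abelian A]

/-- `N` is one of the objects `H^j_c(G_m = 1)`, or one of the objects `H^j_c` of the point. -/
def FromCub (D : CompactData k A) (m : ℕ) (N : A) : Prop :=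
  (∃ j, N = D.H j (cub k m)) ∨ ∃ j, N = D.H j (aff k k)

/-- In a semisimple category: for a given scheme `X` and all large `m`, all `H^i_c(X)` are direct factors
of finite direct sums of Tate twists of the objects `H^j_c(G_m = 1)` and of the cohomology of the
point. -/
theorem factor_single {D : CompactData k A} (hk : IsPrimeField k) (hD : IsCompact D)
    (hd : DisjointUnions D)
    (hss : ∀ {X Y : A} (f : X ⟶ Y), Mono f → ∃ r : Y ⟶ X, f ≫ r = 𝟙 X) (X : Sch k)
    (hX : FT True X) : ∃ m₀ : ℕ, ∀ m, m₀ ≤ m → ∀ i, FactorOfSum D (FromCub D m) (D.H i X) := by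
  obtain ⟨m₀, h⟩ := serre_single hk hD hd X hX
  exact ⟨m₀, fun m hm => h m hm _ (gen_serre hD hss) (fun i => .self hD (.inr ⟨i, rfl⟩))
    (fun i => .self hD (.inl ⟨i, rfl⟩))⟩

end motives

end Pool.Agent.H367.OS
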