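import Pool.Agent.H367.OS.GDec

/-!
# Varieties over number fields and finitely generated fields, and schemes over the rational numbers
-/

set_option autoImplicit false

open CategoryTheory AlgebraicGeometry Pool.Agent.Y116.UV Pool.Agent.Q193.LT

namespace Pool.Agent.H367.OS

/-- The scheme `Y` over the number field `K`, regarded as a scheme over `ℚ`. -/
noncomputable def resQ (K : Type) [Field K] [NumberField K] (Y : Sch K) : Sch ℚ :=
  (Over.map (Spec.map (CommRingCat.ofHom (algebraMap ℚ K)))).obj Y

/-- The statements `S K Y` for the smooth projective schemes `Y` over the number fields `K` are described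
by the statements `P Y` for the smooth projective schemes over `ℚ`:

* `rational`: for `K = ℚ` they are equivalent;
* `smoothProj`: a smooth projective scheme over `K` is smooth and projective over `ℚ`;
* `restrict`: the statement for `Y` over `K` follows from the statement for `Y` over `ℚ` (the cohomology
  of `Y` over `ℚ` is the direct sum of the conjugates of the cohomology of `Y` over `K`). -/
structure FromQ (S : ∀ (K : Type) [Field K] [NumberField K], Sch K → Prop)
    (P : Sch ℚ → Prop) : Prop where
  rational : ∀ Y : Sch ℚ, SmoothProj Y → (S ℚ Y ↔ P Y)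
  smoothProj : ∀ (K : Type) [Field K] [NumberField K] (Y : Sch K), SmoothProj Y →
    SmoothProj (resQ K Y)
  restrict : ∀ (K : Type) [Field K] [NumberField K] (Y : Sch K), SmoothProj Y →
    S ℚ (resQ K Y) → S K Y

/-- The statement for all smooth projective schemes over all number fields. -/
def AllNF (S : ∀ (K : Type) [Field K] [NumberField K], Sch K → Prop) : Prop :=
  ∀ (K : Type) [Field K] [NumberField K] (Y : Sch K), SmoothProj Y → S K Y

theorem FromQ.all {S : ∀ (K : Type) [Field K] [NumberField K], Sch K → Prop}
    {P : Sch ℚ → Prop} (h : FromQ S P) : AllNF S ↔ ∀ Y : Sch ℚ, SmoothProj Y → P Y := by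
  constructor
  · intro g Y hY
    exact (h.rational Y hY).mp (g ℚ Y hY)
  · intro g K _ _ Y hY
    have h1 := h.smoothProj K Y hY
    exact h.restrict K Y hY ((h.rational _ h1).mpr (g _ h1))

/-- The statements `S K Y` for the smooth projective schemes `Y` over the finitely generated fields `K` of
characteristic zero are described by the statements `P Y` for the smooth projective schemes over `ℚ`:

* `rational`: for `K = ℚ` they are equivalent;
* `reduce`: for every `Y` over `K` there is a smooth projective scheme `Y'` over `ℚ` such that the
  statement for `Y` follows from the statement for `Y'` (a specialization of `Y` over a number field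
  with the same `ℓ`-adic monodromy group, regarded as a scheme over `ℚ`). -/
structure FromQfg (S : ∀ (K : Type) [Field K] [CharZero K], Sch K → Prop)
    (P : Sch ℚ → Prop) : Prop where
  rational : ∀ Y : Sch ℚ, SmoothProj Y → (S ℚ Y ↔ P Y)
  reduce : ∀ (K : Type) [Field K] [CharZero K], (⊤ : IntermediateField ℚ K).FG → ∀ Y : Sch K,
    SmoothProj Y → ∃ Y' : Sch ℚ, SmoothProj Y' ∧ (P Y' → S K Y)

/-- The statement for all smooth projective schemes over all finitely generated fields of characteristic
zero. -/
def AllFG (S : ∀ (K : Type) [Field K] [CharZero K], Sch K → Prop) : Prop :=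
  ∀ (K : Type) [Field K] [CharZero K], (⊤ : IntermediateField ℚ K).FG → ∀ Y : Sch K,
    SmoothProj Y → S K Y

/-- The field `ℚ` is finitely generated. -/
lemma fg_rat : (⊤ : IntermediateField ℚ ℚ).FG := by
  refine ⟨∅, ?_⟩
  rw [eq_top_iff]
  intro x _
  exact (IntermediateField.adjoin ℚ _).algebraMap_mem x

theorem FromQfg.all {S : ∀ (K : Type) [Field K] [CharZero K], Sch K → Prop}
    {P : Sch ℚ → Prop} (h : FromQfg S P) : AllFG S ↔ ∀ Y : Sch ℚ, SmoothProj Y → P Y := by
  constructor
  · intro g Y hY
    exact (h.rational Y hY).mp (g ℚ fg_rat Y hY)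
  · intro g K _ _ hK Y hY
    obtain ⟨Y', hY', h1⟩ := h.reduce K hK Y hY
    exact h1 (g Y' hY')

/-- A smooth projective scheme over an extension `K` of `ℚ` (for instance the field of all algebraic
numbers) is an open and closed subscheme of the base change of a smooth projective scheme over `ℚ`; the
statement for `K` is described by the statements `P Y` for the smooth projective schemes over `ℚ`:

* `base`: for the base change of `Y` the statement is equivalent to `P Y`;
* `reduce`: for every `V` over `K` there is a `Y` over `ℚ` such that the statement for `V` follows from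
  the statement for the base change of `Y`. -/
structure FromQalg (K : Type) [Field K] [Algebra ℚ K] (S : Sch K → Prop) (P : Sch ℚ → Prop) :
    Prop where
  smoothProj : ∀ Y : Sch ℚ, SmoothProj Y →
    SmoothProj ((Over.pullback (Spec.map (CommRingCat.ofHom (algebraMap ℚ K)))).obj Y)
  base : ∀ Y : Sch ℚ, SmoothProj Y →
    (S ((Over.pullback (Spec.map (CommRingCat.ofHom (algebraMap ℚ K)))).obj Y) ↔ P Y)
  reduce : ∀ V : Sch K, SmoothProj V → ∃ Y : Sch ℚ, SmoothProj Y ∧
    (S ((Over.pullback (Spec.map (CommRingCat.ofHom (algebraMap ℚ K)))).obj Y) → S V)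

theorem FromQalg.all {K : Type} [Field K] [Algebra ℚ K] {S : Sch K → Prop} {P : Sch ℚ → Prop}
    (h : FromQalg K S P) : (∀ V : Sch K, SmoothProj V → S V) ↔
      ∀ Y : Sch ℚ, SmoothProj Y → P Y := by
  constructor
  · intro g Y hY
    exact (h.base Y hY).mp (g _ (h.smoothProj Y hY))
  · intro g V hV
    obtain ⟨Y, hY, h1⟩ := h.reduce V hV
    exact h1 ((h.base Y hY).mpr (g Y hY))

end Pool.Agent.H367.OS
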