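import Pool.Agent.H367.OS.GSem
import Pool.Graph.R_pool_sql_team_seeded_2aa45f1a.Q148.LI.Proper

/-!
# Varieties over finite fields, and schemes over the prime field
-/

set_option autoImplicit false

open CategoryTheory AlgebraicGeometry Pool.Agent.Y116.UV Pool.Agent.Z125.UN Pool.Agent.Q193.LT
  Pool.Agent.Q148.LI Pool.Agent.H854.SQ

universe v u

namespace Pool.Agent.H367.OS

/-- The statements `S K X` for the schemes `X` in the class `C` over the finite fields `K` of
characteristic `p` are described by the statements `P Y` for the schemes `Y` in the class `C` over the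
prime field:

* `rational`: for the prime field they are equivalent;
* `restrict`: for every `X` over `K` there is a `Y` over the prime field (the scheme `X`, regarded as a
  scheme over the prime field) such that the statement for `X` follows from the statement for `Y`. -/
structure FromFp (p : ℕ) [Fact p.Prime] (C : ∀ (K : Type) [Field K], Sch K → Prop)
    (S : ∀ (K : Type) [Field K] [Finite K] [CharP K p], Sch K → Prop)
    (P : Sch (ZMod p) → Prop) : Prop where
  rational : ∀ Y : Sch (ZMod p), C (ZMod p) Y → (S (ZMod p) Y ↔ P Y)
  restrict : ∀ (K : Type) [Field K] [Finite K] [CharP K p] (X : Sch K), C K X →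
    ∃ Y : Sch (ZMod p), C (ZMod p) Y ∧ (P Y → S K X)

/-- The statement for all schemes in the class `C` over all finite fields of characteristic `p`. -/
def AllFp (p : ℕ) [Fact p.Prime] (C : ∀ (K : Type) [Field K], Sch K → Prop)
    (S : ∀ (K : Type) [Field K] [Finite K] [CharP K p], Sch K → Prop) : Prop :=
  ∀ (K : Type) [Field K] [Finite K] [CharP K p] (X : Sch K), C K X → S K X

theorem FromFp.all {p : ℕ} [Fact p.Prime] {C : ∀ (K : Type) [Field K], Sch K → Prop}
    {S : ∀ (K : Type) [Field K] [Finite K] [CharP K p], Sch K → Prop}
    {P : Sch (ZMod p) → Prop} (h : FromFp p C S P) :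
    AllFp p C S ↔ ∀ Y : Sch (ZMod p), C (ZMod p) Y → P Y := by
  constructor
  · intro g Y hY
    exact (h.rational Y hY).mp (g (ZMod p) Y hY)
  · intro g K _ _ _ X hX
    obtain ⟨Y, hY, h1⟩ := h.restrict K X hX
    exact h1 (g Y hY)

/-- The complete varieties. -/
def Proper (K : Type) [Field K] (X : Sch K) : Prop := IsProper X.hom

/-- The smooth projective varieties. -/
def Projective (K : Type) [Field K] (X : Sch K) : Prop := SmoothProj X

/-- All pieces of all complete varieties are semisimple if and only if all pieces of all schemes are. -/
theorem semi_proper {k : Type} [Field k] {A : Type u} [Category.{v} A] [Abelian A] {D : Pieces k A}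
    (hk : IsPrimeField k) (h : IsGeo D) :
    (∀ X : Sch k, Proper k X → ∀ w j : ℤ, SemiObj (D.G w j X)) ↔
      ∃ᶠ m in Filter.atTop, ∀ j : ℕ, SemiObj (D.G (j - 1) j (cubG k m)) := by
  have h1 := semi_tfae hk h
  have h2 := h1.out 0 1
  have h3 := h1.out 0 2
  constructor
  · exact fun g => h2.mpr fun Y hY i => g Y (SmoothProj.proper' hY).proper _ _
  · exact fun g X hX w j => h3.mp g X (show FT True X from by
      have : IsProper X.hom := hX
      exact ⟨inferInstance, inferInstance, fun _ => inferInstance⟩) w j

end Pool.Agent.H367.OS
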