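import Pool.Agent.H367.OS.GMain
import Pool.Graph.R_pool_sql_team_seeded_2aa45f1a.Q193.LT.Pole
import Pool.Graph.R_pool_sql_team_seeded_2aa45f1a.Q193.LT.Rank

/-!
# Numerical invariants and one sequence of cubic hypersurfaces
-/

set_option autoImplicit false

open CategoryTheory AlgebraicGeometry MvPolynomial Pool.Agent.Y116.UV Pool.Agent.Z125.UN
  Pool.Agent.Q193.LT Pool.Agent.H854.SQ

universe w

namespace Pool.Agent.H367.OS

section tfae

variable {k : Type} [Field k] {P : ℤ → Sch k → Prop}

/-- A graduated property has the two-out-of-three property. -/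
lemma Graduated.twoOfThree (hP : Graduated P) : TwoOfThree (fun X : Sch k => ∀ q, P q X) where
  iso h e h1 := fun q => hP.iso h e q (h1 q)
  total i j h ht h1 h2 := fun q => hP.total i j h ht q (h1 q) (h2 q)
  opened i j h ht h1 h2 := fun q => hP.opened i j h ht q (h1 q) (h2 q)
  closed i j h ht h1 h2 := fun q => hP.closed i j h ht q (h1 q) (h2 q)

/-- **The smooth projective schemes, all schemes and the sequence.** -/
theorem graduated_tfae (hk : IsPrimeField k) (hH : Hironaka k) (hP : Graduated P) :
    List.TFAE [∃ᶠ m in Filter.atTop, ∀ q, P q (cubG k m),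
      ∀ Y : Sch k, SmoothProj Y → ∀ q, P q Y,
      ∀ X : Sch k, FT True X → ∀ q, P q X] := by
  tfae_have 1 → 3 := fun h X hX q => gsequence hk hP h q X hX
  tfae_have 3 → 2 := fun h Y hY q => h Y hY.ft q
  tfae_have 2 → 1 := fun h => Filter.Frequently.of_forall fun m => by
    have h1 : topologicalKrullDim (cubG k m).left ≤
        (Nat.card (EqnG m ⊕ VarG m) : ℕ) := by
      have h2 : topologicalKrullDim (cubG k m).left = ringKrullDim (CubRingG k m) :=
        PrimeSpectrum.topologicalKrullDim_eq_ringKrullDim _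
      rw [h2]
      refine (ringKrullDim_quotient_le _).trans ?_
      rw [MvPolynomial.ringKrullDim_of_isNoetherianRing, ringKrullDim_eq_zero_of_field]
      simp
    exact hH _ _ hP.twoOfThree (fun Y hY _ => h Y hY) _ (ft_aff True) h1
  tfae_finish

end tfae

section add

variable {k : Type} [Field k] {G : Type w} [AddCommGroup G]

/-- The standard properties of additive invariants: closed-open decompositions, affine bundles, and the
vanishing outside of the range `0 ≤ m ≤ dim X`. -/
structure IsAddG (D : AddData k G) : Prop where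
  iso : ∀ {X Y : Sch k}, FT True X → Nonempty (X ≅ Y) → ∀ m,
    (D.fin m X → D.fin m Y) ∧ D.e m X = D.e m Y
  triple : ∀ {Z X U : Sch k} (i : Z ⟶ X) (j : U ⟶ X), FT True X → IsTriple i j →
    ∀ m, AddTriple D m Z X U
  bundle : ∀ (B : Type) [CommRing B] [Algebra k B] [Algebra.FiniteType k B] (r : ℕ)
    (f : Fin r → B) (U : Sch k) (j : U ⟶ aff k B), IsOpenImmersion j.left →
    Set.range j.left = {x : PrimeSpectrum B | ∃ l, f l ∉ x.asIdeal} →
    ∀ m, (D.fin m (aff k (Jou f)) ↔ D.fin (m + (1 - r)) U) ∧
      D.e m (aff k (Jou f)) = D.e (m + (1 - r)) U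
  low : ∀ (B : Type) [CommRing B] [Algebra k B] [Algebra.FiniteType k B] (m : ℤ), m < 0 →
    D.fin m (aff k B) ∧ D.e m (aff k B) = 0
  high : ∀ (B : Type) [CommRing B] [Algebra k B] [Algebra.FiniteType k B] (n : ℕ),
    ringKrullDim B ≤ n → ∀ m : ℤ, (n : ℤ) < m → D.fin m (aff k B) ∧ D.e m (aff k B) = 0

/-- The invariants with values in a subgroup. -/
theorem graduated_add {D : AddData k G} {S : AddSubgroup G} (hD : IsAddG D)
    (point : InAll D S (aff k k)) : Graduated fun m X => D.fin m X ∧ D.e m X ∈ S where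
  iso hX e m h := by
    obtain ⟨h2, h3⟩ := hD.iso hX e m
    exact ⟨h2 h.1, h3 ▸ h.2⟩
  total i j hX ht m hZ hU := by
    have h := hD.triple i j hX ht m
    have h2 := h.total hZ.1 hU.1
    exact ⟨h2, by rw [h.add hZ.1 h2 hU.1]; exact S.add_mem hZ.2 hU.2⟩
  opened i j hX ht m hZ hX' := by
    have h := hD.triple i j hX ht m
    have h2 := h.opened hZ.1 hX'.1
    have h3 := h.add hZ.1 hX'.1 h2
    refine ⟨h2, ?_⟩
    rw [← sub_eq_iff_eq_add'.mpr h3]
    exact S.sub_mem hX'.2 hZ.2
  closed i j hX ht m hX' hU := by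
    have h := hD.triple i j hX ht m
    have h2 := h.closed hX'.1 hU.1
    have h3 := h.add h2 hX'.1 hU.1
    refine ⟨h2, ?_⟩
    rw [← sub_eq_iff_eq_add.mpr h3]
    exact S.sub_mem hX'.2 hU.2
  bundle B _ _ _ r f U j hj hr m := by
    obtain ⟨h2, h3⟩ := hD.bundle B r f U j hj hr m
    rw [h2, h3]
  point m := point m
  low B _ _ _ m hm := by
    obtain ⟨h2, h3⟩ := hD.low B m hm
    exact ⟨h2, h3 ▸ S.zero_mem⟩
  high B _ _ _ n hn m hm := by
    obtain ⟨h2, h3⟩ := hD.high B n hn m hm
    exact ⟨h2, h3 ▸ S.zero_mem⟩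

/-- The orders are additive, and the ranks are additive if they are finite; both vanish outside of the
range `0 ≤ m ≤ dim X`. -/
structure IsRankG (D : RankData k) : Prop where
  ord : IsAddG (k := k) { fin := D.fin, e := D.ord }
  rk : IsAddG (k := k) { fin := D.fin, e := D.rk }

theorem graduated_rank {D : RankData k} (hD : IsRankG D) (point : RankFormula D (aff k k)) :
    Graduated fun m X => D.fin m X ∧ D.ord m X = D.rk m X := by
  let D' : AddData k ℤ := { fin := D.fin, e := fun m X => D.ord m X - D.rk m X }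
  have h2 : ∀ m (X : Sch k), (D.fin m X ∧ D.ord m X = D.rk m X) ↔
      (D'.fin m X ∧ D'.e m X ∈ (⊥ : AddSubgroup ℤ)) := fun m X => by
    rw [AddSubgroup.mem_bot]
    exact and_congr_right fun _ => sub_eq_zero.symm
  have h3 : IsAddG D' :=
    { iso := fun hX e m => ⟨(hD.ord.iso hX e m).1, by
        have h3 := (hD.ord.iso hX e m).2
        have h4 := (hD.rk.iso hX e m).2
        simp only at h3 h4
        change D.ord m _ - D.rk m _ = D.ord m _ - D.rk m _
        rw [h3, h4]⟩
      triple := fun i j hX ht m =>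
        { total := (hD.ord.triple i j hX ht m).total
          opened := (hD.ord.triple i j hX ht m).opened
          closed := (hD.ord.triple i j hX ht m).closed
          add := fun hZ hX' hU => by
            have h3 := (hD.ord.triple i j hX ht m).add hZ hX' hU
            have h4 := (hD.rk.triple i j hX ht m).add hZ hX' hU
            simp only at h3 h4
            change D.ord m _ - D.rk m _ = (D.ord m _ - D.rk m _) + (D.ord m _ - D.rk m _)
            rw [h3, h4]
            ring }
      bundle := fun B _ _ _ r f U j hj hr m => ⟨(hD.ord.bundle B r f U j hj hr m).1, by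
        have h3 := (hD.ord.bundle B r f U j hj hr m).2
        have h4 := (hD.rk.bundle B r f U j hj hr m).2
        simp only at h3 h4
        change D.ord m _ - D.rk m _ = D.ord _ _ - D.rk _ _
        rw [h3, h4]⟩
      low := fun B _ _ _ m hm => by
        have h3 := hD.ord.low B m hm
        have h4 := hD.rk.low B m hm
        simp only at h3 h4
        refine ⟨h3.1, ?_⟩
        change D.ord m _ - D.rk m _ = 0
        rw [h3.2, h4.2, sub_zero]
      high := fun B _ _ _ n hn m hm => by
        have h3 := hD.ord.high B n hn m hm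
        have h4 := hD.rk.high B n hn m hm
        simp only at h3 h4
        refine ⟨h3.1, ?_⟩
        change D.ord m _ - D.rk m _ = 0
        rw [h3.2, h4.2, sub_zero] }
  have h4 := graduated_add (S := ⊥) h3 fun m => (h2 m _).mp (point m)
  have h5 : (fun (m : ℤ) (X : Sch k) => D.fin m X ∧ D.ord m X = D.rk m X) =
      fun m X => D'.fin m X ∧ D'.e m X ∈ (⊥ : AddSubgroup ℤ) :=
    funext fun m => funext fun X => propext (h2 m X)
  rw [h5]
  exact h4

/-- The standard properties of the functions `L m X` and the integers `χ m X`: closed-open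
decompositions, affine bundles, triviality outside of the range `0 ≤ m ≤ dim X`. -/
structure IsPoleG (D : PoleData k) : Prop where
  iso : ∀ {X Y : Sch k}, FT True X → Nonempty (X ≅ Y) → ∀ m, D.L m X = D.L m Y ∧ D.χ m X = D.χ m Y
  triple : ∀ {Z X U : Sch k} (i : Z ⟶ X) (j : U ⟶ X), FT True X → IsTriple i j →
    ∀ m, D.L m X = D.L m Z * D.L m U ∧ D.χ m X = D.χ m Z + D.χ m U
  bundle : ∀ (B : Type) [CommRing B] [Algebra k B] [Algebra.FiniteType k B] (r : ℕ)
    (f : Fin r → B) (U : Sch k) (j : U ⟶ aff k B), IsOpenImmersion j.left →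
    Set.range j.left = {x : PrimeSpectrum B | ∃ l, f l ∉ x.asIdeal} →
    ∀ m, D.L m (aff k (Jou f)) = D.L (m + (1 - r)) U ∧
      D.χ m (aff k (Jou f)) = D.χ (m + (1 - r)) U
  low : ∀ (B : Type) [CommRing B] [Algebra k B] [Algebra.FiniteType k B] (m : ℤ), m < 0 →
    D.L m (aff k B) = 1 ∧ D.χ m (aff k B) = 0
  high : ∀ (B : Type) [CommRing B] [Algebra k B] [Algebra.FiniteType k B] (n : ℕ),
    ringKrullDim B ≤ n → ∀ m : ℤ, (n : ℤ) < m → D.L m (aff k B) = 1 ∧ D.χ m (aff k B) = 0

theorem graduated_pole {D : PoleData k} (hD : IsPoleG D) (point : PoleFormula D (aff k k)) :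
    Graduated fun m X => HasPole (D.L m X) (D.χ m X) := by
  let D' : AddData k (Additive (ℝ → ℂˣ) × ℤ) :=
    { fin := fun _ _ => True, e := fun m X => (Additive.ofMul (D.L m X), D.χ m X) }
  have h2 : ∀ m (X : Sch k), HasPole (D.L m X) (D.χ m X) ↔
      (D'.fin m X ∧ D'.e m X ∈ poleGroup) := fun m X =>
    ⟨fun h => ⟨trivial, h⟩, fun h => h.2⟩
  have h3 : IsAddG D' :=
    { iso := fun hX e m => ⟨fun _ => trivial, by
        obtain ⟨h3, h4⟩ := hD.iso hX e m
        exact Prod.ext (congrArg Additive.ofMul h3) h4⟩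
      triple := fun i j hX ht m =>
        { total := fun _ _ => trivial
          opened := fun _ _ => trivial
          closed := fun _ _ => trivial
          add := fun _ _ _ => by
            obtain ⟨h3, h4⟩ := hD.triple i j hX ht m
            exact Prod.ext (congrArg Additive.ofMul h3) h4 }
      bundle := fun B _ _ _ r f U j hj hr m => ⟨Iff.rfl, by
        obtain ⟨h3, h4⟩ := hD.bundle B r f U j hj hr m
        exact Prod.ext (congrArg Additive.ofMul h3) h4⟩
      low := fun B _ _ _ m hm => ⟨trivial, by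
        obtain ⟨h3, h4⟩ := hD.low B m hm
        exact Prod.ext (congrArg Additive.ofMul h3) h4⟩
      high := fun B _ _ _ n hn m hm => ⟨trivial, by
        obtain ⟨h3, h4⟩ := hD.high B n hn m hm
        exact Prod.ext (congrArg Additive.ofMul h3) h4⟩ }
  have h4 := graduated_add (S := poleGroup) h3 fun m => (h2 m _).mp (point m)
  have h5 : (fun (m : ℤ) (X : Sch k) => HasPole (D.L m X) (D.χ m X)) =
      fun m X => D'.fin m X ∧ D'.e m X ∈ poleGroup :=
    funext fun m => funext fun X => propext (h2 m X)
  rw [h5]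
  exact h4

end add

end Pool.Agent.H367.OS
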