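import Pool.Agent.H367.OS.GSem

/-!
# One degree of the cohomology, if it is cut out by affine schemes
-/

set_option autoImplicit false

open CategoryTheory CategoryTheory.Limits AlgebraicGeometry Pool.Agent.Y116.UV
  Pool.Agent.Q193.LT Pool.Agent.H854.SQ

universe v u

namespace Pool.Agent.H367.OS

variable {k : Type} [Field k] {A : Type u} [Category.{v} A] [Abelian A] {D : Pieces k A}

/-- For every smooth projective `Y` there is an affine scheme `Spec B` of finite type, such that `H^w(Y)`
has the property `Q` if the part of weight `w` of `H^w_c(Spec B)` has. -/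
def CutByAffine (D : Pieces k A) (Q : A → Prop) (w : ℤ) : Prop :=
  ∀ Y : Sch k, SmoothProj Y → ∃ (B : Type) (_ : CommRing B) (_ : Algebra k B),
    Algebra.FiniteType k B ∧ (Q (D.G w w (aff k B)) → Q (D.G w w Y))

/-- **One degree, for properties which pass to subquotients and do not depend on Tate twists.** -/
theorem weight_cut (hk : IsPrimeField k) (h : IsGeo D) {Q : A → Prop} (hQ : SubClosed Q)
    (htw : ∀ (t : ℤ) (N : A), Q ((D.tw t).obj N) ↔ Q N) {w : ℕ} (hc : CutByAffine D Q w) :
    List.TFAE [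
      ∃ᶠ m in Filter.atTop, ∀ N : ℕ, Q (D.G (w + 2 * esh m N) (w + 2 * esh m N + 1) (cubG k m)),
      ∀ Y : Sch k, SmoothProj Y → Q (D.G w w Y),
      ∀ X : Sch k, FT True X → ∀ j : ℤ, Q (D.G w j X)] := by
  tfae_have 1 → 2 := by
    intro g Y hY
    obtain ⟨B, _, _, _, h1⟩ := hc Y hY
    obtain ⟨m₀, hm⟩ := exact_affine hk h.pieces hQ.iso B
    obtain ⟨m, hm1, hm2⟩ := (Filter.frequently_atTop.1 g) (max m₀ w)
    obtain ⟨N, hN⟩ := hm m ((le_max_left _ _).trans hm1)
    have h2 : (w : ℤ) ≤ m := by exact_mod_cast (le_max_right _ _).trans hm1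
    have h3 := hN w w 0 (by positivity) (by linarith)
    rw [htw, htw] at h3
    exact h1 (h3.mp (hm2 N))
  tfae_have 2 → 3 := by
    intro g X hX j
    obtain ⟨Y, hY, hf⟩ := h.ofProj X hX w j
    exact hQ hf (g Y hY)
  tfae_have 3 → 1 := by
    intro g
    refine Filter.Eventually.frequently ?_
    filter_upwards [Filter.eventually_ge_atTop (max w 1)] with m hm N
    have h1 : (w : ℤ) ≤ m := by exact_mod_cast (le_max_left _ _).trans hm
    rcases h.pieces.cases N (by positivity) (show (w : ℤ) ≤ 2 * m + 1 by linarith) (w : ℤ) with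
      ⟨s, rfl⟩ | hz | hj
    · obtain ⟨e⟩ := h.pieces.back (h.pieces.dict ((le_max_right _ _).trans hm) s (by positivity)
        (show (w : ℤ) ≤ 2 * m + 1 by linarith) (w : ℤ)) 0
      have h2 := hQ (SubQuot.of_iso e) ((htw 0 _).mpr (g _ (ft_aff True) _))
      exact (htw _ _).mp h2
    · exact hQ (SubQuot.zero hz _) (g (aff k k) (ft_aff True) 0)
    · omega
  tfae_finish

/-- **Semisimple objects in one degree.** -/
theorem semi_cut (hk : IsPrimeField k) (h : IsGeo D) {w : ℕ}
    (hc : CutByAffine D SemiObj w) : List.TFAE [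
      ∃ᶠ m in Filter.atTop, ∀ N : ℕ,
        SemiObj (D.G (w + 2 * esh m N) (w + 2 * esh m N + 1) (cubG k m)),
      ∀ Y : Sch k, SmoothProj Y → SemiObj (D.G w w Y),
      ∀ X : Sch k, FT True X → ∀ j : ℤ, SemiObj (D.G w j X)] :=
  weight_cut hk h semiObj_closed (fun t N => h.pieces.semi_twist t N) hc

end Pool.Agent.H367.OS
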