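import Pool.Agent.H367.OS.GFac

/-!
# Properties of the pieces of the cohomology, and the sequence of the hypersurfaces `G_m = 1`
-/

set_option autoImplicit false

open CategoryTheory CategoryTheory.Limits AlgebraicGeometry MvPolynomial Pool.Agent.Y116.UV
  Pool.Agent.Z125.UN Pool.Agent.Q193.LT Pool.Agent.H854.SQ

universe v u

namespace Pool.Agent.H367.OS

section

variable {k : Type} [Field k] {A : Type u} [Category.{v} A] [Abelian A]

/-- The property `Q` is invariant under isomorphisms. -/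
def IsoInv (Q : A → Prop) : Prop := ∀ {M N : A}, (M ≅ N) → Q M → Q N

/-- The property `Q` passes to direct factors. -/
def FactorClosed (Q : A → Prop) : Prop := ∀ {M N : A}, Factor M N → Q N → Q M

omit [Abelian A] in
lemma FactorClosed.isoInv {Q : A → Prop} (h : FactorClosed Q) : IsoInv Q :=
  fun e hM => h (Factor.of_iso e.symm) hM

/-- Every piece `Gr^W_w H^j_c(X)` is a direct factor of `H^w(Y)` for a smooth projective scheme `Y`. -/
def OfProj (D : Pieces k A) : Prop :=
  ∀ X : Sch k, FT True X → ∀ w j : ℤ, ∃ Y : Sch k, SmoothProj Y ∧ Factor (D.G w j X) (D.G w w Y)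

/-- Jouanolou's device: over every smooth projective scheme `Y` there is an affine bundle with fibre
`𝔸^r` whose total space is affine. -/
def Device (D : Pieces k A) : Prop :=
  ∀ Y : Sch k, SmoothProj Y → ∃ (B : Type) (_ : CommRing B) (_ : Algebra k B)
    (_ : Algebra.FiniteType k B) (r : ℕ), ∀ w j : ℤ,
      Nonempty (D.G w j (aff k B) ≅ (D.tw (-r)).obj (D.G (w - 2 * r) (j - 2 * r) Y))

/-- **Smooth projective schemes.** For every smooth projective scheme `Y` over the prime field and every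
`d`, for all large `m` there is an `e` such that the piece of weight `w + 2 e` of `H^{j+2e+1}_c` of the
hypersurface `G_m = 1` is the Tate twist by `-e` of the piece of weight `w` of `H^j(Y)`, for
`0 ≤ w ≤ d` and all `j`; in particular, the piece of weight `i + 2 e` of `H^{i+2e+1}_c` is the Tate twist
of `H^i(Y)`. -/
theorem pieces_proj {D : Pieces k A} (hk : IsPrimeField k) (hD : IsPieces D) (hv : Device D)
    (Y : Sch k) (hY : SmoothProj Y) (d : ℕ) : ∃ m₀ : ℕ, ∀ m, m₀ ≤ m → ∃ e : ℕ, ∀ w j : ℤ,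
      0 ≤ w → w ≤ d → Nonempty (D.G (w + 2 * e) (j + 2 * e + 1) (cubG k m) ≅
        (D.tw (-e)).obj (D.G w j Y)) := by
  obtain ⟨B, _, _, hB, r, he⟩ := hv Y hY
  obtain ⟨m₀, hm⟩ := pieces_affine.{v, u} hk B
  refine ⟨max m₀ (max 1 (d + 2 * r)), fun m hm1 => ?_⟩
  obtain ⟨N, hN⟩ := hm m ((le_max_left _ _).trans hm1)
  have hm2 : 1 ≤ m := ((le_max_left _ _).trans (le_max_right _ _)).trans hm1
  have hm3 : d + 2 * r ≤ m := ((le_max_right _ _).trans (le_max_right _ _)).trans hm1
  have hm4 : (d : ℤ) + 2 * r ≤ m := by exact_mod_cast hm3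
  have he0 : ((r + (m + 1) * N + (numEqn m - 1) : ℕ) : ℤ) = r + esh m N := by
    rw [esh]
    have := numEqn_pos hm2
    push_cast [Nat.cast_sub this]
    ring
  refine ⟨r + (m + 1) * N + (numEqn m - 1), fun w j h0 h1 => ?_⟩
  rw [he0]
  obtain ⟨e1⟩ := hN A D hD (w + 2 * r) (j + 2 * r) (by positivity) (by linarith)
  obtain ⟨e2⟩ := he (w + 2 * r) (j + 2 * r)
  rw [add_sub_cancel_right, add_sub_cancel_right] at e2
  obtain ⟨e3⟩ := hD.tw_tw (-r) (-esh m N) (D.G w j Y)
  have h2 : w + 2 * (r : ℤ) + 2 * esh m N = w + 2 * (r + esh m N) := by ring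
  have h3 : j + 2 * (r : ℤ) + 2 * esh m N + 1 = j + 2 * (r + esh m N) + 1 := by ring
  have h4 : -(r : ℤ) + -esh m N = -(r + esh m N) := by ring
  rw [h2, h3] at e1
  rw [h4] at e3
  exact ⟨e1 ≪≫ (D.tw _).mapIso e2 ≪≫ e3⟩

/-- The hypersurfaces `G_m = 1` decide the property `Q` of the Tate twists of the pieces of the
cohomology with compact supports. Let `e = (m + 1) N + E_m - 1` (`esh m N`).

* For every `w ≥ 0` and every `t` the property `Q` of the single objects `Gr^W_{w+2e} H^{w+2e+1}_c(t + e)`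
  of the hypersurfaces `G_m = 1`, for all `N` and infinitely many `m`, is equivalent to the property `Q` of
  `H^w(Y)(t)` for all smooth projective schemes `Y`, and of `Gr^W_w H^j_c(X)(t)` for all separated
  schemes `X` of finite type and all `j`.
* The property `Q` of all twists of the pieces of weight `j - 1` of `H^j_c` of the hypersurfaces
  `G_m = 1`, for all `j` and infinitely many `m`, is equivalent to the property `Q` of all twists of
  `H^i(Y)` for all smooth projective schemes `Y` and all `i`, and of all twists of all pieces of all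
  separated schemes of finite type.
* For every affine scheme `Spec B` of finite type and all large `m` there is an `N` such that for
  `0 ≤ w ≤ 2 m + 1`, all `j` and all `t` the property `Q` of `Gr^W_w H^j_c(Spec B)(t)` is equivalent to
  the property `Q` of `Gr^W_{w+2e} H^{j+2e+1}_c(t + e)` of the hypersurface `G_m = 1`.
* For every separated scheme `X` of finite type and all large `m` there is an `N` such that for
  `0 ≤ w ≤ 2 m + 1`, all `j` and all `t` the property `Q` of `Gr^W_{w+2e} H^{j+2e+1}_c(t + e)` of the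
  hypersurface `G_m = 1` implies the property `Q` of `Gr^W_w H^j_c(X)(t)`.
* For every smooth projective scheme `Y`, every `d` and all large `m` there is an `e'` such that for all
  `i ≤ d` and all `t` the property `Q` of `H^i(Y)(t)` is equivalent to the property `Q` of
  `Gr^W_{i+2e'} H^{i+2e'+1}_c(t + e')` of the hypersurface `G_m = 1`. -/
structure DecidesPieces (D : Pieces k A) (Q : A → Prop) : Prop where
  weight : ∀ (w : ℕ) (t : ℤ), List.TFAE [
    ∃ᶠ m in Filter.atTop, ∀ N : ℕ, Q ((D.tw (t + esh m N)).obj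
      (D.G (w + 2 * esh m N) (w + 2 * esh m N + 1) (cubG k m))),
    ∀ Y : Sch k, SmoothProj Y → Q ((D.tw t).obj (D.G w w Y)),
    ∀ X : Sch k, FT True X → ∀ j : ℤ, Q ((D.tw t).obj (D.G w j X))]
  all : List.TFAE [
    ∃ᶠ m in Filter.atTop, ∀ j t : ℤ, Q ((D.tw t).obj (D.G (j - 1) j (cubG k m))),
    ∀ Y : Sch k, SmoothProj Y → ∀ i t : ℤ, Q ((D.tw t).obj (D.G i i Y)),
    ∀ X : Sch k, FT True X → ∀ w j t : ℤ, Q ((D.tw t).obj (D.G w j X))]
  exact : ∀ (B : Type) [CommRing B] [Algebra k B] [Algebra.FiniteType k B], ∃ m₀ : ℕ, ∀ m, m₀ ≤ m →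
    ∃ N : ℕ, ∀ w j t : ℤ, 0 ≤ w → w ≤ 2 * m + 1 →
      (Q ((D.tw (t + esh m N)).obj (D.G (w + 2 * esh m N) (j + 2 * esh m N + 1) (cubG k m))) ↔
        Q ((D.tw t).obj (D.G w j (aff k B))))
  single : ∀ X : Sch k, FT True X → ∃ m₀ : ℕ, ∀ m, m₀ ≤ m →
    ∃ N : ℕ, ∀ w j t : ℤ, 0 ≤ w → w ≤ 2 * m + 1 →
      Q ((D.tw (t + esh m N)).obj (D.G (w + 2 * esh m N) (j + 2 * esh m N + 1) (cubG k m))) →
        Q ((D.tw t).obj (D.G w j X))
  proj : ∀ Y : Sch k, SmoothProj Y → ∀ d : ℕ, ∃ m₀ : ℕ, ∀ m, m₀ ≤ m → ∃ e : ℕ, ∀ i : ℕ, i ≤ d →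
    ∀ t : ℤ, (Q ((D.tw (t + e)).obj (D.G (i + 2 * e) (i + 2 * e + 1) (cubG k m))) ↔
      Q ((D.tw t).obj (D.G i i Y)))

/-- The standard properties of a category of motives over `k` in which all monomorphisms split (motives
for absolute Hodge cycles, or for motivated cycles, over a field of characteristic zero), and of the weight
graded pieces of the cohomology with compact supports. -/
structure IsMot (D : Pieces k A) : Prop where
  pieces : IsPieces D
  disj : Disj D
  splits : Splits A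
  ofProj : OfProj D
  device : Device D

variable {D : Pieces k A} {Q : A → Prop}

/-- Twisting back. -/
lemma IsPieces.back (hD : IsPieces D) {M N : A} {e : ℤ} (h : Nonempty (M ≅ (D.tw (-e)).obj N))
    (t : ℤ) : Nonempty ((D.tw (t + e)).obj M ≅ (D.tw t).obj N) := by
  obtain ⟨f⟩ := h
  obtain ⟨g⟩ := hD.tw_tw (-e) (t + e) N
  have h1 : -e + (t + e) = t := by ring
  rw [h1] at g
  exact ⟨(D.tw _).mapIso f ≪≫ g⟩

lemma IsPieces.back_factor (hD : IsPieces D) {M N : A} {e : ℤ} (h : Factor ((D.tw (-e)).obj N) M)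
    (t : ℤ) : Factor ((D.tw t).obj N) ((D.tw (t + e)).obj M) := by
  obtain ⟨g⟩ := hD.tw_tw (-e) (t + e) N
  have h1 : -e + (t + e) = t := by ring
  rw [h1] at g
  exact (Factor.of_iso g.symm).trans (h.map (D.tw (t + e)))

/-- The property is invariant under isomorphisms: affine schemes. -/
theorem exact_affine (hk : IsPrimeField k) (hD : IsPieces D) (hQ : IsoInv Q) (B : Type)
    [CommRing B] [Algebra k B] [Algebra.FiniteType k B] : ∃ m₀ : ℕ, ∀ m, m₀ ≤ m →
    ∃ N : ℕ, ∀ w j t : ℤ, 0 ≤ w → w ≤ 2 * m + 1 →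
      (Q ((D.tw (t + esh m N)).obj (D.G (w + 2 * esh m N) (j + 2 * esh m N + 1) (cubG k m))) ↔
        Q ((D.tw t).obj (D.G w j (aff k B)))) := by
  obtain ⟨m₀, hm⟩ := pieces_affine.{v, u} hk B
  refine ⟨m₀, fun m hm1 => ?_⟩
  obtain ⟨N, hN⟩ := hm m hm1
  refine ⟨N, fun w j t h0 h1 => ?_⟩
  obtain ⟨e⟩ := hD.back (hN A D hD w j h0 h1) t
  exact ⟨hQ e, hQ e.symm⟩

/-- The property is invariant under isomorphisms: smooth projective schemes. -/
theorem exact_proj (hk : IsPrimeField k) (hD : IsPieces D) (hv : Device D)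
    (hQ : IsoInv Q) (Y : Sch k) (hY : SmoothProj Y) (d : ℕ) : ∃ m₀ : ℕ, ∀ m, m₀ ≤ m →
      ∃ e : ℕ, ∀ i : ℕ, i ≤ d → ∀ t : ℤ,
        (Q ((D.tw (t + e)).obj (D.G (i + 2 * e) (i + 2 * e + 1) (cubG k m))) ↔
          Q ((D.tw t).obj (D.G i i Y))) := by
  obtain ⟨m₀, hm⟩ := pieces_proj hk hD hv Y hY d
  refine ⟨m₀, fun m hm1 => ?_⟩
  obtain ⟨e, he⟩ := hm m hm1
  refine ⟨e, fun i hi t => ?_⟩
  obtain ⟨e'⟩ := hD.back (he i i (by positivity) (by exact_mod_cast hi)) t
  exact ⟨hQ e', hQ e'.symm⟩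

/-- **The sequence decides.** -/
theorem decides_pieces (hk : IsPrimeField k) (h : IsMot D) (hQ : FactorClosed Q) :
    DecidesPieces D Q := by
  obtain ⟨hD, hd, hs, hp, hv⟩ := h
  have hsingle : ∀ X : Sch k, FT True X → ∃ m₀ : ℕ, ∀ m, m₀ ≤ m →
      ∃ N : ℕ, ∀ w j t : ℤ, 0 ≤ w → w ≤ 2 * m + 1 →
        Q ((D.tw (t + esh m N)).obj (D.G (w + 2 * esh m N) (j + 2 * esh m N + 1) (cubG k m))) →
          Q ((D.tw t).obj (D.G w j X)) := by
    intro X hX
    obtain ⟨m₀, hm⟩ := pieces_factor.{v, u} hk X hX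
    refine ⟨m₀, fun m hm1 => ?_⟩
    obtain ⟨N, hN⟩ := hm m hm1
    exact ⟨N, fun w j t h0 h1 => hQ (hD.back_factor (hN A D hD hd hs w j h0 h1) t)⟩
  have hneg : ∀ X : Sch k, FT True X → ∀ w j : ℤ, w < 0 → IsZero (D.G w j X) := by
    intro X hX w j hw
    obtain ⟨B, _, _, hB, h⟩ := exists_affine_factor.{v, u} X hX
    obtain ⟨i, r, hir⟩ := h A D hD hd hs w j
    rw [IsZero.iff_id_eq_zero, ← hir, (hD.low B w j hw).eq_zero_of_tgt i, zero_comp]
  refine ⟨fun w t => ?_, ?_, fun B _ _ _ => exact_affine hk hD hQ.isoInv B, hsingle,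
    fun Y hY d => exact_proj hk hD hv hQ.isoInv Y hY d⟩
  · tfae_have 1 → 2 := by
      intro h Y hY
      obtain ⟨m₀, hm⟩ := hsingle Y hY.ft
      obtain ⟨m, hm1, hm2⟩ := (Filter.frequently_atTop.1 h) (max m₀ w)
      obtain ⟨N, hN⟩ := hm m ((le_max_left _ _).trans hm1)
      have h1 : (w : ℤ) ≤ m := by exact_mod_cast (le_max_right _ _).trans hm1
      exact hN w w t (by positivity) (by linarith) (hm2 N)
    tfae_have 2 → 3 := by
      intro h X hX j
      obtain ⟨Y, hY, hf⟩ := hp X hX w j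
      exact hQ (hf.map _) (h Y hY)
    tfae_have 3 → 1 := by
      intro h
      refine Filter.Eventually.frequently ?_
      filter_upwards [Filter.eventually_ge_atTop (max w 1)] with m hm N
      have h1 : (w : ℤ) ≤ m := by exact_mod_cast (le_max_left _ _).trans hm
      rcases hD.cases N (by positivity) (show (w : ℤ) ≤ 2 * m + 1 by linarith) (w : ℤ) with
        ⟨s, rfl⟩ | hz | hj
      · obtain ⟨e⟩ := hD.back (hD.dict ((le_max_right _ _).trans hm) s (by positivity)
          (show (w : ℤ) ≤ 2 * m + 1 by linarith) (w : ℤ)) t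
        exact hQ.isoInv e.symm (h _ (ft_aff True) _)
      · exact hQ (Factor.zero (hD.tw_zero _ hz) _) (h (aff k k) (ft_aff True) 0)
      · omega
    tfae_finish
  · tfae_have 1 → 2 := by
      intro h Y hY i t
      rcases lt_or_ge i 0 with hi | hi
      · obtain ⟨m, -, hm⟩ := (Filter.frequently_atTop.1 h) 0
        exact hQ (Factor.zero (hD.tw_zero _ (hneg Y hY.ft i i hi)) _) (hm 0 0)
      · obtain ⟨m₀, hm⟩ := hsingle Y hY.ft
        obtain ⟨m, hm1, hm2⟩ := (Filter.frequently_atTop.1 h) (max m₀ i.toNat)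
        obtain ⟨N, hN⟩ := hm m ((le_max_left _ _).trans hm1)
        have h1 : i ≤ m := Int.toNat_le.mp ((le_max_right _ _).trans hm1)
        refine hN i i t hi (by linarith) ?_
        have h2 := hm2 (i + 2 * esh m N + 1) (t + esh m N)
        rwa [add_sub_cancel_right] at h2
    tfae_have 2 → 3 := by
      intro h X hX w j t
      obtain ⟨Y, hY, hf⟩ := hp X hX w j
      exact hQ (hf.map _) (h Y hY w t)
    tfae_have 3 → 1 := fun h => Filter.Frequently.of_forall fun m j t => h _ (ft_aff True) _ _ _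
    tfae_finish

/-- The case of the twist `0`: the property `Q` of `H^w(Y)` for all smooth projective schemes `Y`. -/
theorem DecidesPieces.degree (h : DecidesPieces D Q) (hD : IsPieces D) (hQ : IsoInv Q) (w : ℕ) :
    (∀ Y : Sch k, SmoothProj Y → Q (D.G w w Y)) ↔
      ∃ᶠ m in Filter.atTop, ∀ N : ℕ, Q ((D.tw (esh m N)).obj
        (D.G (w + 2 * esh m N) (w + 2 * esh m N + 1) (cubG k m))) := by
  have h1 := ((h.weight w 0).out 1 0)
  simp only [zero_add] at h1
  rw [← h1]
  refine forall_congr' fun Y => imp_congr_right fun _ => ?_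
  obtain ⟨e⟩ := hD.tw_nil (D.G w w Y)
  exact ⟨hQ e.symm, hQ e⟩

/-- The hypersurfaces `G_m = 1` decide the property `Q` of the cohomology of smooth projective schemes:

* for every smooth projective scheme `Y` and all large `m` there is an `e` such that for all `i ≤ d` and
  all `t` the property `Q` of `H^i(Y)(t)` is equivalent to the property `Q` of the object
  `Gr^W_{i+2e} H^{i+2e+1}_c(t + e)` of the hypersurface `G_m = 1`;
* if all Tate twists of the pieces of weight `j - 1` of `H^j_c` of infinitely many of the hypersurfaces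
  `G_m = 1` have the property `Q`, all Tate twists of the cohomology of all smooth projective schemes
  have the property `Q`. -/
structure DecidesProj (D : Pieces k A) (Q : A → Prop) : Prop where
  exact : ∀ Y : Sch k, SmoothProj Y → ∀ d : ℕ, ∃ m₀ : ℕ, ∀ m, m₀ ≤ m → ∃ e : ℕ, ∀ i : ℕ, i ≤ d →
    ∀ t : ℤ, (Q ((D.tw (t + e)).obj (D.G (i + 2 * e) (i + 2 * e + 1) (cubG k m))) ↔
      Q ((D.tw t).obj (D.G i i Y)))
  all : (∃ᶠ m in Filter.atTop, ∀ (j : ℕ) (t : ℤ), Q ((D.tw t).obj (D.G (j - 1) j (cubG k m)))) →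
    ∀ Y : Sch k, SmoothProj Y → ∀ (i : ℕ) (t : ℤ), Q ((D.tw t).obj (D.G i i Y))

theorem decides_proj (hk : IsPrimeField k) (hD : IsPieces D) (hv : Device D)
    (hQ : IsoInv Q) : DecidesProj D Q := by
  refine ⟨exact_proj hk hD hv hQ, fun h Y hY i t => ?_⟩
  obtain ⟨m₀, hm⟩ := exact_proj hk hD hv hQ Y hY i
  obtain ⟨m, hm1, hm2⟩ := (Filter.frequently_atTop.1 h) m₀
  obtain ⟨e, he⟩ := hm m hm1
  refine (he i le_rfl t).mp ?_
  have h3 := hm2 (i + 2 * e + 1) (t + e)
  push_cast at h3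
  rwa [add_sub_cancel_right] at h3

end

end Pool.Agent.H367.OS
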