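import Pool.Agent.H854.SQ.UDefs

/-!
# The graded universal system of relations: definitions
-/

set_option autoImplicit false

open MvPolynomial Pool.Agent.H854.SQ

universe u

namespace Pool.Agent.H367.OS

/-- An explicit numbering of the relations. -/
def relNum (n : ℕ) : Rel (Fin n) ≃ Fin (n * (n * n) + (n * (n * n) + n)) :=
  (Equiv.sumCongr ((Equiv.prodCongr (Equiv.refl _) finProdFinEquiv).trans finProdFinEquiv)
    ((Equiv.sumCongr ((Equiv.prodCongr (Equiv.refl _) finProdFinEquiv).trans finProdFinEquiv)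
      (Equiv.refl (Fin n))).trans finSumFinEquiv)).trans finSumFinEquiv

/-- The weight `(n + 1) 2^q` of the relation with the number `q`. -/
def mult {n : ℕ} (r : Rel (Fin n)) : ℕ := (n + 1) * 2 ^ (relNum n r : ℕ)

/-- The indices of the additional variables `y_{r,l}`, where `l` is less than the weight of the
relation `r`. -/
abbrev Ext (n : ℕ) : Type := Σ r : Rel (Fin n), Fin (mult r)

/-- The variables of the graded universal system: `xᵢ`, `zᵢⱼ`, `cᵣ` and `y_{r,l}`. -/
abbrev VarG (n : ℕ) : Type := Var n ⊕ Ext n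

/-- The indices of the equations of the graded universal system. -/
abbrev EqnG (n : ℕ) : Type := Eqn n ⊕ Ext n

section

variable (k : Type u) [CommRing k] {n : ℕ}

/-- The equations `zᵢⱼ - xᵢ xⱼ`, `cᵣ² - cᵣ`, `cᵣ ρᵣ` and `(1 - cᵣ) y_{r,l}`. -/
noncomputable def eqnG : EqnG n → MvPolynomial (VarG n) k
  | .inl e => rename Sum.inl (eqn k e)
  | .inr p => (1 - X (Sum.inl (.inr (.inr p.1)))) * X (Sum.inr p)

/-- The cubic polynomial `∑ tₑ (equation e)`, with one further variable `tₑ` for each equation. -/
noncomputable def univG (n : ℕ) : MvPolynomial (EqnG n ⊕ VarG n) k :=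
  ∑ e : EqnG n, X (Sum.inl e) * rename Sum.inr (eqnG k e)

end

end Pool.Agent.H367.OS
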