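import Pool.Agent.H367.OS.GAdd

/-!
# The dictionary: one index of one hypersurface for one scheme and one index
-/

set_option autoImplicit false

open CategoryTheory AlgebraicGeometry MvPolynomial Pool.Agent.Y116.UV Pool.Agent.Z125.UN
  Pool.Agent.Q193.LT Pool.Agent.H854.SQ

namespace Pool.Agent.H367.OS

/-- The number of the equations of the graded universal system. -/
def numEqn (m : ℕ) : ℕ := Fintype.card (EqnG m)

/-- The index `q + (m + 1) N + E_m - 1`, where `E_m` is the number of the equations. -/
def idx (m : ℕ) (q : ℤ) (N : ℕ) : ℤ := q + (m + 1) * N + (numEqn m - 1)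

/-- The dimension of the schemes `X_s`. -/
lemma krull_sys (k : Type) [Field k] {n : ℕ} (t : Finset (Rel (Fin n))) :
    ringKrullDim (Sys k t) ≤ n := by
  refine (ringKrullDim_quotient_le _).trans ?_
  rw [MvPolynomial.ringKrullDim_of_isNoetherianRing, ringKrullDim_eq_zero_of_field]
  simp

section

variable {k : Type} [Field k] {P : ℤ → Sch k → Prop} (hP : Graduated P) {n : ℕ}

include hP

/-- From the zero set of the equations to the hypersurface and back, index by index. -/
lemma Graduated.zero_set_iff (m : ℕ) (q : ℤ) :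
    P (q + (numEqn m - 1)) (cubG k m) ↔
      P q (aff k (MvPolynomial (VarG m) k ⧸ idealG k m)) := by
  let f := eqsG k m
  let A := MvPolynomial (VarG m) k
  have h0 : P q (aff k A) := by
    rw [hP.poly]
    exact hP.point _
  have h2 : P (q + (numEqn m - 1)) (cubG k m) ↔ P q (opn (aff k A) (neOpen k f)) := by
    have h3 := hP.bundle A _ f (opn (aff k A) (neOpen k f)) (opnMap (aff k A) (neOpen k f))
      inferInstance (range_opnMap _ _) (q + (numEqn m - 1))
    have h4 : q + ((numEqn m : ℤ) - 1) + (1 - (Fintype.card (EqnG m) : ℕ)) = q := by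
      rw [numEqn]
      ring
    rw [h4] at h3
    have h5 : Algebra.FiniteType k (Jou f) :=
      Algebra.FiniteType.trans (S := A) inferInstance inferInstance
    exact ⟨fun h => h3.mp (hP.iso_alg (cubEquivG k m) h),
      fun h => hP.iso_alg (cubEquivG k m).symm (h3.mpr h)⟩
  rw [h2, ← idealG_eq]
  have ht : IsTriple (affMap (Ideal.Quotient.mkₐ k (Ideal.span (Set.range f))))
      (opnMap (aff k A) (neOpen k f)) := by
    refine ⟨closed_affMap _ (Ideal.Quotient.mkₐ_surjective k _), inferInstance, ?_⟩
    rw [range_affMap _ (Ideal.Quotient.mkₐ_surjective k _), range_opnMap]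
    ext x
    change (∀ a, Ideal.Quotient.mk (Ideal.span (Set.range f)) a = 0 → a ∈ x.asIdeal) ↔
      ¬ ∃ l, f l ∉ x.asIdeal
    push Not
    constructor
    · intro h l
      exact h (f l) (Ideal.Quotient.eq_zero_iff_mem.mpr (Ideal.subset_span ⟨l, rfl⟩))
    · intro h a ha
      rw [Ideal.Quotient.eq_zero_iff_mem] at ha
      refine (Ideal.span_le.mpr ?_ : Ideal.span (Set.range f) ≤ x.asIdeal) ha
      rintro _ ⟨l, rfl⟩
      exact h l
  exact ⟨fun h => hP.closed _ _ (ft_aff True) ht q h0 h,
    fun h => hP.opened _ _ (ft_aff True) ht q h h0⟩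

/-- The components of the zero set. -/
lemma Graduated.comp_iff (t : Finset (Rel (Fin n))) (q : ℤ) : P q (Pt k Finset.univ t) ↔
    P (q - ((n + 1) * code t : ℕ)) (aff k (Sys k t)) := by
  have : Algebra.FiniteType k (MvPolynomial (ExtIn t) (Sys k t)) :=
    Algebra.FiniteType.trans (S := Sys k t) inferInstance inferInstance
  rw [← card_extIn, ← hP.poly]
  exact ⟨hP.iso_alg (compE t), hP.iso_alg (compE t).symm⟩

/-- The other components do not contribute. -/
lemma Graduated.other (s t : Finset (Rel (Fin n))) (hts : t ≠ s) {q : ℤ} (hq0 : 0 ≤ q)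
    (hqn : q ≤ n) : P (q + ((n + 1) * code s : ℕ)) (Pt k Finset.univ t) := by
  rw [hP.comp_iff]
  rcases lt_or_gt_of_ne (code_injective.ne hts) with hlt | hgt
  · refine hP.high _ n (krull_sys k t) _ ?_
    have h1 : ((code t : ℤ) + 1) ≤ code s := by exact_mod_cast hlt
    have h2 : ((n : ℤ) + 1) * ((code t : ℤ) + 1) ≤ (n + 1) * code s :=
      mul_le_mul_of_nonneg_left h1 (by positivity)
    push_cast
    linarith
  · refine hP.low _ _ ?_
    have h1 : ((code s : ℤ) + 1) ≤ code t := by exact_mod_cast hgt
    have h2 : ((n : ℤ) + 1) * ((code s : ℤ) + 1) ≤ (n + 1) * code t :=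
      mul_le_mul_of_nonneg_left h1 (by positivity)
    push_cast
    linarith

/-- **The dictionary.** The property with the index `q + (n + 1) N(s) + E_n - 1` of the hypersurface
`G_n = 1` is the property with the index `q` of the scheme `X_s` defined by the relations in `s`. -/
theorem Graduated.dict (s : Finset (Rel (Fin n))) {q : ℤ} (hq0 : 0 ≤ q) (hqn : q ≤ n) :
    P (idx n q (code s)) (cubG k n) ↔ P q (aff k (Sys k s)) := by
  have h1 : idx n q (code s) = (q + ((n + 1) * code s : ℕ)) + (numEqn n - 1) := by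
    rw [idx]
    push_cast
    ring
  have h2 : P (q + ((n + 1) * code s : ℕ)) (Pt k Finset.univ s) ↔ P q (aff k (Sys k s)) := by
    rw [hP.comp_iff, add_sub_cancel_right]
  rw [h1, hP.zero_set_iff, ← h2]
  constructor
  · intro h
    exact hP.component _ s h fun t hts => hP.other s t hts hq0 hqn
  · intro h
    have h3 := hP.of_components (q + ((n + 1) * code s : ℕ)) ∅ s fun t _ => by
      by_cases hts : t = s
      · rw [hts]
        exact h
      · exact hP.other s t hts hq0 hqn
    rw [Pt, part_empty] at h3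
    exact h3

end

section main

variable {k : Type} [Field k]

/-- **One index of one hypersurface for an affine scheme.** For every algebra `B` of finite type over
the prime field there is an `m₀` such that for all `m ≥ m₀` there is a number `N` such that for all
graduated families of properties `P q` and all `0 ≤ q ≤ m`, the property `P q` of `Spec B` is equivalent
to the property `P (q + (m + 1) N + E_m - 1)` of the hypersurface `G_m = 1`. -/
theorem exact_index (hk : IsPrimeField k) (B : Type) [CommRing B] [Algebra k B]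
    [Algebra.FiniteType k B] : ∃ m₀ : ℕ, ∀ m, m₀ ≤ m → ∃ N : ℕ, ∀ P : ℤ → Sch k → Prop,
      Graduated P → ∀ q : ℤ, 0 ≤ q → q ≤ m → (P (idx m q N) (cubG k m) ↔ P q (aff k B)) := by
  classical
  obtain ⟨m₀, hm⟩ := exists_fin (B := B) hk
  refine ⟨m₀, fun m hm1 => ?_⟩
  obtain ⟨b, hb, hp⟩ := hm m hm1
  let s : Finset (Rel (Fin m)) := Finset.univ.filter (· ∈ holds k b)
  refine ⟨code s, fun P hP q hq0 hqm => ?_⟩
  have h1 : Ideal.span (relPoly k '' (s : Set (Rel (Fin m)))) =
      RingHom.ker (aeval b : MvPolynomial (Fin m) k →ₐ[k] B) := by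
    have h2 : (s : Set (Rel (Fin m))) = holds k b := by
      ext r
      simp [s]
    rw [h2]
    exact le_antisymm (fun f hf => span_le_of_holds b hf) fun f hf => hp f hf
  let e : Sys k s ≃ₐ[k] B := (Ideal.quotientEquivAlgOfEq k h1).trans
    (Ideal.quotientKerAlgEquivOfSurjective hb)
  rw [hP.dict s hq0 hqm]
  exact ⟨hP.iso_alg e, hP.iso_alg e.symm⟩

/-- One hypersurface `G_m = 1`, and the indices belonging to `q`, are sufficient for `P q` and a given
scheme. -/
theorem single_index (hk : IsPrimeField k) (X : Sch k) (hX : FT True X) :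
    ∃ m₀ : ℕ, ∀ m, m₀ ≤ m → ∀ P : ℤ → Sch k → Prop, Graduated P → ∀ q : ℤ, 0 ≤ q → q ≤ m →
      (∀ N : ℕ, P (idx m q N) (cubG k m)) → P q X := by
  refine of_affine' (sep := True) (P := fun X => ∃ m₀ : ℕ, ∀ m, m₀ ≤ m → ∀ P : ℤ → Sch k → Prop,
    Graduated P → ∀ q : ℤ, 0 ≤ q → q ≤ m → (∀ N : ℕ, P (idx m q N) (cubG k m)) → P q X)
    ?_ ?_ (fun B _ _ _ => ?_) X hX
  · rintro X Y hX e ⟨m₀, h⟩
    exact ⟨m₀, fun m hm P hP q h0 h1 h2 => hP.iso hX e q (h m hm P hP q h0 h1 h2)⟩
  · rintro Z X U i j hX ht ⟨m₀, h⟩ ⟨m₁, h'⟩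
    exact ⟨max m₀ m₁, fun m hm P hP q h0 h1 h2 => hP.total i j hX ht q
      (h m ((le_max_left _ _).trans hm) P hP q h0 h1 h2)
      (h' m ((le_max_right _ _).trans hm) P hP q h0 h1 h2)⟩
  · obtain ⟨m₀, hm⟩ := exact_index hk B
    refine ⟨m₀, fun m hm1 P hP q h0 h1 h2 => ?_⟩
    obtain ⟨N, hN⟩ := hm m hm1
    exact (hN P hP q h0 h1).mp (h2 N)

lemma of_all_schemes {P : ℤ → Sch k → Prop} (hP : Graduated P) (m : ℕ) {q : ℤ} (hq0 : 0 ≤ q)
    (hqm : q ≤ m) (h : ∀ X : Sch k, FT True X → P q X) (N : ℕ) : P (idx m q N) (cubG k m) := by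
  have h1 : idx m q N = (q + ((m + 1) * N : ℕ)) + (numEqn m - 1) := by
    rw [idx]
    push_cast
    ring
  rw [h1, hP.zero_set_iff, ← part_empty ∅]
  refine hP.of_components _ ∅ ∅ fun t _ => ?_
  rw [hP.comp_iff]
  rcases lt_trichotomy (code t) N with hlt | he | hgt
  · refine hP.high _ m (krull_sys k t) _ ?_
    have h1 : ((code t : ℤ) + 1) ≤ N := by exact_mod_cast hlt
    have h2 : ((m : ℤ) + 1) * ((code t : ℤ) + 1) ≤ (m + 1) * N :=
      mul_le_mul_of_nonneg_left h1 (by positivity)
    push_cast
    linarith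
  · rw [he, add_sub_cancel_right]
    exact h _ (ft_aff True)
  · refine hP.low _ _ ?_
    have h1 : ((N : ℤ) + 1) ≤ code t := by exact_mod_cast hgt
    have h2 : ((m : ℤ) + 1) * ((N : ℤ) + 1) ≤ (m + 1) * code t :=
      mul_le_mul_of_nonneg_left h1 (by positivity)
    push_cast
    linarith

/-- One index at a time, if the property of all schemes follows from the property of the smooth
projective ones. -/
theorem index_tfae_gen (hk : IsPrimeField k) {P : ℤ → Sch k → Prop} (hP : Graduated P) (q : ℕ)
    (gen : (∀ Y : Sch k, SmoothProj Y → P q Y) → ∀ X : Sch k, FT True X → P q X) :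
    List.TFAE [∃ᶠ m in Filter.atTop, ∀ N : ℕ, P (idx m q N) (cubG k m),
      ∀ Y : Sch k, SmoothProj Y → P q Y,
      ∀ X : Sch k, FT True X → P q X] := by
  tfae_have 1 → 3 := fun h X hX => by
    obtain ⟨m₀, hm⟩ := single_index hk X hX
    obtain ⟨m, hm1, hm2⟩ := (Filter.frequently_atTop.1 h) (max m₀ q)
    exact hm m ((le_max_left _ _).trans hm1) P hP q (by positivity)
      (by exact_mod_cast (le_max_right _ _).trans hm1) hm2
  tfae_have 3 → 2 := fun h Y hY => h Y hY.ft
  tfae_have 2 → 3 := gen
  tfae_have 3 → 1 := fun h => by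
    refine Filter.Eventually.frequently ?_
    filter_upwards [Filter.eventually_ge_atTop q] with m hm N
    exact of_all_schemes hP m (by positivity) (by exact_mod_cast hm) h N
  tfae_finish

/-- **One index at a time.** -/
theorem index_tfae (hk : IsPrimeField k) (hH : Hironaka k) {P : ℤ → Sch k → Prop}
    (hP : Graduated P) (q : ℕ) :
    List.TFAE [∃ᶠ m in Filter.atTop, ∀ N : ℕ, P (idx m q N) (cubG k m),
      ∀ Y : Sch k, SmoothProj Y → P q Y,
      ∀ X : Sch k, FT True X → P q X] := by
  have htwo : TwoOfThree (fun X : Sch k => P q X) :=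
    { iso := fun h e h1 => hP.iso h e q h1
      total := fun i j h ht h1 h2 => hP.total i j h ht q h1 h2
      opened := fun i j h ht h1 h2 => hP.opened i j h ht q h1 h2
      closed := fun i j h ht h1 h2 => hP.closed i j h ht q h1 h2 }
  tfae_have 1 → 3 := fun h X hX => by
    obtain ⟨m₀, hm⟩ := single_index hk X hX
    obtain ⟨m, hm1, hm2⟩ := (Filter.frequently_atTop.1 h) (max m₀ q)
    exact hm m ((le_max_left _ _).trans hm1) P hP q (by positivity)
      (by exact_mod_cast (le_max_right _ _).trans hm1) hm2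
  tfae_have 3 → 2 := fun h Y hY => h Y hY.ft
  tfae_have 2 → 3 := fun h => by
    have haff : ∀ (B : Type) [CommRing B] [Algebra k B] [Algebra.FiniteType k B],
        P q (aff k B) := by
      intro B _ _ _
      obtain ⟨n, f, hf⟩ := Algebra.FiniteType.iff_quotient_mvPolynomial''.1
        (inferInstance : Algebra.FiniteType k B)
      have h1 : topologicalKrullDim (aff k B).left ≤ (n : ℕ) := by
        have h2 : topologicalKrullDim (aff k B).left = ringKrullDim B :=
          PrimeSpectrum.topologicalKrullDim_eq_ringKrullDim _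
        rw [h2]
        refine (ringKrullDim_le_of_surjective f.toRingHom hf).trans ?_
        rw [MvPolynomial.ringKrullDim_of_isNoetherianRing, ringKrullDim_eq_zero_of_field]
        simp
      exact hH n _ htwo (fun Y hY _ => h Y hY) _ (ft_aff True) h1
    intro X hX
    exact of_affine' (sep := True) (P := fun X => P q X) (fun hX e => hP.iso hX e q)
      (fun i j hX ht h1 h2 => hP.total i j hX ht q h1 h2) (fun B _ _ _ => haff B) X hX
  tfae_have 3 → 1 := fun h => by
    refine Filter.Eventually.frequently ?_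
    filter_upwards [Filter.eventually_ge_atTop q] with m hm N
    exact of_all_schemes hP m (by positivity) (by exact_mod_cast hm) h N
  tfae_finish

/-- The hypersurfaces `G_m = 1` decide the properties `P q`:

* for every `q ≥ 0` the properties with the indices `q + (m + 1) N + E_m - 1`, `N ∈ ℕ`, of the
  hypersurfaces `G_m = 1`, for infinitely many `m`, are equivalent to the property `P q` of all smooth
  projective schemes, and of all separated schemes of finite type over `k`;
* all properties of infinitely many of the hypersurfaces `G_m = 1` are equivalent to all properties of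
  all smooth projective schemes, and of all separated schemes of finite type;
* for every affine scheme `Spec B` of finite type and all large `m` there is an `N` such that for
  `0 ≤ q ≤ m` the property `P q` of `Spec B` is equivalent to the property with the index
  `q + (m + 1) N + E_m - 1` of the hypersurface `G_m = 1`;
* for every separated scheme `X` of finite type and all large `m`, the properties of the hypersurface
  `G_m = 1` imply the properties of `X`, and for every `0 ≤ q ≤ m` the properties with the indices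
  `q + (m + 1) N + E_m - 1`, `N ∈ ℕ`, imply the property `P q` of `X`. -/
structure Decides (P : ℤ → Sch k → Prop) : Prop where
  index : ∀ q : ℕ, List.TFAE [∃ᶠ m in Filter.atTop, ∀ N : ℕ, P (idx m q N) (cubG k m),
    ∀ Y : Sch k, SmoothProj Y → P q Y,
    ∀ X : Sch k, FT True X → P q X]
  all : List.TFAE [∃ᶠ m in Filter.atTop, ∀ q, P q (cubG k m),
    ∀ Y : Sch k, SmoothProj Y → ∀ q, P q Y,
    ∀ X : Sch k, FT True X → ∀ q, P q X]
  exact : ∀ (B : Type) [CommRing B] [Algebra k B] [Algebra.FiniteType k B], ∃ m₀ : ℕ, ∀ m, m₀ ≤ m →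
    ∃ N : ℕ, ∀ q : ℤ, 0 ≤ q → q ≤ m → (P (idx m q N) (cubG k m) ↔ P q (aff k B))
  single : ∀ X : Sch k, FT True X → ∃ m₀ : ℕ, ∀ m, m₀ ≤ m →
    ((∀ q, P q (cubG k m)) → ∀ q, P q X) ∧
    ∀ q : ℤ, 0 ≤ q → q ≤ m → (∀ N : ℕ, P (idx m q N) (cubG k m)) → P q X

/-- **The sequence decides.** -/
theorem decides (hk : IsPrimeField k) (hH : Hironaka k) {P : ℤ → Sch k → Prop}
    (hP : Graduated P) : Decides P where
  index q := index_tfae hk hH hP q
  all := graduated_tfae hk hH hP
  exact B _ _ _ := by
    obtain ⟨m₀, hm⟩ := exact_index hk B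
    refine ⟨m₀, fun m hm1 => ?_⟩
    obtain ⟨N, hN⟩ := hm m hm1
    exact ⟨N, fun q h0 h1 => hN _ hP q h0 h1⟩
  single X hX := by
    obtain ⟨m₀, hm⟩ := gsingle hk X hX
    obtain ⟨m₁, hm'⟩ := single_index hk X hX
    exact ⟨max m₀ m₁, fun m hm1 => ⟨hm m ((le_max_left _ _).trans hm1) P hP,
      fun q h0 h1 h2 => hm' m ((le_max_right _ _).trans hm1) P hP q h0 h1 h2⟩⟩

end main

end Pool.Agent.H367.OS
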