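import Pool.Agent.H367.OS.GDeg
import Pool.Graph.R_pool_sql_team_seeded_2aa45f1a.Q49.WU.Pair
import Pool.Graph.R_pool_sql_team_seeded_2aa45f1a.Q49.WU.Coh

/-!
# The sequence of cubics and cohomology with compact supports, weight by weight
-/

set_option autoImplicit false

open CategoryTheory CategoryTheory.Limits AlgebraicGeometry MvPolynomial Pool.Agent.Y116.UV
  Pool.Agent.Z125.UN Pool.Agent.Q193.LT Pool.Agent.Q49.WU Pool.Agent.H854.SQ

universe v u w w'

namespace Pool.Agent.H367.OS

section gen

variable {k : Type} [Field k] {P : ℤ → Sch k → Prop}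

/-- **The sequence decides**, if the properties of all schemes follow from the properties of the smooth
projective ones. -/
theorem decides_gen (hk : IsPrimeField k) (hP : Graduated P)
    (gen : ∀ q : ℤ, (∀ Y : Sch k, SmoothProj Y → P q Y) → ∀ X : Sch k, FT True X → P q X) :
    Decides P where
  index q := index_tfae_gen hk hP q (gen q)
  all := by
    tfae_have 1 → 3 := fun h X hX q => gsequence hk hP h q X hX
    tfae_have 3 → 2 := fun h Y hY q => h Y hY.ft q
    tfae_have 2 → 3 := fun h X hX q => gen q (fun Y hY => h Y hY q) X hX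
    tfae_have 3 → 1 := fun h => Filter.Frequently.of_forall fun m q => h _ (ft_aff True) q
    tfae_finish
  exact B _ _ _ := by
    obtain ⟨m₀, hm⟩ := exact_index hk B
    refine ⟨m₀, fun m hm1 => ?_⟩
    obtain ⟨N, hN⟩ := hm m hm1
    exact ⟨N, fun q h0 h1 => hN _ hP q h0 h1⟩
  single X hX := by
    obtain ⟨m₀, hm⟩ := gsingle hk X hX
    obtain ⟨m₁, hm'⟩ := single_index hk X hX
    exact ⟨max m₀ m₁, fun m hm1 => ⟨hm m ((le_max_left _ _).trans hm1) P hP,
      fun q h0 h1 h2 => hm' m ((le_max_right _ _).trans hm1) P hP q h0 h1 h2⟩⟩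

/-- The known cases: if `P q` is true for all smooth projective schemes, the properties with the
indices `q + (m + 1) N + E_m - 1` of the hypersurfaces `G_m = 1`, `m ≥ q`, are true. -/
theorem known_indices (hP : Graduated P) {q : ℕ}
    (gen : (∀ Y : Sch k, SmoothProj Y → P q Y) → ∀ X : Sch k, FT True X → P q X)
    (h : ∀ Y : Sch k, SmoothProj Y → P q Y) {m : ℕ} (hm : q ≤ m) (N : ℕ) :
    P (idx m q N) (cubG k m) :=
  of_all_schemes hP m (by positivity) (by exact_mod_cast hm) (gen h) N

/-- Properties with the closure properties `WUni` that are trivial outside of the range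
`0 ≤ q ≤ dim X`. -/
theorem graduated_wuni (hP : WUni True P)
    (low : ∀ (B : Type) [CommRing B] [Algebra k B] [Algebra.FiniteType k B] (q : ℤ), q < 0 →
      P q (aff k B))
    (high : ∀ (B : Type) [CommRing B] [Algebra k B] [Algebra.FiniteType k B] (n : ℕ),
      ringKrullDim B ≤ n → ∀ q : ℤ, (n : ℤ) < q → P q (aff k B)) : Graduated P where
  iso hX e q h := hP.iso q hX e h
  total i j hX ht q := hP.total q i j hX ht
  opened i j hX ht q := hP.opened q i j hX ht
  closed i j hX ht q := hP.closed q i j hX ht
  bundle B _ _ _ m f U j hj hr q := by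
    have h := hP.jouanolou (q + (1 - m)) B m f U j hj hr
    have h0 : q + (1 - (m : ℤ)) + ((m : ℤ) - 1) = q := by ring
    rwa [h0] at h
  point q := Pool.Agent.Q49.WU.iso_alg hP (isEmptyAlgEquiv k (Fin 0)) (hP.space q 0)
  low := low
  high := high

end gen

section weight

variable {k : Type} [Field k] {A : Type u} [Category.{v} A] [Abelian A]

/-- The cohomology with compact supports of an affine scheme of dimension at most `d` has no parts with
the indices `N < 0` and `N > d` (the index `N` is the weight `w + 2 N`, `w = 0` or `w = ± 1`). -/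
structure WVanish (D : WeightData k A) : Prop where
  low : ∀ (B : Type) [CommRing B] [Algebra k B] [Algebra.FiniteType k B] (N n : ℤ), N < 0 →
    IsZero (D.H N n (aff k B))
  high : ∀ (B : Type) [CommRing B] [Algebra k B] [Algebra.FiniteType k B] (d : ℕ),
    ringKrullDim B ≤ d → ∀ N n : ℤ, (d : ℤ) < N → IsZero (D.H N n (aff k B))

variable {D : WeightData k A} {S : A → Prop}

theorem graduated_weight (hD : IsWeight D) (hv : WVanish D) (hS : TwSerre D S)
    (h1 : ∀ N, InAt D S N (aff k k)) : Graduated (InAt D S) :=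
  graduated_wuni (wuni_weight hD hS h1)
    (fun B _ _ _ q hq n => hS.toIsSerre.zero _ (hv.low B q n hq))
    (fun B _ _ _ d hd q hq n => hS.toIsSerre.zero _ (hv.high B d hd q n hq))

/-- **The sequence decides, weight by weight.** -/
theorem decides_weight (hk : IsPrimeField k) (hD : IsWeight D) (hv : WVanish D)
    (hg : WGenerated D) (hS : TwSerre D S) (h1 : ∀ N, InAt D S N (aff k k)) :
    Decides (InAt D S) :=
  decides_gen hk (graduated_weight hD hv hS h1) fun q h => hg q S hS h

end weight

section pair

variable {k : Type} [Field k] {ι : Type} {E : Type w'} [CommRing E]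

/-- The groups of an affine scheme of dimension at most `d` are zero for the indices of weight `< 0`
and `> d`. -/
structure PVanish (C : PairData.{w} k ι E) (wt : ι → ℤ) : Prop where
  low : ∀ (B : Type) [CommRing B] [Algebra k B] [Algebra.FiniteType k B] (j : ι), wt j < 0 →
    Subsingleton (C.A j (aff k B)) ∧ Subsingleton (C.B j (aff k B))
  high : ∀ (B : Type) [CommRing B] [Algebra k B] [Algebra.FiniteType k B] (d : ℕ),
    ringKrullDim B ≤ d → ∀ j : ι, (d : ℤ) < wt j →
      Subsingleton (C.A j (aff k B)) ∧ Subsingleton (C.B j (aff k B))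

variable {C : PairData.{w} k ι E} {wt : ι → ℤ} {δ τ σ : ι ≃ ι}

lemma bij_of_sub {P Q : ModuleCat.{w} E} (f : P ⟶ Q) (hP : Subsingleton P) (hQ : Subsingleton Q) :
    Function.Bijective f.hom :=
  ⟨fun _ _ _ => hP.elim _ _, fun _ => ⟨0, hQ.elim _ _⟩⟩

theorem graduated_pair (hC : IsPair C δ τ σ) (hg : IsGraded wt δ τ σ) (hv : PVanish C wt)
    (h1 : BijAll C (aff k k)) : Graduated (BijAt C wt) :=
  graduated_wuni (wuni_pair hC hg h1)
    (fun B _ _ _ q hq j hj => by
      obtain ⟨h2, h3⟩ := hv.low B j (by omega)
      exact bij_of_sub _ h2 h3)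
    (fun B _ _ _ d hd q hq j hj => by
      obtain ⟨h2, h3⟩ := hv.high B d hd j (by omega)
      exact bij_of_sub _ h2 h3)

/-- **The sequence decides, index by index.** -/
theorem decides_pair (hk : IsPrimeField k) (hw : GenAt C wt) (hC : IsPair C δ τ σ)
    (hg : IsGraded wt δ τ σ) (hv : PVanish C wt) (h1 : BijAll C (aff k k)) :
    Decides (BijAt C wt) :=
  decides_gen hk (graduated_pair hC hg hv h1) fun q h => hw q h

end pair

end Pool.Agent.H367.OS
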