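import Pool.Agent.H367.OS.GObj
import Pool.Agent.H367.OS.GWu

/-!
# The dictionary for additive invariants (with values in a Grothendieck group)
-/

set_option autoImplicit false

open CategoryTheory CategoryTheory.Limits AlgebraicGeometry MvPolynomial Pool.Agent.Y116.UV
  Pool.Agent.Z125.UN Pool.Agent.Q193.LT Pool.Agent.H854.SQ

universe w

namespace Pool.Agent.H367.OS

/-- Additive invariants `c q X`, `q ∈ ℤ`, of the separated schemes of finite type over `k`, with values in
an abelian group `Γ` (for instance Euler characteristics in a Grothendieck group of motives):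

* `add`: `c q X = c q Z + c q U` for a closed subscheme `Z` with the complement `U`;
* `bundle`: for the affine bundle `Spec B[w_1, …, w_r] / (∑ f_l w_l - 1) → U` with fibre `𝔸^{r-1}`, where
  `U` is the complement of `f = 0` in `Spec B`, the invariant with the index `q` of the total space is
  the invariant with the index `q - (r - 1)` of `U`;
* `low`, `high`: the invariants are zero for `q < 0` and for `q > dim X`;
* `device`: every smooth projective scheme has an affine bundle whose total space is affine (Jouanolou);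
* `generated`: the invariants of all schemes are in the subgroup generated by the invariants of the smooth
  projective ones. -/
structure IsEuler {k : Type} [Field k] {Γ : Type w} [AddCommGroup Γ] (c : ℤ → Sch k → Γ) :
    Prop where
  iso : ∀ {X Y : Sch k}, FT True X → Nonempty (X ≅ Y) → ∀ q, c q X = c q Y
  add : ∀ {Z X U : Sch k} (i : Z ⟶ X) (j : U ⟶ X), FT True X → IsTriple i j →
    ∀ q, c q X = c q Z + c q U
  bundle : ∀ (B : Type) [CommRing B] [Algebra k B] [Algebra.FiniteType k B] (r : ℕ)
    (f : Fin r → B) (U : Sch k) (j : U ⟶ aff k B), IsOpenImmersion j.left →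
    Set.range j.left = {x : PrimeSpectrum B | ∃ l, f l ∉ x.asIdeal} →
    ∀ q, c q (aff k (Jou f)) = c (q + (1 - r)) U
  low : ∀ (B : Type) [CommRing B] [Algebra k B] [Algebra.FiniteType k B] (q : ℤ), q < 0 →
    c q (aff k B) = 0
  high : ∀ (B : Type) [CommRing B] [Algebra k B] [Algebra.FiniteType k B] (n : ℕ),
    ringKrullDim B ≤ n → ∀ q : ℤ, (n : ℤ) < q → c q (aff k B) = 0
  device : ∀ Y : Sch k, SmoothProj Y → ∃ (B : Type) (_ : CommRing B) (_ : Algebra k B)
    (_ : Algebra.FiniteType k B) (r : ℕ), ∀ q : ℤ, c (q + r) (aff k B) = c q Y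
  generated : ∀ (q : ℤ) (S : AddSubgroup Γ), (∀ Y : Sch k, SmoothProj Y → c q Y ∈ S) →
    ∀ X : Sch k, FT True X → c q X ∈ S

section

variable {k : Type} [Field k] {Γ : Type w} [AddCommGroup Γ] {c : ℤ → Sch k → Γ}

/-- The properties `c q X ∈ S`. -/
lemma IsEuler.graduated (h : IsEuler c) (S : AddSubgroup Γ) (point : ∀ q, c q (aff k k) ∈ S) :
    Graduated fun q X => c q X ∈ S where
  iso hX e q h1 := h.iso hX e q ▸ h1
  total i j hX ht q hZ hU := by
    rw [h.add i j hX ht q]
    exact S.add_mem hZ hU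
  opened i j hX ht q hZ hX' := by
    have h1 := h.add i j hX ht q
    rw [← sub_eq_iff_eq_add'.mpr h1]
    exact S.sub_mem hX' hZ
  closed i j hX ht q hX' hU := by
    have h1 := h.add i j hX ht q
    rw [← sub_eq_iff_eq_add.mpr h1]
    exact S.sub_mem hX' hU
  bundle B _ _ _ r f U j hj hr q := by rw [h.bundle B r f U j hj hr q]
  point := point
  low B _ _ _ q hq := by rw [h.low B q hq]; exact S.zero_mem
  high B _ _ _ n hn q hq := by rw [h.high B n hn q hq]; exact S.zero_mem

variable (h : IsEuler c)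

include h

lemma IsEuler.iso_alg {B C : Type} [CommRing B] [CommRing C] [Algebra k B] [Algebra k C]
    [Algebra.FiniteType k B] (e : B ≃ₐ[k] C) (q : ℤ) : c q (aff k B) = c q (aff k C) :=
  h.iso (ft_aff True) ⟨(affIso e).symm⟩ q

/-- Products with affine spaces. -/
lemma IsEuler.poly_fin (B : Type) [CommRing B] [Algebra k B] [Algebra.FiniteType k B] (n : ℕ)
    (q : ℤ) : c q (aff k (MvPolynomial (Fin n) B)) = c (q - n) (aff k B) := by
  have h1 : IsOpenImmersion (𝟙 (aff k B) : aff k B ⟶ aff k B).left :=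
    inferInstanceAs (IsOpenImmersion (𝟙 (aff k B).left))
  have h2 : Set.range (𝟙 (aff k B) : aff k B ⟶ aff k B).left =
      {x : PrimeSpectrum B | ∃ l, f1 B n l ∉ x.asIdeal} := by
    have h1 : Set.range (𝟙 (aff k B) : aff k B ⟶ aff k B).left = Set.univ := Set.range_id
    have h2 : {x : PrimeSpectrum B | ∃ l, f1 B n l ∉ x.asIdeal} = Set.univ := by
      rw [Set.eq_univ_iff_forall]
      intro x
      exact ⟨0, fun h => x.isPrime.ne_top ((Ideal.eq_top_iff_one _).mpr h)⟩
    exact h1.trans h2.symm
  have e := h.bundle B (n + 1) (f1 B n) (aff k B) (𝟙 _) h1 h2 q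
  have h4 : q + (1 - ((n + 1 : ℕ) : ℤ)) = q - n := by push_cast; ring
  rw [h4] at e
  have : Algebra.FiniteType k (Jou (f1 B n)) :=
    Algebra.FiniteType.trans (S := B) inferInstance inferInstance
  rw [← e]
  exact (h.iso_alg ((jouOne B n).restrictScalars k) q).symm

lemma IsEuler.poly (B : Type) [CommRing B] [Algebra k B] [Algebra.FiniteType k B] (τ : Type)
    [Finite τ] (q : ℤ) : c q (aff k (MvPolynomial τ B)) = c (q - Nat.card τ) (aff k B) := by
  have := Fintype.ofFinite τ
  have : Algebra.FiniteType k (MvPolynomial τ B) :=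
    Algebra.FiniteType.trans (S := B) inferInstance inferInstance
  rw [Nat.card_eq_fintype_card, ← h.poly_fin B (Fintype.card τ) q]
  exact h.iso_alg ((renameEquiv B (Fintype.equivFin τ)).restrictScalars k) q

variable {n : ℕ}

/-- The components. -/
lemma IsEuler.comp (t : Finset (Rel (Fin n))) (q : ℤ) : c q (Pt k Finset.univ t) =
    c (q - ((n + 1) * code t : ℕ)) (aff k (Sys k t)) := by
  have : Algebra.FiniteType k (MvPolynomial (ExtIn t) (Sys k t)) :=
    Algebra.FiniteType.trans (S := Sys k t) inferInstance inferInstance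
  rw [← card_extIn, ← h.poly]
  exact h.iso_alg (compE t) q

/-- The components with another code do not contribute. -/
lemma IsEuler.comp_zero (t : Finset (Rel (Fin n))) (N : ℕ) (ht : code t ≠ N) {q : ℤ}
    (hq0 : 0 ≤ q) (hqn : q ≤ n) : c (q + ((n + 1) * N : ℕ)) (Pt k Finset.univ t) = 0 := by
  rw [h.comp]
  rcases lt_or_gt_of_ne ht with hlt | hgt
  · refine h.high _ n (krull_sys k t) _ ?_
    have h1 : ((code t : ℤ) + 1) ≤ N := by exact_mod_cast hlt
    have h2 : ((n : ℤ) + 1) * ((code t : ℤ) + 1) ≤ (n + 1) * N :=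
      mul_le_mul_of_nonneg_left h1 (by positivity)
    push_cast
    linarith
  · refine h.low _ _ ?_
    have h1 : ((N : ℤ) + 1) ≤ code t := by exact_mod_cast hgt
    have h2 : ((n : ℤ) + 1) * ((N : ℤ) + 1) ≤ (n + 1) * code t :=
      mul_le_mul_of_nonneg_left h1 (by positivity)
    push_cast
    linarith

lemma IsEuler.part_zero (q : ℤ) (F s : Finset (Rel (Fin n)))
    (h0 : ∀ t : Finset (Rel (Fin n)), (∀ r ∈ F, (r ∈ t ↔ r ∈ s)) →
      c q (Pt k Finset.univ t) = 0) : c q (Pt k F s) = 0 := by
  classical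
  induction hN : (Finset.univ \ F).card generalizing F s with
  | zero =>
    rw [Finset.card_eq_zero, Finset.sdiff_eq_empty_iff_subset, Finset.univ_subset_iff] at hN
    subst hN
    exact h0 s fun _ _ => Iff.rfl
  | succ N ih =>
    obtain ⟨r, hr⟩ : (Finset.univ \ F).Nonempty := by
      rw [← Finset.card_pos]
      omega
    have hrF : r ∉ F := (Finset.mem_sdiff.1 hr).2
    have hc : (Finset.univ \ insert r F).card = N := by
      rw [Finset.sdiff_insert, Finset.card_erase_of_mem hr, hN, Nat.add_sub_cancel]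
    obtain ⟨i, j, ht⟩ := triple_part (k := k) F s hrF
    rw [h.add i j (ft_aff True) ht q, ih _ _ (fun t ht => h0 t fun u hu => ?_) hc,
      ih _ _ (fun t ht => h0 t fun u hu => ?_) hc, add_zero]
    · have hur : u ≠ r := fun h => hrF (h ▸ hu)
      rw [ht u (Finset.mem_insert_of_mem hu), Finset.mem_insert, or_iff_right hur]
    · have hur : u ≠ r := fun h => hrF (h ▸ hu)
      rw [ht u (Finset.mem_insert_of_mem hu), Finset.mem_erase, and_iff_right hur]

lemma IsEuler.one_comp (q : ℤ) (s : Finset (Rel (Fin n)))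
    (h0 : ∀ t : Finset (Rel (Fin n)), t ≠ s → c q (Pt k Finset.univ t) = 0) :
    c q (aff k (MvPolynomial (VarG n) k ⧸ idealG k n)) = c q (Pt k Finset.univ s) := by
  classical
  have key : ∀ F : Finset (Rel (Fin n)),
      c q (aff k (MvPolynomial (VarG n) k ⧸ idealG k n)) = c q (Pt k F s) := by
    intro F
    induction F using Finset.induction_on with
    | empty => rw [Pt, part_empty]
    | insert r F hr ih =>
      rw [ih]
      obtain ⟨i, j', ht⟩ := triple_part (k := k) F s hr
      rw [h.add i j' (ft_aff True) ht q]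
      by_cases hs : r ∈ s
      · have h1 : c q (Pt k (insert r F) (s.erase r)) = 0 :=
          h.part_zero q _ _ fun t ht => h0 t fun hts =>
            Finset.notMem_erase r s ((ht r (Finset.mem_insert_self r F)).1 (hts ▸ hs))
        rw [h1, zero_add, Finset.insert_eq_of_mem hs]
      · have h1 : c q (Pt k (insert r F) (insert r s)) = 0 :=
          h.part_zero q _ _ fun t ht => h0 t fun hts =>
            hs (hts ▸ (ht r (Finset.mem_insert_self r F)).2 (Finset.mem_insert_self r s))
        rw [h1, add_zero, Finset.erase_eq_of_notMem hs]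
  exact key _

/-- From the zero set of the equations to the hypersurface. -/
lemma IsEuler.zero_cub (m : ℕ) {q : ℤ} (hq : q < Nat.card (VarG m)) :
    c (q + (numEqn m - 1)) (cubG k m) =
      - c q (aff k (MvPolynomial (VarG m) k ⧸ idealG k m)) := by
  have h1 := h.bundle (MvPolynomial (VarG m) k) _ (eqsG k m)
    (opn (aff k (MvPolynomial (VarG m) k)) (neOpen k (eqsG k m)))
    (opnMap (aff k (MvPolynomial (VarG m) k)) (neOpen k (eqsG k m)))
    inferInstance (range_opnMap _ _) (q + (numEqn m - 1))
  have h2 : q + ((numEqn m : ℤ) - 1) + (1 - (Fintype.card (EqnG m) : ℕ)) = q := by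
    rw [numEqn]
    ring
  rw [h2] at h1
  obtain ⟨i, j', ht⟩ := triple_zero k m
  have h3 := h.add i j' (ft_aff True) ht q
  rw [h.poly k (VarG m) q, h.low k _ (by linarith)] at h3
  have h4 : c (q + (numEqn m - 1)) (cubG k m) = c (q + (numEqn m - 1)) (aff k (Jou (eqsG k m))) :=
    h.iso_alg (cubEquivG k m) (q + (numEqn m - 1))
  rw [h4, h1]
  exact eq_neg_of_add_eq_zero_right h3.symm

/-- **The dictionary.** The invariant with the index `q + (n + 1) N(s) + E_n - 1` of the hypersurface
`G_n = 1` is minus the invariant with the index `q` of the scheme `X_s` defined by the relations in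
`s`. -/
theorem IsEuler.dict (hn : 1 ≤ n) (s : Finset (Rel (Fin n))) {q : ℤ} (hq0 : 0 ≤ q)
    (hqn : q ≤ n) : c (idx n q (code s)) (cubG k n) = - c q (aff k (Sys k s)) := by
  have hc := card_varG hn s
  have hc' : ((n : ℤ) + 1) * code s + (n + 1) ≤ Nat.card (VarG n) := by exact_mod_cast hc
  have h1 : idx n q (code s) = (q + ((n + 1) * code s : ℕ)) + (numEqn n - 1) := by
    rw [idx]
    push_cast
    ring
  rw [h1, h.zero_cub n (by push_cast; linarith),
    h.one_comp (q + ((n + 1) * code s : ℕ)) s
      (fun t ht => h.comp_zero t (code s) (code_injective.ne ht) hq0 hqn), h.comp,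
    add_sub_cancel_right]

/-- All indices: the invariants of the hypersurface with the indices `q + (m + 1) N + E_m - 1`,
`0 ≤ q ≤ m`, are zero, or minus the invariants of an affine scheme with the index `q` (or `N` is too
large). -/
theorem IsEuler.cases {m : ℕ} (N : ℕ) {q : ℤ} (hq0 : 0 ≤ q) (hqm : q ≤ m)
    (hN : q + ((m + 1) * N : ℕ) < Nat.card (VarG m)) :
    (∃ s : Finset (Rel (Fin m)), code s = N) ∨ c (idx m q N) (cubG k m) = 0 := by
  by_cases hs : ∃ s : Finset (Rel (Fin m)), code s = N
  · exact Or.inl hs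
  refine Or.inr ?_
  push Not at hs
  have h1 : idx m q N = (q + ((m + 1) * N : ℕ)) + (numEqn m - 1) := by
    rw [idx]
    push_cast
    ring
  rw [h1, h.zero_cub m hN, neg_eq_zero]
  have h2 := h.part_zero (k := k) (q + ((m + 1) * N : ℕ)) ∅ (∅ : Finset (Rel (Fin m)))
    (fun t _ => h.comp_zero t N (hs t) hq0 hqm)
  rwa [Pt, part_empty] at h2

end

section main

variable {k : Type} [Field k] {Γ : Type w} [AddCommGroup Γ] {c : ℤ → Sch k → Γ}

/-- **Affine schemes.** For every algebra `B` of finite type over the prime field and all large `m` there is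
a number `N` such that `c (q + (m + 1) N + E_m - 1) (G_m = 1) = - c q (Spec B)` for `0 ≤ q ≤ m`. -/
theorem euler_affine (hk : IsPrimeField k) (h : IsEuler c) (B : Type) [CommRing B] [Algebra k B]
    [Algebra.FiniteType k B] : ∃ m₀ : ℕ, ∀ m, m₀ ≤ m → ∃ N : ℕ, ∀ q : ℤ, 0 ≤ q → q ≤ m →
      c (idx m q N) (cubG k m) = - c q (aff k B) := by
  classical
  obtain ⟨m₀, hm⟩ := exists_fin (B := B) hk
  refine ⟨max m₀ 1, fun m hm1 => ?_⟩
  obtain ⟨b, hb, hp⟩ := hm m ((le_max_left _ _).trans hm1)
  let s : Finset (Rel (Fin m)) := Finset.univ.filter (· ∈ holds k b)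
  refine ⟨code s, fun q hq0 hqm => ?_⟩
  have h1 : Ideal.span (relPoly k '' (s : Set (Rel (Fin m)))) =
      RingHom.ker (aeval b : MvPolynomial (Fin m) k →ₐ[k] B) := by
    have h2 : (s : Set (Rel (Fin m))) = holds k b := by
      ext r
      simp [s]
    rw [h2]
    exact le_antisymm (fun f hf => span_le_of_holds b hf) fun f hf => hp f hf
  let e : Sys k s ≃ₐ[k] B := (Ideal.quotientEquivAlgOfEq k h1).trans
    (Ideal.quotientKerAlgEquivOfSurjective hb)
  rw [h.dict ((le_max_right _ _).trans hm1) s hq0 hqm, h.iso_alg e q]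

/-- **Smooth projective schemes.** For every smooth projective scheme `Y` over the prime field, every `d`
and all large `m` there is a number `e` such that `c (q + e) (G_m = 1) = - c q Y` for `0 ≤ q ≤ d`. -/
theorem euler_proj (hk : IsPrimeField k) (h : IsEuler c) (Y : Sch k) (hY : SmoothProj Y)
    (d : ℕ) : ∃ m₀ : ℕ, ∀ m, m₀ ≤ m → ∃ e : ℕ, ∀ q : ℤ, 0 ≤ q → q ≤ d →
      c (q + e) (cubG k m) = - c q Y := by
  obtain ⟨B, _, _, _, r, hr⟩ := h.device Y hY
  obtain ⟨m₀, hm⟩ := euler_affine hk h B
  refine ⟨max m₀ (max 1 (d + r)), fun m hm1 => ?_⟩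
  obtain ⟨N, hN⟩ := hm m ((le_max_left _ _).trans hm1)
  have hm2 : 1 ≤ m := ((le_max_left _ _).trans (le_max_right _ _)).trans hm1
  have hm3 : d + r ≤ m := ((le_max_right _ _).trans (le_max_right _ _)).trans hm1
  have hm4 : (d : ℤ) + r ≤ m := by exact_mod_cast hm3
  have he0 : ((r + (m + 1) * N + (numEqn m - 1) : ℕ) : ℤ) = r + esh m N := by
    rw [esh]
    have := numEqn_pos hm2
    push_cast [Nat.cast_sub this]
    ring
  refine ⟨r + (m + 1) * N + (numEqn m - 1), fun q hq0 hqd => ?_⟩
  have h1 := hN (q + r) (by positivity) (by linarith)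
  rw [idx_eq] at h1
  rw [he0, ← hr q, ← h1]
  congr 1
  ring

/-- The statements `φ (c q X) = 0` for a homomorphism `φ`. -/
def Kills {H : Type} [AddCommGroup H] (φ : Γ →+ H) (c : ℤ → Sch k → Γ) (q : ℤ) (X : Sch k) :
    Prop := φ (c q X) = 0

theorem decides_euler (hk : IsPrimeField k) (h : IsEuler c) {H : Type} [AddCommGroup H]
    (φ : Γ →+ H) (point : ∀ q, φ (c q (aff k k)) = 0) : Decides (Kills φ c) := by
  have h1 : ∀ (q : ℤ) (X : Sch k), Kills φ c q X ↔ c q X ∈ φ.ker := fun q X => Iff.rfl
  exact decides_gen hk (h.graduated φ.ker point) fun q g X hX => h.generated q φ.ker g X hX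

end main

end Pool.Agent.H367.OS
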