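import Pool.Agent.H367.OS.GObj

/-!
# The pieces of the cohomology of arbitrary schemes and of the hypersurfaces `G_m = 1`
-/

set_option autoImplicit false

open CategoryTheory CategoryTheory.Limits AlgebraicGeometry MvPolynomial Pool.Agent.Y116.UV
  Pool.Agent.Z125.UN Pool.Agent.Q193.LT Pool.Agent.H854.SQ

universe v u

namespace Pool.Agent.H367.OS

section factor

variable {A : Type u} [Category.{v} A]

/-- `M` is (isomorphic to) a direct factor of `N`. -/
def Factor (M N : A) : Prop := ∃ (i : M ⟶ N) (r : N ⟶ M), i ≫ r = 𝟙 M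

lemma Factor.refl (M : A) : Factor M M := ⟨𝟙 M, 𝟙 M, Category.id_comp _⟩

lemma Factor.of_iso {M N : A} (e : M ≅ N) : Factor M N := ⟨e.hom, e.inv, e.hom_inv_id⟩

lemma Factor.trans {M N P : A} (h : Factor M N) (h' : Factor N P) : Factor M P := by
  obtain ⟨i, r, e⟩ := h
  obtain ⟨j, s, e'⟩ := h'
  refine ⟨i ≫ j, s ≫ r, ?_⟩
  rw [Category.assoc, ← Category.assoc j, e', Category.id_comp, e]

lemma Factor.map {B : Type*} [Category B] (F : A ⥤ B) {M N : A} (h : Factor M N) :
    Factor (F.obj M) (F.obj N) := by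
  obtain ⟨i, r, e⟩ := h
  exact ⟨F.map i, F.map r, by rw [← F.map_comp, e, F.map_id]⟩

variable [Abelian A]

lemma Factor.biprod {M N M' N' : A} (h : Factor M N) (h' : Factor M' N') :
    Factor (M ⊞ M') (N ⊞ N') := by
  obtain ⟨i, r, e⟩ := h
  obtain ⟨j, s, e'⟩ := h'
  exact ⟨biprod.map i j, biprod.map r s, by
    apply biprod.hom_ext' <;> simp [reassoc_of% e, reassoc_of% e']⟩

lemma Factor.inl (M N : A) : Factor M (M ⊞ N) := ⟨biprod.inl, biprod.fst, biprod.inl_fst⟩

lemma Factor.inr (M N : A) : Factor N (M ⊞ N) := ⟨biprod.inr, biprod.snd, biprod.inr_snd⟩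

lemma Factor.zero {M : A} (h : IsZero M) (N : A) : Factor M N := ⟨0, 0, h.eq_of_src _ _⟩

/-- Every monomorphism of the category splits. -/
def Splits (A : Type u) [Category.{v} A] : Prop :=
  ∀ {X Y : A} (f : X ⟶ Y), Mono f → ∃ r : Y ⟶ X, f ≫ r = 𝟙 X

lemma Splits.epi (hs : Splits A) {X Y : A} (p : X ⟶ Y) (hp : Epi p) : Factor Y X := by
  obtain ⟨r, hr⟩ := hs (kernel.ι p) inferInstance
  let S : ShortComplex A := ShortComplex.mk (kernel.ι p) p (kernel.condition p)
  have hS : S.Exact := ShortComplex.exact_of_f_is_kernel S (kernelIsKernel p)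
  have hg : Epi S.g := hp
  let s : S.Splitting := ShortComplex.Splitting.ofExactOfRetraction S hS r hr hg
  exact ⟨s.s, p, s.s_g⟩

/-- In a category in which every monomorphism splits, the object in the middle of an exact sequence is a
direct factor of the sum of the two others. -/
lemma Splits.mid (hs : Splits A) {P Q R : A} (f : P ⟶ Q) (g : Q ⟶ R) (w : f ≫ g = 0)
    (hex : (ShortComplex.mk f g w).Exact) : Factor Q (P ⊞ R) := by
  have h1 : Factor (kernel g) P := hs.epi _ hex.epi_kernelLift
  obtain ⟨r, hr⟩ := hs (Abelian.image.ι g) inferInstance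
  have h2 : Factor (Abelian.image g) R := ⟨_, r, hr⟩
  obtain ⟨p, hp⟩ := hs (kernel.ι g) inferInstance
  have h0 : kernel.ι g ≫ Abelian.factorThruImage g = 0 := by
    rw [← cancel_mono (Abelian.image.ι g), Category.assoc, Abelian.image.fac, kernel.condition,
      zero_comp]
  let S : ShortComplex A := ShortComplex.mk (kernel.ι g) (Abelian.factorThruImage g) h0
  have hS : S.Exact := by
    apply ShortComplex.exact_of_f_is_kernel
    refine KernelFork.IsLimit.ofι' _ _ fun {W} t ht => ?_
    have h3 : t ≫ g = 0 := by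
      rw [← Abelian.image.fac g, ← Category.assoc]
      rw [show t ≫ Abelian.factorThruImage g = 0 from ht, zero_comp]
    exact ⟨kernel.lift g t h3, kernel.lift_ι _ _ _⟩
  have hg : Epi S.g := by
    change Epi (Abelian.factorThruImage g)
    infer_instance
  let s : S.Splitting := ShortComplex.Splitting.ofExactOfRetraction S hS p hp hg
  exact (Factor.of_iso s.isoBinaryBiproduct).trans (h1.biprod h2)

end factor

section schemes

variable {k : Type} [Field k]

/-- **All affine schemes.** For every algebra `B` of finite type over the prime field and all large `m`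
there is an `N` such that for `0 ≤ w ≤ 2 m + 1` the piece of weight `w + 2 e` of `H^{j+2e+1}_c` of the
hypersurface `G_m = 1` is the Tate twist by `-e` of the piece of weight `w` of `H^j_c(Spec B)`, for all
theories of cohomology with compact supports, where `e = (m + 1) N + E_m - 1`. -/
theorem pieces_affine (hk : IsPrimeField k) (B : Type) [CommRing B] [Algebra k B]
    [Algebra.FiniteType k B] : ∃ m₀ : ℕ, ∀ m, m₀ ≤ m → ∃ N : ℕ, ∀ (A : Type u) [Category.{v} A]
      [Abelian A] (D : Pieces k A), IsPieces D → ∀ w j : ℤ, 0 ≤ w → w ≤ 2 * m + 1 →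
        Nonempty (D.G (w + 2 * esh m N) (j + 2 * esh m N + 1) (cubG k m) ≅
          (D.tw (-esh m N)).obj (D.G w j (aff k B))) := by
  classical
  obtain ⟨m₀, hm⟩ := exists_fin (B := B) hk
  refine ⟨max m₀ 1, fun m hm1 => ?_⟩
  obtain ⟨b, hb, hp⟩ := hm m ((le_max_left _ _).trans hm1)
  let s : Finset (Rel (Fin m)) := Finset.univ.filter (· ∈ holds k b)
  refine ⟨code s, fun A _ _ D hD w j hw0 hw1 => ?_⟩
  have h1 : Ideal.span (relPoly k '' (s : Set (Rel (Fin m)))) =
      RingHom.ker (aeval b : MvPolynomial (Fin m) k →ₐ[k] B) := by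
    have h2 : (s : Set (Rel (Fin m))) = holds k b := by
      ext r
      simp [s]
    rw [h2]
    exact le_antisymm (fun f hf => span_le_of_holds b hf) fun f hf => hp f hf
  let e : Sys k s ≃ₐ[k] B := (Ideal.quotientEquivAlgOfEq k h1).trans
    (Ideal.quotientKerAlgEquivOfSurjective hb)
  obtain ⟨e1⟩ := hD.dict ((le_max_right _ _).trans hm1) s hw0 hw1 j
  obtain ⟨e2⟩ := hD.iso_alg e w j
  exact ⟨e1 ≪≫ (D.tw _).mapIso e2⟩

/-- The pieces of the cohomology of a disjoint union of affine schemes are the direct sums. -/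
def Disj {A : Type u} [Category.{v} A] [Abelian A] (D : Pieces k A) : Prop :=
  ∀ (B C : Type) [CommRing B] [CommRing C] [Algebra k B] [Algebra k C] [Algebra.FiniteType k B]
    [Algebra.FiniteType k C] (w j : ℤ),
    Nonempty (D.G w j (aff k (B × C)) ≅ D.G w j (aff k B) ⊞ D.G w j (aff k C))

/-- **All schemes.** For every separated scheme `X` of finite type there is an affine scheme of finite
type such that all pieces of `X` are direct factors of those of the affine scheme, for all theories
with values in categories in which monomorphisms split. -/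
theorem exists_affine_factor (X : Sch k) (hX : FT True X) :
    ∃ (B : Type) (_ : CommRing B) (_ : Algebra k B) (_ : Algebra.FiniteType k B),
      ∀ (A : Type u) [Category.{v} A] [Abelian A] (D : Pieces k A), IsPieces D → Disj D →
        Splits A → ∀ w j, Factor (D.G w j X) (D.G w j (aff k B)) := by
  refine of_affine' (sep := True) (P := fun X : Sch k =>
    ∃ (B : Type) (_ : CommRing B) (_ : Algebra k B) (_ : Algebra.FiniteType k B),
      ∀ (A : Type u) [Category.{v} A] [Abelian A] (D : Pieces k A), IsPieces D → Disj D →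
        Splits A → ∀ w j, Factor (D.G w j X) (D.G w j (aff k B))) ?_ ?_ (fun B _ _ _ => ?_) X hX
  · rintro X Y hX e ⟨B, _, _, hB, h⟩
    refine ⟨B, _, _, hB, fun A _ _ D hD hd hs w j => ?_⟩
    obtain ⟨e'⟩ := hD.iso hX e w j
    exact (Factor.of_iso e'.symm).trans (h A D hD hd hs w j)
  · rintro Z X U i j hX ht ⟨B, _, _, hB, h⟩ ⟨B', _, _, hB', h'⟩
    refine ⟨B × B', inferInstance, inferInstance, inferInstance, fun A _ _ D hD hd hs w n => ?_⟩
    obtain ⟨a, b, d, hab, hbd, hda, e1, e2, e3⟩ := hD.exact i j hX ht w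
    have h1 := hs.mid _ _ _ (e1 n)
    obtain ⟨e⟩ := hd B B' w n
    refine h1.trans (((h' A D hD hd hs w n).biprod (h A D hD hd hs w n)).trans ?_)
    exact (Factor.of_iso (biprod.braiding _ _)).trans (Factor.of_iso e.symm)
  · exact ⟨B, inferInstance, inferInstance, inferInstance, fun A _ _ D hD hd hs w j =>
      Factor.refl _⟩

/-- **All schemes.** For every separated scheme `X` of finite type over the prime field and all large
`m` there is an `N` such that the twists by `-e` of all pieces of `X` of weights `w ≤ 2 m + 1` are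
direct factors of the pieces of weight `w + 2 e` of `H^{j+2e+1}_c` of the hypersurface `G_m = 1`. -/
theorem pieces_factor (hk : IsPrimeField k) (X : Sch k) (hX : FT True X) :
    ∃ m₀ : ℕ, ∀ m, m₀ ≤ m → ∃ N : ℕ, ∀ (A : Type u) [Category.{v} A]
      [Abelian A] (D : Pieces k A), IsPieces D → Disj D → Splits A →
        ∀ w j : ℤ, 0 ≤ w → w ≤ 2 * m + 1 → Factor ((D.tw (-esh m N)).obj (D.G w j X))
          (D.G (w + 2 * esh m N) (j + 2 * esh m N + 1) (cubG k m)) := by
  obtain ⟨B, _, _, hB, h⟩ := exists_affine_factor.{v, u} X hX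
  obtain ⟨m₀, hm⟩ := pieces_affine.{v, u} hk B
  refine ⟨m₀, fun m hm1 => ?_⟩
  obtain ⟨N, hN⟩ := hm m hm1
  refine ⟨N, fun A _ _ D hD hd hs w j h0 h1 => ?_⟩
  obtain ⟨e⟩ := hN A D hD w j h0 h1
  exact ((h A D hD hd hs w j).map (D.tw _)).trans (Factor.of_iso e.symm)

end schemes

end Pool.Agent.H367.OS
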