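import Pool.Graph.R_seed8.Y116.UV.Main
import Pool.Agent.H854.SQ.Deg

/-!
# The sequence of cubic hypersurfaces `G_m = 1` over the integers
-/

set_option autoImplicit false

open CategoryTheory AlgebraicGeometry MvPolynomial Pool.Agent.Y116.UV Pool.Agent.H854.SQ

namespace Pool.Agent.H367.OS

/-- The ring `R[t, x, z, c] / (G_m - 1)`. -/
abbrev CubRing (R : Type) [CommRing R] (m : ℕ) : Type :=
  MvPolynomial (Eqn m ⊕ Var m) R ⧸ Ideal.span {univ R m - 1}

/-- The affine cubic hypersurface `G_m = 1` over `R`. -/
noncomputable def cub (R : Type) [CommRing R] (m : ℕ) : Sch R := aff R (CubRing R m)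

section

variable (R : Type) [CommRing R] (m : ℕ)

/-- The equations of the universal system, with numbers. -/
noncomputable def eqs (l : Fin (Fintype.card (Eqn m))) : MvPolynomial (Var m) R :=
  eqn R ((Fintype.equivFin (Eqn m)).symm l)

/-- Renumbering the variables. -/
noncomputable def ren : MvPolynomial (Eqn m ⊕ Var m) R ≃ₐ[R]
    MvPolynomial (Fin (Fintype.card (Eqn m))) (MvPolynomial (Var m) R) :=
  (renameEquiv R (Equiv.sumCongr (Fintype.equivFin (Eqn m)) (Equiv.refl (Var m)))).trans
    (sumAlgEquiv R (Fin (Fintype.card (Eqn m))) (Var m))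

lemma ren_X (e : Eqn m) : ren R m (X (Sum.inl e)) = X (Fintype.equivFin (Eqn m) e) := by
  rw [ren, AlgEquiv.trans_apply, renameEquiv_apply, rename_X]
  change sumAlgEquiv R _ _ (X (Sum.inl (Fintype.equivFin (Eqn m) e))) = _
  simp

lemma ren_inr (p : MvPolynomial (Var m) R) : ren R m (rename Sum.inr p) = C p := by
  have h : ((ren R m : MvPolynomial (Eqn m ⊕ Var m) R →ₐ[R] _).comp (rename Sum.inr) :
      MvPolynomial (Var m) R →ₐ[R] _) = IsScalarTower.toAlgHom R (MvPolynomial (Var m) R)
        (MvPolynomial (Fin (Fintype.card (Eqn m))) (MvPolynomial (Var m) R)) := by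
    apply MvPolynomial.algHom_ext
    intro v
    change ren R m (rename Sum.inr (X v)) = C (X v)
    rw [rename_X, ren, AlgEquiv.trans_apply, renameEquiv_apply, rename_X]
    change sumAlgEquiv R _ _ (X (Sum.inr v)) = _
    simp
  exact DFunLike.congr_fun h p

lemma ren_univ : ren R m (univ R m - 1) = ∑ l, C (eqs R m l) * X l - 1 := by
  rw [map_sub, map_one, univ, map_sum]
  congr 1
  refine Fintype.sum_equiv (Fintype.equivFin (Eqn m)) _ _ fun e => ?_
  rw [map_mul, ren_X, ren_inr, eqs, Equiv.symm_apply_apply, mul_comm]

/-- The hypersurface `G_m = 1` is the affine bundle of Jouanolou over the complement of the zero set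
`W_m` of the equations. -/
noncomputable def cubEquiv : CubRing R m ≃ₐ[R] Jou (eqs R m) :=
  Ideal.quotientEquivAlg _ _ (ren R m) (by
    rw [Ideal.map_span, Set.image_singleton]
    congr 2
    exact (ren_univ R m).symm)

lemma ideal_eq : Ideal.span (Set.range (eqs R m)) = ideal R m := by
  rw [ideal]
  congr 1
  ext p
  constructor
  · rintro ⟨l, rfl⟩
    exact ⟨_, rfl⟩
  · rintro ⟨e, rfl⟩
    exact ⟨Fintype.equivFin (Eqn m) e, by rw [eqs, Equiv.symm_apply_apply]⟩

end

section smooth

/-- The affine bundles of Jouanolou are smooth. -/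
theorem jou_smooth {A : Type} [CommRing A] {m : ℕ} (f : Fin m → A) : Algebra.Smooth A (Jou f) where
  formallySmooth := by
    apply Algebra.FormallySmooth.of_comp_surjective
    intro B _ _ I hI g
    have hsur : Function.Surjective (Ideal.Quotient.mkₐ A I) := Ideal.Quotient.mkₐ_surjective A I
    choose v hv using fun s => hsur (g (Ideal.Quotient.mk _ (X s)))
    have hev : ∀ v : Fin m → B, aeval v (∑ l, C (f l) * X l : MvPolynomial (Fin m) A) =
        ∑ l, algebraMap A B (f l) * v l := by
      intro v
      simp only [map_sum, map_mul, aeval_X, algHom_C]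
    have h1 : (Ideal.Quotient.mkₐ A I).comp (aeval v) =
        g.comp (Ideal.Quotient.mkₐ A (Ideal.span {∑ l, C (f l) * X l - 1})) := by
      apply MvPolynomial.algHom_ext
      intro s
      change Ideal.Quotient.mkₐ A I (aeval v (X s)) = _
      rw [aeval_X]
      exact hv s
    have h2 : Ideal.Quotient.mkₐ A I (aeval v (∑ l, C (f l) * X l : MvPolynomial (Fin m) A) - 1) =
        0 := by
      have h3 := congrArg (fun h : MvPolynomial (Fin m) A →ₐ[A] B ⧸ I =>
        h (∑ l, C (f l) * X l - 1)) h1
      change Ideal.Quotient.mkₐ A I (aeval v (∑ l, C (f l) * X l - 1)) =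
        g (Ideal.Quotient.mk _ (∑ l, C (f l) * X l - 1)) at h3
      have h3' : aeval v (∑ l, C (f l) * X l - 1 : MvPolynomial (Fin m) A) =
          aeval v (∑ l, C (f l) * X l : MvPolynomial (Fin m) A) - 1 := by
        rw [map_sub, map_one]
      rw [Ideal.Quotient.eq_zero_iff_mem.mpr (Ideal.mem_span_singleton_self _), map_zero,
        h3'] at h3
      exact h3
    let d : B := aeval v (∑ l, C (f l) * X l : MvPolynomial (Fin m) A) - 1
    have h4 : d ∈ I := Ideal.Quotient.eq_zero_iff_mem.mp h2
    have h5 : d * d = 0 := by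
      have : d * d ∈ I ^ 2 := by
        rw [pow_two]
        exact Ideal.mul_mem_mul h4 h4
      rw [hI] at this
      exact this
    let w : Fin m → B := fun i => (1 - d) * v i
    have h6 : aeval w (∑ l, C (f l) * X l : MvPolynomial (Fin m) A) = 1 := by
      have h7 : aeval w (∑ l, C (f l) * X l : MvPolynomial (Fin m) A) =
          (1 - d) * aeval v (∑ l, C (f l) * X l : MvPolynomial (Fin m) A) := by
        rw [hev, hev, Finset.mul_sum]
        apply Finset.sum_congr rfl
        intro i _
        change _ * ((1 - d) * v i) = _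
        ring
      have h8 : aeval v (∑ l, C (f l) * X l : MvPolynomial (Fin m) A) = 1 + d := by
        change _ = 1 + (aeval v (∑ l, C (f l) * X l : MvPolynomial (Fin m) A) - 1)
        ring
      rw [h7, h8]
      linear_combination -h5
    refine ⟨Ideal.Quotient.liftₐ _ (aeval w) ?_, ?_⟩
    · intro p hp
      have h9 : Ideal.span {∑ l, C (f l) * X l - 1} ≤
          RingHom.ker (aeval w : MvPolynomial (Fin m) A →ₐ[A] B) := by
        rw [Ideal.span_le, Set.singleton_subset_iff]
        change aeval w (∑ l, C (f l) * X l - 1) = 0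
        rw [map_sub, h6, map_one, sub_self]
      exact h9 hp
    · have hd : Ideal.Quotient.mkₐ A I d = 0 := h2
      apply Ideal.Quotient.algHom_ext
      apply MvPolynomial.algHom_ext
      intro i
      change Ideal.Quotient.mkₐ A I (aeval w (X i)) = g (Ideal.Quotient.mk _ (X i))
      rw [aeval_X]
      change Ideal.Quotient.mkₐ A I ((1 - d) * v i) = _
      rw [map_mul, map_sub, hd, map_one, sub_zero, one_mul]
      exact hv _
  finitePresentation :=
    Algebra.FinitePresentation.quotient ⟨{∑ l, C (f l) * X l - 1}, by rw [Finset.coe_singleton]⟩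

variable (R : Type) [CommRing R] (m : ℕ)

/-- The ring of the hypersurface `G_m = 1` is smooth over `R`, for every ring `R`. -/
theorem cub_smooth : Algebra.Smooth R (CubRing R m) := by
  have h1 : Algebra.Smooth (MvPolynomial (Var m) R) (Jou (eqs R m)) := jou_smooth _
  have h2 : Algebra.Smooth R (MvPolynomial (Var m) R) := ⟨inferInstance, inferInstance⟩
  have h3 : Algebra.Smooth R (Jou (eqs R m)) := Algebra.Smooth.comp R (MvPolynomial (Var m) R) _
  exact Algebra.Smooth.of_equiv (cubEquiv R m).symm

/-- The hypersurface `G_m = 1` is smooth. -/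
theorem smooth_cub : Smooth (cub R m).hom := by
  change Smooth (Spec.map (CommRingCat.ofHom (algebraMap R (CubRing R m))))
  rw [HasRingHomProperty.Spec_iff (P := @Smooth)]
  exact RingHom.smooth_algebraMap.mpr (cub_smooth R m)

instance : Algebra.FiniteType R (CubRing R m) := inferInstance

end smooth

/-- The closed point of view: `P` passes to open and closed subschemes. -/
def Clopen {R : Type} [CommRing R] (P : Sch R → Prop) : Prop :=
  ∀ {Z X U : Sch R} (i : Z ⟶ X) (j : U ⟶ X), FT True X → IsTriple i j →
    IsOpenImmersion i.left → P X → P Z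

section main

variable {k : Type} [Field k] {P : Sch k → Prop}

/-- From the hypersurface `G_m = 1` to the zero set of the equations. -/
theorem zero_set (hP : Uni True P) (m : ℕ) (h : P (cub k m)) : P (aff k (Quo k m)) := by
  have h1 : P (aff k (Jou (eqs k m))) := iso_alg hP (cubEquiv k m) h
  have h2 : P (aff k (MvPolynomial (Var m) k)) :=
    iso_alg hP (renameEquiv k (Fintype.equivFin (Var m)).symm) (hP.space _)
  have h3 := of_jou hP (eqs k m) h2 h1
  rw [ideal_eq] at h3
  exact h3

/-- From the zero set of the equations to the affine schemes. -/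
theorem of_zero_set (hc : Clopen P) {m : ℕ} (h : P (aff k (Quo k m))) {B : Type} [CommRing B]
    [Algebra k B] {b : Fin m → B}
    (hb : Function.Surjective (aeval b : MvPolynomial (Fin m) k →ₐ[k] B)) (hp : Pres k b) :
    P (aff k B) := by
  have hs : Function.Surjective (psi b : Quo k m →ₐ[k] B) := psi_surjective hb
  refine hc (affMap (psi b)) (affMap (IsScalarTower.toAlgHom k (Quo k m)
    (Localization.Away (1 - eps (k := k) b)))) (ft_aff True) ⟨closed_affMap _ hs, ?_, ?_⟩ ?_ h
  · exact (triple_away (R := k) (1 - eps (k := k) b)).opened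
  · rw [← (triple_away (R := k) (1 - eps (k := k) b)).compl, range_affMap _ hs,
      range_affMap _ (Ideal.Quotient.mkₐ_surjective k _)]
    ext x
    refine forall_congr' fun a => ?_
    have h1 : psi b a = 0 ↔ (Ideal.Quotient.mkₐ k (Ideal.span {1 - eps (k := k) b})) a = 0 := by
      rw [← RingHom.mem_ker, (ker_psi hp).2]
      exact Ideal.Quotient.eq_zero_iff_mem.symm
    exact imp_congr_left h1
  · exact (isOpenImmersion_SpecMap_iff_of_surjective _ hs).2 ⟨_, ker_psi hp⟩

/-- Affine schemes: the hypersurfaces `G_m = 1` for all large `m` are sufficient. -/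
theorem affine_single (hk : IsPrimeField k) (B : Type) [CommRing B] [Algebra k B]
    [Algebra.FiniteType k B] : ∃ m₀ : ℕ, ∀ m, m₀ ≤ m → ∀ P : Sch k → Prop, Uni True P → Clopen P →
      P (cub k m) → P (aff k B) := by
  obtain ⟨m₀, hm⟩ := exists_fin (B := B) hk
  refine ⟨m₀, fun m hm1 P hP hc h => ?_⟩
  obtain ⟨b, hb, hb'⟩ := hm m hm1
  exact of_zero_set hc (zero_set hP m h) hb hb'

/-- **One hypersurface is sufficient for a given scheme.** For every separated scheme `X` of finite type
over the prime field there is an `m₀` such that for all `m ≥ m₀` the following is true. If a property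
is closed under closed-open decompositions, under the affine bundles of Jouanolou and under passing to
open and closed subschemes, and is true for the affine spaces and for the hypersurface `G_m = 1`, then
it is true for `X`. -/
theorem single (hk : IsPrimeField k) (X : Sch k) (hX : FT True X) :
    ∃ m₀ : ℕ, ∀ m, m₀ ≤ m → ∀ P : Sch k → Prop, Uni True P → Clopen P → P (cub k m) → P X := by
  refine of_affine' (sep := True) (P := fun X => ∃ m₀ : ℕ, ∀ m, m₀ ≤ m → ∀ P : Sch k → Prop,
    Uni True P → Clopen P → P (cub k m) → P X) ?_ ?_ (fun B _ _ _ => affine_single hk B) X hX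
  · rintro X Y hX e ⟨m₀, h⟩
    exact ⟨m₀, fun m hm P hP hc h1 => hP.iso hX e (h m hm P hP hc h1)⟩
  · rintro Z X U i j hX ht ⟨m₀, h⟩ ⟨m₁, h'⟩
    exact ⟨max m₀ m₁, fun m hm P hP hc h1 => hP.total i j hX ht
      (h m ((le_max_left _ _).trans hm) P hP hc h1) (h' m ((le_max_right _ _).trans hm) P hP hc h1)⟩

/-- **The sequence decides.** A property that is closed under closed-open decompositions, under the
affine bundles of Jouanolou and under passing to open and closed subschemes, and which is true for the
affine spaces and for infinitely many of the hypersurfaces `G_m = 1`, is true for all separated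
schemes of finite type over the prime field. -/
theorem sequence (hk : IsPrimeField k) (hP : Uni True P) (hc : Clopen P)
    (h : ∃ᶠ m in Filter.atTop, P (cub k m)) (X : Sch k) (hX : FT True X) : P X := by
  obtain ⟨m₀, hm⟩ := single hk X hX
  obtain ⟨m, hm1, hm2⟩ := (Filter.frequently_atTop.1 h) m₀
  exact hm m hm1 P hP hc hm2

end main

/-- The rational numbers are a prime field. -/
theorem isPrimeField_rat : IsPrimeField ℚ := fun x =>
  ⟨x.num, x.den, by exact_mod_cast x.den_ne_zero, by exact_mod_cast (Rat.num_div_den x).symm⟩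

/-- The field with `p` elements is a prime field. -/
theorem isPrimeField_zmod (p : ℕ) [Fact p.Prime] : IsPrimeField (ZMod p) := fun x => by
  obtain ⟨a, rfl⟩ := ZMod.intCast_surjective x
  exact ⟨a, 1, by simp, by simp⟩

/-- `G_m` is a polynomial with integral coefficients of degree at most three, and the hypersurface
`G_m = 1` is smooth over all rings. -/
theorem cub_facts (m : ℕ) : (univ ℤ m).totalDegree ≤ 3 ∧
    ∀ (R : Type) [CommRing R], MvPolynomial.map (Int.castRingHom R) (univ ℤ m) = univ R m ∧
      Smooth (cub R m).hom :=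
  ⟨totalDegree_univ ℤ m, fun R _ => ⟨map_univ _ m, smooth_cub R m⟩⟩

end Pool.Agent.H367.OS
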