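import Pool.Agent.H367.OS.GObj

/-!
# The dictionary for the full (mixed) cohomology with compact supports

The components of the zero set are separated by the degrees of the cohomology with compact supports.
-/

set_option autoImplicit false

open CategoryTheory CategoryTheory.Limits AlgebraicGeometry MvPolynomial Pool.Agent.Y116.UV
  Pool.Agent.Z125.UN Pool.Agent.Q193.LT Pool.Agent.H854.SQ

universe v u

namespace Pool.Agent.H367.OS

/-- The standard properties of a theory of cohomology with compact supports `D.H j X = H^j_c(X)` with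
values in an abelian category (mixed Hodge structures, Galois representations, mixed motives):

* `exact`: the long exact sequences `⋯ → H^j_c(U) → H^j_c(X) → H^j_c(Z) → H^{j+1}_c(U) → ⋯` for a closed
  subscheme `Z` of `X` with the complement `U`;
* `bundle`: for the affine bundle `Spec B[w_1, …, w_m] / (∑ f_l w_l - 1) → U` with fibre `𝔸^{m-1}`,
  where `U` is the complement of `f = 0` in `Spec B`, the cohomology of the total space is
  `H^{j-2(m-1)}_c(U)(-(m-1))`;
* `space`: `H^j_c(𝔸^n)` is zero for `j ≠ 2n`;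
* `low`, `high`: `H^j_c(X)` is zero for `j < 0` and for `j > 2 dim X`. -/
structure IsCoh {k : Type} [Field k] {A : Type u} [Category.{v} A] [Abelian A]
    (D : CompactData k A) : Prop where
  twAdditive : ∀ a, (D.tw a).Additive
  twZero : Nonempty (D.tw 0 ≅ 𝟭 A)
  twAdd : ∀ a b, Nonempty (D.tw a ⋙ D.tw b ≅ D.tw (a + b))
  iso : ∀ {X Y : Sch k}, FT True X → Nonempty (X ≅ Y) → ∀ j, Nonempty (D.H j X ≅ D.H j Y)
  exact : ∀ {Z X U : Sch k} (i : Z ⟶ X) (j : U ⟶ X), FT True X → IsTriple i j →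
    ∃ (a : ∀ n, D.H n U ⟶ D.H n X) (b : ∀ n, D.H n X ⟶ D.H n Z)
      (d : ∀ n, D.H n Z ⟶ D.H (n + 1) U) (hab : ∀ n, a n ≫ b n = 0)
      (hbd : ∀ n, b n ≫ d n = 0) (hda : ∀ n, d n ≫ a (n + 1) = 0),
      (∀ n, (ShortComplex.mk (a n) (b n) (hab n)).Exact) ∧
      (∀ n, (ShortComplex.mk (b n) (d n) (hbd n)).Exact) ∧
      (∀ n, (ShortComplex.mk (d n) (a (n + 1)) (hda n)).Exact)
  bundle : ∀ (B : Type) [CommRing B] [Algebra k B] [Algebra.FiniteType k B] (m : ℕ)
    (f : Fin m → B) (U : Sch k) (j : U ⟶ aff k B), IsOpenImmersion j.left →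
    Set.range j.left = {x : PrimeSpectrum B | ∃ l, f l ∉ x.asIdeal} →
    ∀ n, Nonempty (D.H n (aff k (Jou f)) ≅ (D.tw (1 - m)).obj (D.H (n + 2 * (1 - m)) U))
  space : ∀ (n : ℕ) (j : ℤ), j ≠ 2 * n → IsZero (D.H j (aff k (MvPolynomial (Fin n) k)))
  low : ∀ (B : Type) [CommRing B] [Algebra k B] [Algebra.FiniteType k B] (j : ℤ), j < 0 →
    IsZero (D.H j (aff k B))
  high : ∀ (B : Type) [CommRing B] [Algebra k B] [Algebra.FiniteType k B] (n : ℕ),
    ringKrullDim B ≤ n → ∀ j : ℤ, 2 * (n : ℤ) < j → IsZero (D.H j (aff k B))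

section basic

variable {k : Type} [Field k] {A : Type u} [Category.{v} A] [Abelian A] {D : CompactData k A}
  (hD : IsCoh D)

include hD

lemma IsCoh.tw_zero (a : ℤ) {M : A} (h : IsZero M) : IsZero ((D.tw a).obj M) := by
  have := hD.twAdditive a
  exact (D.tw a).map_isZero h

lemma IsCoh.tw_tw (a b : ℤ) (M : A) : Nonempty ((D.tw b).obj ((D.tw a).obj M) ≅
    (D.tw (a + b)).obj M) := by
  obtain ⟨e⟩ := hD.twAdd a b
  exact ⟨e.app M⟩

lemma IsCoh.tw_nil (M : A) : Nonempty ((D.tw 0).obj M ≅ M) := by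
  obtain ⟨e⟩ := hD.twZero
  exact ⟨e.app M⟩

lemma IsCoh.of_closed {Z X U : Sch k} (i : Z ⟶ X) (j : U ⟶ X) (hX : FT True X)
    (ht : IsTriple i j) (n : ℤ) (h0 : IsZero (D.H n Z)) (h1 : IsZero (D.H (n - 1) Z)) :
    Nonempty (D.H n U ≅ D.H n X) := by
  obtain ⟨a, b, d, hab, hbd, hda, e1, e2, e3⟩ := hD.exact i j hX ht
  have h3 : Epi (a n) := (ShortComplex.exact_iff_epi _ (h0.eq_zero_of_tgt _)).mp (e1 n)
  have h2 : Mono (a (n - 1 + 1)) :=
    (ShortComplex.exact_iff_mono _ (h1.eq_zero_of_src _)).mp (e3 (n - 1))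
  rw [sub_add_cancel] at h2
  have h3 : IsIso (a n) := isIso_of_mono_of_epi _
  exact ⟨asIso (a n)⟩

lemma IsCoh.of_open {Z X U : Sch k} (i : Z ⟶ X) (j : U ⟶ X) (hX : FT True X)
    (ht : IsTriple i j) (n : ℤ) (h0 : IsZero (D.H n U)) (h1 : IsZero (D.H (n + 1) U)) :
    Nonempty (D.H n X ≅ D.H n Z) := by
  obtain ⟨a, b, d, hab, hbd, hda, e1, e2, e3⟩ := hD.exact i j hX ht
  have h3 : Mono (b n) := (ShortComplex.exact_iff_mono _ (h0.eq_zero_of_src _)).mp (e1 n)
  have h2 : Epi (b n) := (ShortComplex.exact_iff_epi _ (h1.eq_zero_of_tgt _)).mp (e2 n)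
  have h3 : IsIso (b n) := isIso_of_mono_of_epi _
  exact ⟨asIso (b n)⟩

lemma IsCoh.of_total {Z X U : Sch k} (i : Z ⟶ X) (j : U ⟶ X) (hX : FT True X)
    (ht : IsTriple i j) (n : ℤ) (h1 : IsZero (D.H n X)) (h2 : IsZero (D.H (n + 1) X)) :
    Nonempty (D.H n Z ≅ D.H (n + 1) U) := by
  obtain ⟨a, b, d, hab, hbd, hda, e1, e2, e3⟩ := hD.exact i j hX ht
  have h1 : Mono (d n) := (ShortComplex.exact_iff_mono _ (h1.eq_zero_of_src _)).mp (e2 n)
  have h2 : Epi (d n) := (ShortComplex.exact_iff_epi _ (h2.eq_zero_of_tgt _)).mp (e3 n)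
  have h3 : IsIso (d n) := isIso_of_mono_of_epi _
  exact ⟨asIso (d n)⟩

lemma IsCoh.zero_total {Z X U : Sch k} (i : Z ⟶ X) (j : U ⟶ X) (hX : FT True X)
    (ht : IsTriple i j) (n : ℤ) (hZ : IsZero (D.H n Z)) (hU : IsZero (D.H n U)) :
    IsZero (D.H n X) := by
  obtain ⟨a, b, d, hab, hbd, hda, e1, e2, e3⟩ := hD.exact i j hX ht
  have h3 : Mono (b n) := (ShortComplex.exact_iff_mono _ (hU.eq_zero_of_src _)).mp (e1 n)
  exact IsZero.of_mono (b n) hZ

lemma IsCoh.iso_alg {B C : Type} [CommRing B] [CommRing C] [Algebra k B] [Algebra k C]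
    [Algebra.FiniteType k B] (e : B ≃ₐ[k] C) (j : ℤ) :
    Nonempty (D.H j (aff k B) ≅ D.H j (aff k C)) :=
  hD.iso (ft_aff True) ⟨(affIso e).symm⟩ j

/-- Products with affine spaces. -/
lemma IsCoh.poly_fin (B : Type) [CommRing B] [Algebra k B] [Algebra.FiniteType k B] (n : ℕ)
    (j : ℤ) : Nonempty (D.H j (aff k (MvPolynomial (Fin n) B)) ≅
      (D.tw (-n)).obj (D.H (j - 2 * n) (aff k B))) := by
  have h1 : IsOpenImmersion (𝟙 (aff k B) : aff k B ⟶ aff k B).left :=
    inferInstanceAs (IsOpenImmersion (𝟙 (aff k B).left))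
  have h2 : Set.range (𝟙 (aff k B) : aff k B ⟶ aff k B).left =
      {x : PrimeSpectrum B | ∃ l, f1 B n l ∉ x.asIdeal} := by
    have h1 : Set.range (𝟙 (aff k B) : aff k B ⟶ aff k B).left = Set.univ := Set.range_id
    have h2 : {x : PrimeSpectrum B | ∃ l, f1 B n l ∉ x.asIdeal} = Set.univ := by
      rw [Set.eq_univ_iff_forall]
      intro x
      exact ⟨0, fun h => x.isPrime.ne_top ((Ideal.eq_top_iff_one _).mpr h)⟩
    exact h1.trans h2.symm
  obtain ⟨e⟩ := hD.bundle B (n + 1) (f1 B n) (aff k B) (𝟙 _) h1 h2 j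
  have h4 : (1 : ℤ) - ((n + 1 : ℕ) : ℤ) = -n := by push_cast; ring
  have h6 : j + 2 * (-(n : ℤ)) = j - 2 * n := by ring
  rw [h4, h6] at e
  have : Algebra.FiniteType k (Jou (f1 B n)) :=
    Algebra.FiniteType.trans (S := B) inferInstance inferInstance
  obtain ⟨e'⟩ := hD.iso_alg ((jouOne B n).restrictScalars k) j
  exact ⟨e'.symm ≪≫ e⟩

lemma IsCoh.poly (B : Type) [CommRing B] [Algebra k B] [Algebra.FiniteType k B] (τ : Type)
    [Finite τ] (j : ℤ) : Nonempty (D.H j (aff k (MvPolynomial τ B)) ≅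
      (D.tw (-Nat.card τ)).obj (D.H (j - 2 * Nat.card τ) (aff k B))) := by
  have := Fintype.ofFinite τ
  have : Algebra.FiniteType k (MvPolynomial τ B) :=
    Algebra.FiniteType.trans (S := B) inferInstance inferInstance
  obtain ⟨e⟩ := hD.iso_alg ((renameEquiv B (Fintype.equivFin τ)).restrictScalars k) j
  obtain ⟨e'⟩ := hD.poly_fin B (Fintype.card τ) j
  rw [Nat.card_eq_fintype_card]
  exact ⟨e ≪≫ e'⟩

/-- The affine spaces. -/
lemma IsCoh.space' (τ : Type) [Finite τ] (j : ℤ) (h : j ≠ 2 * Nat.card τ) :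
    IsZero (D.H j (aff k (MvPolynomial τ k))) := by
  have := Fintype.ofFinite τ
  obtain ⟨e⟩ := hD.iso_alg (renameEquiv k (Fintype.equivFin τ)) j
  rw [Nat.card_eq_fintype_card] at h
  exact (hD.space _ j h).of_iso e

end basic

section comp

variable {k : Type} [Field k] {A : Type u} [Category.{v} A] [Abelian A] {D : CompactData k A}
  (hD : IsCoh D) {n : ℕ}

include hD

/-- The components. -/
lemma IsCoh.comp (t : Finset (Rel (Fin n))) (j : ℤ) :
    Nonempty (D.H j (Pt k Finset.univ t) ≅ (D.tw (-((n + 1) * code t : ℕ))).obj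
      (D.H (j - 2 * ((n + 1) * code t : ℕ)) (aff k (Sys k t)))) := by
  have : Algebra.FiniteType k (MvPolynomial (ExtIn t) (Sys k t)) :=
    Algebra.FiniteType.trans (S := Sys k t) inferInstance inferInstance
  rw [← card_extIn]
  obtain ⟨e⟩ := hD.poly (Sys k t) (ExtIn t) j
  obtain ⟨e'⟩ := hD.iso_alg (B := MvPolynomial (VarG n) k ⧸ part k Finset.univ t)
    (C := MvPolynomial (ExtIn t) (Sys k t)) (compE t) j
  exact ⟨e' ≪≫ e⟩

/-- The components with another code do not contribute to the degrees `j + 2 (n + 1) N`,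
`-1 ≤ j ≤ 2 n + 1`. -/
lemma IsCoh.comp_zero (t : Finset (Rel (Fin n))) (N : ℕ) (ht : code t ≠ N) {j : ℤ}
    (h0 : -1 ≤ j) (h1 : j ≤ 2 * n + 1) :
    IsZero (D.H (j + 2 * ((n + 1) * N : ℕ)) (Pt k Finset.univ t)) := by
  obtain ⟨e⟩ := hD.comp t (j + 2 * ((n + 1) * N : ℕ))
  refine IsZero.of_iso (hD.tw_zero _ ?_) e
  rcases lt_or_gt_of_ne ht with hlt | hgt
  · refine hD.high _ n (krull_sys k t) _ ?_
    have h1 : ((code t : ℤ) + 1) ≤ N := by exact_mod_cast hlt
    have h2 : ((n : ℤ) + 1) * ((code t : ℤ) + 1) ≤ (n + 1) * N :=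
      mul_le_mul_of_nonneg_left h1 (by positivity)
    push_cast
    linarith
  · refine hD.low _ _ ?_
    have h1 : ((N : ℤ) + 1) ≤ code t := by exact_mod_cast hgt
    have h2 : ((n : ℤ) + 1) * ((N : ℤ) + 1) ≤ (n + 1) * code t :=
      mul_le_mul_of_nonneg_left h1 (by positivity)
    push_cast
    linarith

/-- If all components of a part have no cohomology in the degree `j`, the part has none. -/
lemma IsCoh.part_zero (j : ℤ) (F s : Finset (Rel (Fin n)))
    (h : ∀ t : Finset (Rel (Fin n)), (∀ r ∈ F, (r ∈ t ↔ r ∈ s)) →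
      IsZero (D.H j (Pt k Finset.univ t))) : IsZero (D.H j (Pt k F s)) := by
  classical
  induction hN : (Finset.univ \ F).card generalizing F s with
  | zero =>
    rw [Finset.card_eq_zero, Finset.sdiff_eq_empty_iff_subset, Finset.univ_subset_iff] at hN
    subst hN
    exact h s fun _ _ => Iff.rfl
  | succ N ih =>
    obtain ⟨r, hr⟩ : (Finset.univ \ F).Nonempty := by
      rw [← Finset.card_pos]
      omega
    have hrF : r ∉ F := (Finset.mem_sdiff.1 hr).2
    have hc : (Finset.univ \ insert r F).card = N := by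
      rw [Finset.sdiff_insert, Finset.card_erase_of_mem hr, hN, Nat.add_sub_cancel]
    obtain ⟨i, j', ht⟩ := triple_part (k := k) F s hrF
    refine hD.zero_total i j' (ft_aff True) ht j (ih _ _ (fun t ht => h t fun u hu => ?_) hc)
      (ih _ _ (fun t ht => h t fun u hu => ?_) hc)
    · have hur : u ≠ r := fun h => hrF (h ▸ hu)
      rw [ht u (Finset.mem_insert_of_mem hu), Finset.mem_erase, and_iff_right hur]
    · have hur : u ≠ r := fun h => hrF (h ▸ hu)
      rw [ht u (Finset.mem_insert_of_mem hu), Finset.mem_insert, or_iff_right hur]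

/-- If only one component has cohomology in the degrees `j - 1`, `j`, `j + 1`. -/
lemma IsCoh.one_comp (s : Finset (Rel (Fin n))) (j : ℤ)
    (h0 : ∀ t : Finset (Rel (Fin n)), t ≠ s → IsZero (D.H j (Pt k Finset.univ t)))
    (h1 : ∀ t : Finset (Rel (Fin n)), t ≠ s → IsZero (D.H (j - 1) (Pt k Finset.univ t)))
    (h2 : ∀ t : Finset (Rel (Fin n)), t ≠ s → IsZero (D.H (j + 1) (Pt k Finset.univ t))) :
    Nonempty (D.H j (aff k (MvPolynomial (VarG n) k ⧸ idealG k n)) ≅
      D.H j (Pt k Finset.univ s)) := by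
  classical
  have key : ∀ F : Finset (Rel (Fin n)),
      Nonempty (D.H j (aff k (MvPolynomial (VarG n) k ⧸ idealG k n)) ≅ D.H j (Pt k F s)) := by
    intro F
    induction F using Finset.induction_on with
    | empty =>
      rw [Pt, part_empty]
      exact ⟨Iso.refl _⟩
    | insert r F hr ih =>
      obtain ⟨e⟩ := ih
      obtain ⟨i, j', ht⟩ := triple_part (k := k) F s hr
      by_cases hs : r ∈ s
      · have hne : ∀ t : Finset (Rel (Fin n)), (∀ u ∈ insert r F, (u ∈ t ↔ u ∈ s.erase r)) →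
            t ≠ s := fun t ht hts =>
          Finset.notMem_erase r s ((ht r (Finset.mem_insert_self r F)).1 (hts ▸ hs))
        obtain ⟨e'⟩ := hD.of_closed i j' (ft_aff True) ht j
          (hD.part_zero j _ _ fun t ht => h0 t (hne t ht))
          (hD.part_zero (j - 1) _ _ fun t ht => h1 t (hne t ht))
        rw [Finset.insert_eq_of_mem hs] at e'
        exact ⟨e ≪≫ e'.symm⟩
      · have hne : ∀ t : Finset (Rel (Fin n)), (∀ u ∈ insert r F, (u ∈ t ↔ u ∈ insert r s)) →
            t ≠ s := fun t ht hts =>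
          hs (hts ▸ (ht r (Finset.mem_insert_self r F)).2 (Finset.mem_insert_self r s))
        obtain ⟨e'⟩ := hD.of_open i j' (ft_aff True) ht j
          (hD.part_zero j _ _ fun t ht => h0 t (hne t ht))
          (hD.part_zero (j + 1) _ _ fun t ht => h2 t (hne t ht))
        rw [Finset.erase_eq_of_notMem hs] at e'
        exact ⟨e ≪≫ e'⟩
  exact key _

end comp

section cub

variable {k : Type} [Field k] {A : Type u} [Category.{v} A] [Abelian A] {D : CompactData k A}
  (hD : IsCoh D)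

include hD

/-- From the complement of the zero set to the hypersurface. -/
lemma IsCoh.opn_cub (m : ℕ) (j : ℤ) :
    Nonempty (D.H (j + 2 * (numEqn m - 1)) (cubG k m) ≅
      (D.tw (-(numEqn m - 1))).obj (D.H j
        (opn (aff k (MvPolynomial (VarG m) k)) (neOpen k (eqsG k m))))) := by
  obtain ⟨e⟩ := hD.bundle (MvPolynomial (VarG m) k) _ (eqsG k m)
    (opn (aff k (MvPolynomial (VarG m) k)) (neOpen k (eqsG k m)))
    (opnMap (aff k (MvPolynomial (VarG m) k)) (neOpen k (eqsG k m)))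
    inferInstance (range_opnMap _ _) (j + 2 * (numEqn m - 1))
  have h1 : (1 : ℤ) - (Fintype.card (EqnG m) : ℕ) = -((numEqn m : ℤ) - 1) := by
    rw [numEqn]
    ring
  have h2 : ∀ x : ℤ, x + 2 * ((numEqn m : ℤ) - 1) + 2 * (-((numEqn m : ℤ) - 1)) = x :=
    fun x => by ring
  rw [h1, h2] at e
  obtain ⟨e'⟩ := hD.iso_alg (cubEquivG k m) (j + 2 * (numEqn m - 1))
  exact ⟨e' ≪≫ e⟩

/-- From the zero set to the hypersurface. -/
lemma IsCoh.zero_cub (m : ℕ) (j : ℤ) (h0 : j ≠ 2 * Nat.card (VarG m))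
    (h1 : j + 1 ≠ 2 * Nat.card (VarG m)) :
    Nonempty (D.H (j + 1 + 2 * (numEqn m - 1)) (cubG k m) ≅
      (D.tw (-(numEqn m - 1))).obj (D.H j
        (aff k (MvPolynomial (VarG m) k ⧸ idealG k m)))) := by
  obtain ⟨e⟩ := hD.opn_cub m (j + 1)
  obtain ⟨i, j', ht⟩ := triple_zero k m
  obtain ⟨e'⟩ := hD.of_total i j' (ft_aff True) ht j (hD.space' (VarG m) j h0)
    (hD.space' (VarG m) (j + 1) h1)
  exact ⟨e ≪≫ (D.tw _).mapIso e'.symm⟩

/-- **The dictionary for the full cohomology.** `H^{j+2e+1}_c` of the hypersurface `G_m = 1` is the Tate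
twist by `-e` of `H^j_c` of the scheme `X_s` defined by the relations in `s`, for
`e = (m + 1) N(s) + E_m - 1` and `0 ≤ j ≤ 2 m`. -/
theorem IsCoh.dict {m : ℕ} (hm : 1 ≤ m) (s : Finset (Rel (Fin m))) {j : ℤ} (h0 : 0 ≤ j)
    (h1 : j ≤ 2 * m) :
    Nonempty (D.H (j + 2 * esh m (code s) + 1) (cubG k m) ≅
      (D.tw (-esh m (code s))).obj (D.H j (aff k (Sys k s)))) := by
  have hc := card_varG hm s
  have hc' : ((m : ℤ) + 1) * code s + (m + 1) ≤ Nat.card (VarG m) := by exact_mod_cast hc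
  obtain ⟨e⟩ := hD.zero_cub m (j + 2 * ((m + 1) * code s : ℕ))
    (fun h => by push_cast at h; linarith) (fun h => by push_cast at h; linarith)
  obtain ⟨e1⟩ := hD.one_comp s (j + 2 * ((m + 1) * code s : ℕ))
    (fun t ht => hD.comp_zero t (code s) (code_injective.ne ht) (by linarith) (by linarith))
    (fun t ht => by
      have h2 := hD.comp_zero (k := k) t (code s) (code_injective.ne ht) (j := j - 1)
        (by linarith) (by linarith)
      have h3 : j - 1 + 2 * (((m + 1) * code s : ℕ) : ℤ) =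
        j + 2 * (((m + 1) * code s : ℕ) : ℤ) - 1 := by ring
      rwa [h3] at h2)
    (fun t ht => by
      have h2 := hD.comp_zero (k := k) t (code s) (code_injective.ne ht) (j := j + 1)
        (by linarith) (by linarith)
      have h3 : j + 1 + 2 * (((m + 1) * code s : ℕ) : ℤ) =
        j + 2 * (((m + 1) * code s : ℕ) : ℤ) + 1 := by ring
      rwa [h3] at h2)
  obtain ⟨e2⟩ := hD.comp s (j + 2 * ((m + 1) * code s : ℕ))
  rw [add_sub_cancel_right] at e2
  obtain ⟨e3⟩ := hD.tw_tw (-((m + 1) * code s : ℕ)) (-((numEqn m : ℤ) - 1))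
    (D.H j (aff k (Sys k s)))
  have h2 : -(((m + 1) * code s : ℕ) : ℤ) + -((numEqn m : ℤ) - 1) = -esh m (code s) := by
    rw [esh]
    push_cast
    ring
  have h4 : j + 2 * (((m + 1) * code s : ℕ) : ℤ) + 1 + 2 * ((numEqn m : ℤ) - 1) =
      j + 2 * esh m (code s) + 1 := by
    rw [esh]
    push_cast
    ring
  rw [h2] at e3
  rw [h4] at e
  exact ⟨e ≪≫ (D.tw _).mapIso (e1 ≪≫ e2) ≪≫ e3⟩

/-- `H^{j+2e+1}_c`, `e = (m + 1) N + E_m - 1`, `0 ≤ j ≤ 2 m + 1`, of the hypersurface `G_m = 1` comes from a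
scheme `X_s` with the code `N`, or is zero, or is the cohomology in the highest degree. -/
theorem IsCoh.cases {m : ℕ} (N : ℕ) {j : ℤ} (h0 : 0 ≤ j) (h1 : j ≤ 2 * m + 1) :
    (∃ s : Finset (Rel (Fin m)), code s = N) ∨
      IsZero (D.H (j + 2 * esh m N + 1) (cubG k m)) ∨
      j + 2 * esh m N + 1 = 2 * (Nat.card (VarG m) + numEqn m - 1) := by
  by_cases hN : ∃ s : Finset (Rel (Fin m)), code s = N
  · exact Or.inl hN
  by_cases hj : j + 2 * ((m + 1) * N : ℕ) + 1 = 2 * Nat.card (VarG m)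
  · refine Or.inr (Or.inr ?_)
    rw [esh]
    push_cast at hj
    linarith
  refine Or.inr (Or.inl ?_)
  push Not at hN
  have hW : ∀ i : ℤ, -1 ≤ i → i ≤ 2 * m + 1 → IsZero (D.H (i + 2 * ((m + 1) * N : ℕ))
      (aff k (MvPolynomial (VarG m) k ⧸ idealG k m))) := by
    intro i hi0 hi1
    have h2 := hD.part_zero (k := k) (i + 2 * ((m + 1) * N : ℕ)) ∅ (∅ : Finset (Rel (Fin m)))
      (fun t _ => hD.comp_zero t N (hN t) hi0 hi1)
    rwa [Pt, part_empty] at h2
  obtain ⟨i, j', ht⟩ := triple_zero k m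
  obtain ⟨a, b, d, hab, hbd, hda, e1, e2, e3⟩ := hD.exact i j' (ft_aff True) ht
  have hz := hW j (by linarith) h1
  have hs : IsZero (D.H (j + 2 * ((m + 1) * N : ℕ) + 1) (aff k (MvPolynomial (VarG m) k))) :=
    hD.space' _ _ hj
  have hm1 : Mono (a (j + 2 * ((m + 1) * N : ℕ) + 1)) :=
    (ShortComplex.exact_iff_mono _ (hz.eq_zero_of_src _)).mp (e3 (j + 2 * ((m + 1) * N : ℕ)))
  have hU := IsZero.of_mono (a (j + 2 * ((m + 1) * N : ℕ) + 1)) hs
  obtain ⟨e⟩ := hD.opn_cub m (j + 2 * ((m + 1) * N : ℕ) + 1)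
  have h4 : j + 2 * (((m + 1) * N : ℕ) : ℤ) + 1 + 2 * ((numEqn m : ℤ) - 1) =
      j + 2 * esh m N + 1 := by
    rw [esh]
    push_cast
    ring
  rw [h4] at e
  exact (hD.tw_zero _ hU).of_iso e

end cub

section schemes

variable {k : Type} [Field k]

/-- **All affine schemes.** For every algebra `B` of finite type over the prime field and all large `m`
there is an `N` such that for `0 ≤ j ≤ 2 m` the cohomology `H^{j+2e+1}_c` of the hypersurface `G_m = 1`
is the Tate twist by `-e` of `H^j_c(Spec B)`, for all theories of cohomology with compact supports, where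
`e = (m + 1) N + E_m - 1`. -/
theorem coh_affine (hk : IsPrimeField k) (B : Type) [CommRing B] [Algebra k B]
    [Algebra.FiniteType k B] : ∃ m₀ : ℕ, ∀ m, m₀ ≤ m → ∃ N : ℕ, ∀ (A : Type u) [Category.{v} A]
      [Abelian A] (D : CompactData k A), IsCoh D → ∀ j : ℤ, 0 ≤ j → j ≤ 2 * m →
        Nonempty (D.H (j + 2 * esh m N + 1) (cubG k m) ≅
          (D.tw (-esh m N)).obj (D.H j (aff k B))) := by
  classical
  obtain ⟨m₀, hm⟩ := exists_fin (B := B) hk
  refine ⟨max m₀ 1, fun m hm1 => ?_⟩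
  obtain ⟨b, hb, hp⟩ := hm m ((le_max_left _ _).trans hm1)
  let s : Finset (Rel (Fin m)) := Finset.univ.filter (· ∈ holds k b)
  refine ⟨code s, fun A _ _ D hD j hj0 hj1 => ?_⟩
  have h1 : Ideal.span (relPoly k '' (s : Set (Rel (Fin m)))) =
      RingHom.ker (aeval b : MvPolynomial (Fin m) k →ₐ[k] B) := by
    have h2 : (s : Set (Rel (Fin m))) = holds k b := by
      ext r
      simp [s]
    rw [h2]
    exact le_antisymm (fun f hf => span_le_of_holds b hf) fun f hf => hp f hf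
  let e : Sys k s ≃ₐ[k] B := (Ideal.quotientEquivAlgOfEq k h1).trans
    (Ideal.quotientKerAlgEquivOfSurjective hb)
  obtain ⟨e1⟩ := hD.dict ((le_max_right _ _).trans hm1) s hj0 hj1
  obtain ⟨e2⟩ := hD.iso_alg e j
  exact ⟨e1 ≪≫ (D.tw _).mapIso e2⟩

end schemes

end Pool.Agent.H367.OS
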