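import Pool.Agent.H367.OS.Coh
import Pool.Graph.R_pool_sql_team_seeded_2aa45f1a.Q193.LT.Sums

/-!
# Tannakian subcategories, and one motive for each member of the sequence
-/

set_option autoImplicit false

open CategoryTheory CategoryTheory.Limits AlgebraicGeometry Pool.Agent.Y116.UV Pool.Agent.Z125.UN
  Pool.Agent.Q193.LT Pool.Agent.H854.SQ

open scoped ZeroObject

universe v u

namespace Pool.Agent.H367.OS

attribute [local instance] Abelian.hasFiniteBiproducts

section

variable {k : Type} [Field k] {A : Type u} [Category.{v} A] [Abelian A]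

/-- The Tate object `𝟙(1)`, where `𝟙 = H^0(Spec k)`. -/
noncomputable def tate (D : CompactData k A) : A := (D.tw 1).obj (D.H 0 (aff k k))

/-- The number of variables of the polynomial `G_m`. -/
def nvar (m : ℕ) : ℕ := Fintype.card (Eqn m ⊕ Var m)

/-- The motive `T_m = 𝟙(1) ⊕ ⨁_j H^j_c(C_m)` of the hypersurface `C_m : G_m = 1`, where
`0 ≤ j ≤ 2 n` and `n` is the number of variables. -/
noncomputable def total (D : CompactData k A) (m : ℕ) : A :=
  tate D ⊞ ⨁ fun j : Fin (2 * nvar m + 1) => D.H (j : ℤ) (cub k m)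

/-- `S N N'` says that `N` is an object of the Tannakian subcategory generated by `N'`; these are the
properties which are used: it contains `N'`, the zero objects and the unit object, it is closed under
direct sums and direct factors, and if it contains the Tate object `𝟙(1)`, it is closed under Tate
twists. -/
structure IsSpan (D : CompactData k A) (S : A → A → Prop) : Prop where
  refl : ∀ N, S N N
  zero : ∀ N N', IsZero N → S N N'
  unit : ∀ N', S (D.H 0 (aff k k)) N'
  sum : ∀ {N₁ N₂ N' : A}, S N₁ N' → S N₂ N' → S (N₁ ⊞ N₂) N'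
  factor : ∀ {X Y N' : A} (i : X ⟶ Y) (r : Y ⟶ X), i ≫ r = 𝟙 X → S Y N' → S X N'
  twist : ∀ {N N' : A}, S (tate D) N' → S N N' → ∀ a : ℤ, S ((D.tw a).obj N) N'

/-- The cohomology with compact supports of a scheme of dimension at most `d` vanishes in degrees less
than `0` and greater than `2 d`. -/
def Vanishing (D : CompactData k A) : Prop :=
  ∀ (X : Sch k), FT True X → ∀ d : ℕ, topologicalKrullDim X.left ≤ d → ∀ j : ℤ,
    (j < 0 ∨ 2 * d < j) → IsZero (D.H j X)

lemma dim_cub (m : ℕ) : topologicalKrullDim (cub k m).left ≤ (nvar m : ℕ) := by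
  have h1 : topologicalKrullDim (cub k m).left = ringKrullDim (CubRing k m) := topDim_aff _
  rw [h1]
  refine (ringKrullDim_quotient_le _).trans ?_
  rw [MvPolynomial.ringKrullDim_of_isNoetherianRing, ringKrullDim_eq_zero_of_field, zero_add,
    Nat.card_eq_fintype_card]
  rfl

variable {D : CompactData k A} {S : A → A → Prop}

lemma IsSpan.iso (hS : IsSpan D S) {X Y N' : A} (e : X ≅ Y) (h : S Y N') : S X N' :=
  hS.factor e.hom e.inv e.hom_inv_id h

lemma IsSpan.tate_total (hS : IsSpan D S) (m : ℕ) : S (tate D) (total D m) :=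
  hS.factor (biprod.inl) (biprod.fst) biprod.inl_fst (hS.refl _)

/-- The cohomology of `C_m` is in the Tannakian subcategory generated by `T_m`. -/
lemma IsSpan.cub_total (hS : IsSpan D S) (hv : Vanishing D) (m : ℕ) (j : ℤ) :
    S (D.H j (cub k m)) (total D m) := by
  by_cases h : j < 0 ∨ 2 * (nvar m : ℤ) < j
  · exact hS.zero _ _ (hv _ (ft_aff True) (nvar m) (dim_cub m) j h)
  · push Not at h
    obtain ⟨l, rfl⟩ := Int.eq_ofNat_of_zero_le h.1
    have hl : l < 2 * nvar m + 1 := by omega
    let F := fun j : Fin (2 * nvar m + 1) => D.H (j : ℤ) (cub k m)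
    have h2 : S (F ⟨l, hl⟩) (tate D ⊞ ⨁ F) := by
      refine hS.factor (Y := tate D ⊞ ⨁ F) (biproduct.ι F ⟨l, hl⟩ ≫ biprod.inr)
        (biprod.snd ≫ biproduct.π F ⟨l, hl⟩) ?_ (hS.refl _)
      rw [Category.assoc, ← Category.assoc biprod.inr, biprod.inr_snd, Category.id_comp,
        biproduct.ι_π_self]
    exact h2

lemma IsSpan.point (hS : IsSpan D S) (hv : Vanishing D) (N' : A) (j : ℤ) :
    S (D.H j (aff k k)) N' := by
  by_cases h : j = 0
  · subst h
    exact hS.unit N'
  · refine hS.zero _ _ (hv _ (ft_aff True) 0 ?_ j ?_)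
    · rw [topDim_aff, ringKrullDim_eq_zero_of_field]
      exact_mod_cast le_rfl
    · push_cast
      omega

/-- Direct factors of finite direct sums. -/
lemma IsSpan.of_sum (hS : IsSpan D S) {N N' : A} {J : Type} [Fintype J] (F : J → A)
    (i : ∀ j, N ⟶ F j) (r : ∀ j, F j ⟶ N) (hsum : ∑ j, i j ≫ r j = 𝟙 N)
    (h : ∀ j, S (F j) N') : S N N' := by
  classical
  have key : ∀ s : Finset J, ∃ (X : A) (a : N ⟶ X) (b : X ⟶ N), S X N' ∧
      a ≫ b = ∑ j ∈ s, i j ≫ r j := by
    intro s
    induction s using Finset.induction_on with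
    | empty => exact ⟨0, 0, 0, hS.zero _ _ (isZero_zero A), by simp⟩
    | insert j s hj ih =>
      obtain ⟨X, a, b, hX, hab⟩ := ih
      refine ⟨F j ⊞ X, biprod.lift (i j) a, biprod.desc (r j) b, hS.sum (h j) hX, ?_⟩
      rw [biprod.lift_desc, hab, Finset.sum_insert hj]
  obtain ⟨X, a, b, hX, hab⟩ := key Finset.univ
  exact hS.factor a b (hab.trans hsum) hX

/-- Finite direct sums. -/
lemma IsSpan.biproduct (hS : IsSpan D S) {N' : A} {J : Type} [Finite J] (F : J → A)
    (h : ∀ j, S (F j) N') : S (⨁ F) N' := by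
  have := Fintype.ofFinite J
  exact hS.of_sum F (fun j => biproduct.π F j) (fun j => biproduct.ι F j) biproduct.total h

/-- The objects generated by the cohomology of `C_m` are in the Tannakian subcategory generated by
`T_m`. -/
lemma IsSpan.of_factor (hS : IsSpan D S) (hv : Vanishing D) {m : ℕ} {N : A}
    (h : FactorOfSum D (FromCub D m) N) : S N (total D m) := by
  obtain ⟨J, _, M, a, i, r, hM, hsum⟩ := h
  refine hS.of_sum (fun j => (D.tw (a j)).obj (M j)) i r hsum fun j => ?_
  refine hS.twist (hS.tate_total m) ?_ (a j)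
  rcases hM j with ⟨l, hl⟩ | ⟨l, hl⟩
  · rw [hl]
    exact hS.cub_total hv m l
  · rw [hl]
    exact hS.point hv _ l

/-- `P` passes to the Tannakian subcategories. -/
def Inherits (S : A → A → Prop) (P : A → Prop) : Prop := ∀ N N' : A, S N N' → P N' → P N

variable {P : A → Prop} (hk : IsPrimeField k) (hD : IsCompact D) (hd : DisjointUnions D)
  (hss : ∀ {X Y : A} (f : X ⟶ Y), Mono f → ∃ r : Y ⟶ X, f ≫ r = 𝟙 X) (hv : Vanishing D)
  (hS : IsSpan D S)

include hk hD hd hss hv hS

/-- For a given finite direct sum of Tate twists of motives of schemes one motive `T_m` is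
sufficient. -/
theorem span_single {J : Type} [Finite J] (X : J → Sch k) (hX : ∀ j, FT True (X j))
    (n a : J → ℤ) : ∃ m₀ : ℕ, ∀ m, m₀ ≤ m →
      S (⨁ fun j => (D.tw (a j)).obj (D.H (n j) (X j))) (total D m) := by
  have := Fintype.ofFinite J
  choose m₀ h using fun j => factor_single hk hD hd hss (X j) (hX j)
  refine ⟨Finset.univ.sup m₀, fun m hm => ?_⟩
  refine hS.biproduct _ fun j => hS.twist (hS.tate_total m) ?_ (a j)
  exact hS.of_factor hv (h j m ((Finset.le_sup (Finset.mem_univ j)).trans hm) (n j))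

/-- Infinitely many of the motives `T_m` are sufficient. -/
theorem span_sequence (hP : Inherits S P) (h : ∃ᶠ m in Filter.atTop, P (total D m)) :
    SumsHave D (OfProjAll D) P := by
  intro J _ M a hM
  choose Y i hY hi using hM
  obtain ⟨m₀, hm⟩ := span_single hk hD hd hss hv hS Y (fun j => (hY j).ft) i a
  obtain ⟨m, hm1, hm2⟩ := (Filter.frequently_atTop.1 h) m₀
  have h1 : M = fun j => D.H (i j) (Y j) := funext hi
  subst h1
  exact hP _ _ (hm m hm1) hm2

omit hk hd hv

/-- The motives `T_m` are direct factors of finite direct sums of twists of motives of smooth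
projective schemes. -/
theorem total_of_proj [PerfectField k] (hg : Generated D) (hP : Inherits S P)
    (h : SumsHave D (OfProjAll D) P) (m : ℕ) : P (total D m) := by
  have hf : ∀ X : Sch k, FT True X → ∀ i, FactorOfSum D (OfProjAll D) (D.H i X) := by
    have h1 : ∀ Y : Sch k, SmoothProj Y → ∀ i, FactorOfSum D (OfProjAll D) (D.H i Y) :=
      fun Y hY i => FactorOfSum.self hD ⟨Y, i, hY, rfl⟩
    have h0 := point_factor hD hg hss 0 fun Y hY _ => h1 Y hY
    have hS' : IsTateSerre D (FactorOfSum D (OfProjAll D)) := gen_serre hD hss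
    exact (all_iff (bnd_compact hD hS' h0)).mpr ((proj_all_iff hD hg hS' h0).mp h1)
  have hS' : IsTateSerre D (FactorOfSum D (OfProjAll D)) := gen_serre hD hss
  have h2 : FactorOfSum D (OfProjAll D) (total D m) := by
    refine hS'.toIsSerre.biprod (hS'.twist 1 _ (hf _ (ft_aff True) 0)) ?_
    exact FactorOfSum.biproduct fun j => hf _ (ft_aff True) _
  obtain ⟨J, _, M, a, i, r, hG, hir⟩ := h2.retract
  exact hP _ _ (hS.factor i r hir (hS.refl _)) (h J M a hG)

end

end Pool.Agent.H367.OS
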