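import Pool.Agent.H367.OS.GWin
import Pool.Agent.H367.OS.Tan

/-!
# Tannakian subcategories generated by the full cohomology of the hypersurfaces `G_m = 1`
-/

set_option autoImplicit false

open CategoryTheory CategoryTheory.Limits AlgebraicGeometry MvPolynomial Pool.Agent.Y116.UV
  Pool.Agent.Z125.UN Pool.Agent.Q193.LT Pool.Agent.H854.SQ

open scoped ZeroObject

universe v u

namespace Pool.Agent.H367.OS

attribute [local instance] Abelian.hasFiniteBiproducts

section point

variable {k : Type} [Field k] {n : ℕ}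

/-- The relations `x_i + x_i = x_i`. -/
def zeroRel (n : ℕ) : Finset (Rel (Fin n)) :=
  Finset.univ.map ⟨fun i : Fin n => (Sum.inr (Sum.inl (i, i, i)) : Rel (Fin n)), fun i j h => by
    simpa using h⟩

lemma mem_zeroRel (i : Fin n) : (Sum.inr (Sum.inl (i, i, i)) : Rel (Fin n)) ∈ zeroRel n :=
  Finset.mem_map.2 ⟨i, Finset.mem_univ i, rfl⟩

/-- The relation `x_0 x_0 = x_0`. -/
def firstRel (n : ℕ) : Rel (Fin (n + 1)) := Sum.inl (0, 0, 0)

lemma relNum_firstRel (n : ℕ) : (relNum (n + 1) (firstRel n) : ℕ) = 0 := by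
  simp [relNum, firstRel, finProdFinEquiv]

/-- The point has many presentations. -/
lemma sys_point {s : Finset (Rel (Fin n))} (h1 : zeroRel n ⊆ s)
    (h2 : ∀ r ∈ s, aeval (0 : Fin n → k) (relPoly k r) = 0) : Nonempty (Sys k s ≃ₐ[k] k) := by
  have hs : Function.Surjective (aeval (0 : Fin n → k) : MvPolynomial (Fin n) k →ₐ[k] k) :=
    fun x => ⟨C x, by simp⟩
  have key : Ideal.span (relPoly k '' (s : Set (Rel (Fin n)))) =
      RingHom.ker (aeval (0 : Fin n → k) : MvPolynomial (Fin n) k →ₐ[k] k) := by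
    apply le_antisymm
    · rw [Ideal.span_le]
      rintro _ ⟨r, hr, rfl⟩
      exact h2 r hr
    · intro f hf
      have e : Ideal.Quotient.mkₐ k (Ideal.span (relPoly k '' (s : Set (Rel (Fin n))))) =
          (Algebra.ofId k _).comp (aeval (0 : Fin n → k)) := by
        refine MvPolynomial.algHom_ext fun i => ?_
        rw [AlgHom.comp_apply, aeval_X]
        have h3 := relPoly_zero (k := k) s (h1 (mem_zeroRel i))
        simp only [relPoly, add_sub_cancel_right] at h3
        rw [Ideal.Quotient.mkₐ_eq_mk, h3, Pi.zero_apply, map_zero]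
      have h3 := DFunLike.congr_fun e f
      rw [AlgHom.comp_apply, RingHom.mem_ker.1 hf, map_zero, Ideal.Quotient.mkₐ_eq_mk] at h3
      exact Ideal.Quotient.eq_zero_iff_mem.1 h3
  exact ⟨(Ideal.quotientEquivAlgOfEq k key).trans (Ideal.quotientKerAlgEquivOfSurjective hs)⟩

end point

section

variable {k : Type} [Field k] {A : Type u} [Category.{v} A] [Abelian A] (D : CompactData k A)

/-- The motive `⨁_j H^j_c(Spec B)`, `0 ≤ j ≤ 2 n`, where `n` is at least the dimension of `B`. -/
noncomputable def mot (n : ℕ) (B : Type) [CommRing B] [Algebra k B] : A :=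
  ⨁ fun j : Fin (2 * n + 1) => D.H (j : ℤ) (aff k B)

/-- The number of variables of the polynomial `G_m`. -/
def nvarG (m : ℕ) : ℕ := Fintype.card (EqnG m ⊕ VarG m)

/-- The motive `⨁_j H^j_c(C_m)` of the hypersurface `C_m : G_m = 1`. -/
noncomputable def motC (m : ℕ) : A := mot D (nvarG m) (CubRingG k m)

/-- The unit object `𝟙 = H^0(Spec k)`. -/
noncomputable abbrev one : A := D.H 0 (aff k k)

/-- `S N N'` says that `N` is an object of the Tannakian subcategory generated by `N'` (the smallest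
full abelian rigid tensor subcategory which contains `N'` and is closed under subquotients). These are the
properties which are used: `S` is reflexive and transitive, the subcategory contains the zero objects
and the unit object, it is closed under direct sums and direct factors, it contains `N(a) = N ⊗ 𝟙(a)` if
it contains `N` and `𝟙(a)`, and it contains the dual `𝟙(-a)` of `𝟙(a)`. -/
structure IsTannakian (S : A → A → Prop) : Prop where
  refl : ∀ N, S N N
  trans : ∀ {N N' N'' : A}, S N N' → S N' N'' → S N N''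
  zero : ∀ N N', IsZero N → S N N'
  unit : ∀ N', S (one D) N'
  sum : ∀ {N₁ N₂ N' : A}, S N₁ N' → S N₂ N' → S (N₁ ⊞ N₂) N'
  factor : ∀ {X Y N' : A} (i : X ⟶ Y) (r : Y ⟶ X), i ≫ r = 𝟙 X → S Y N' → S X N'
  twist : ∀ {N N' : A} (a : ℤ), S ((D.tw a).obj (one D)) N' → S N N' → S ((D.tw a).obj N) N'
  dual : ∀ {N' : A} (a : ℤ), S ((D.tw a).obj (one D)) N' → S ((D.tw (-a)).obj (one D)) N'

/-- Every object `N` is in the Tannakian subcategory generated by the Tate object `𝟙(1)` and the
cohomology with compact supports `⨁_j H^j_c(Spec B)` of an affine scheme of finite type. -/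
def GeneratedByAffine (S : A → A → Prop) : Prop :=
  ∀ N : A, ∃ (B : Type) (_ : CommRing B) (_ : Algebra k B) (_ : Algebra.FiniteType k B) (n : ℕ),
    ringKrullDim B ≤ n ∧ S N ((D.tw 1).obj (one D) ⊞ mot D n B)

lemma dim_cubG (m : ℕ) : ringKrullDim (CubRingG k m) ≤ (nvarG m : ℕ) := by
  refine (ringKrullDim_quotient_le _).trans ?_
  rw [MvPolynomial.ringKrullDim_of_isNoetherianRing, ringKrullDim_eq_zero_of_field, zero_add,
    Nat.card_eq_fintype_card]
  rfl

end

section

variable {k : Type} [Field k] {A : Type u} [Category.{v} A] [Abelian A] {D : CompactData k A}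
  {S : A → A → Prop} (hS : IsTannakian D S)

include hS

lemma IsTannakian.iso {X Y N' : A} (e : X ≅ Y) (h : S Y N') : S X N' :=
  hS.factor e.hom e.inv e.hom_inv_id h

lemma IsTannakian.of_sum {N N' : A} {J : Type} [Fintype J] (F : J → A)
    (i : ∀ j, N ⟶ F j) (r : ∀ j, F j ⟶ N) (hsum : ∑ j, i j ≫ r j = 𝟙 N)
    (h : ∀ j, S (F j) N') : S N N' := by
  classical
  have key : ∀ s : Finset J, ∃ (X : A) (a : N ⟶ X) (b : X ⟶ N), S X N' ∧
      a ≫ b = ∑ j ∈ s, i j ≫ r j := by
    intro s
    induction s using Finset.induction_on with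
    | empty => exact ⟨0, 0, 0, hS.zero _ _ (isZero_zero A), by simp⟩
    | insert j s hj ih =>
      obtain ⟨X, a, b, hX, hab⟩ := ih
      refine ⟨F j ⊞ X, biprod.lift (i j) a, biprod.desc (r j) b, hS.sum (h j) hX, ?_⟩
      rw [biprod.lift_desc, hab, Finset.sum_insert hj]
  obtain ⟨X, a, b, hX, hab⟩ := key Finset.univ
  exact hS.factor a b (hab.trans hsum) hX

lemma IsTannakian.biproduct {N' : A} {J : Type} [Finite J] (F : J → A)
    (h : ∀ j, S (F j) N') : S (⨁ F) N' := by
  have := Fintype.ofFinite J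
  exact hS.of_sum F (fun j => biproduct.π F j) (fun j => biproduct.ι F j) biproduct.total h

/-- The cohomology of `Spec B` is in the category generated by the motive `⨁_j H^j_c(Spec B)`. -/
lemma IsTannakian.coh_mot (hD : IsCoh D) {n : ℕ} {B : Type} [CommRing B] [Algebra k B]
    [Algebra.FiniteType k B] (hn : ringKrullDim B ≤ n) (j : ℤ) :
    S (D.H j (aff k B)) (mot D n B) := by
  by_cases h : 0 ≤ j ∧ j ≤ 2 * n
  · obtain ⟨l, rfl⟩ := Int.eq_ofNat_of_zero_le h.1
    have hl : l < 2 * n + 1 := by omega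
    let F := fun j : Fin (2 * n + 1) => D.H (j : ℤ) (aff k B)
    have h2 : S (F ⟨l, hl⟩) (⨁ F) :=
      hS.factor (biproduct.ι F ⟨l, hl⟩) (biproduct.π F ⟨l, hl⟩) (biproduct.ι_π_self _ _)
        (hS.refl _)
    exact h2
  · refine hS.zero _ _ ?_
    by_cases h3 : 0 ≤ j
    · exact hD.high _ n hn j (by by_contra h4; exact h ⟨h3, by omega⟩)
    · exact hD.low _ j (by omega)

lemma IsTannakian.cub_motC (hD : IsCoh D) (m : ℕ) (j : ℤ) :
    S (D.H j (cubG k m)) (motC D m) := hS.coh_mot hD (dim_cubG m) j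

/-- The integers `a` such that `𝟙(a)` is in the category generated by `N'`. -/
def tateSub (hD : IsCoh D) (N' : A) : AddSubgroup ℤ where
  carrier := {a | S ((D.tw a).obj (one D)) N'}
  zero_mem' := by
    obtain ⟨e⟩ := hD.tw_nil (one D)
    exact hS.iso e (hS.unit _)
  add_mem' := by
    intro a b ha hb
    obtain ⟨e⟩ := hD.tw_tw a b (one D)
    exact hS.iso e.symm (hS.twist b hb ha)
  neg_mem' := by
    intro a ha
    exact hS.dual a ha

/-- From the cohomology of the hypersurface to the cohomology of the affine scheme. -/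
lemma IsTannakian.untwist (hD : IsCoh D) {N' X Y : A} {a : ℤ}
    (h : Nonempty (X ≅ (D.tw a).obj Y)) (hX : S X N')
    (ha : S ((D.tw (-a)).obj (one D)) N') : S Y N' := by
  obtain ⟨e⟩ := h
  obtain ⟨e1⟩ := hD.tw_inv a Y
  exact hS.iso (e1.symm ≪≫ (D.tw (-a)).mapIso e.symm) (hS.twist (-a) ha hX)

/-- **The Tate objects.** For all large `m` the motive of `C_m` generates all Tate objects. -/
theorem IsTannakian.tate (hk : IsPrimeField k) (hD : IsCoh D) : ∃ m₀ : ℕ, ∀ m, m₀ ≤ m →
    ∀ a : ℤ, S ((D.tw a).obj (one D)) (motC D m) := by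
  classical
  obtain ⟨m₀, hm⟩ := coh_affine.{v, u} hk (MvPolynomial (Fin 1) k)
  refine ⟨max m₀ 1, fun m hm1 => ?_⟩
  obtain ⟨N, hN⟩ := hm m ((le_max_left _ _).trans hm1)
  have hm2 : 1 ≤ m := (le_max_right _ _).trans hm1
  obtain ⟨n, rfl⟩ : ∃ n, m = n + 1 := ⟨m - 1, by omega⟩
  have hcub := fun j => hS.cub_motC hD (n + 1) j
  -- the affine line
  have h3 : -(esh (n + 1) N + 1) ∈ tateSub hS hD (motC D (n + 1)) := by
    obtain ⟨e1⟩ := hN A D hD 2 (by norm_num) (by push_cast; linarith)
    obtain ⟨e2⟩ := hD.poly_fin k 1 2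
    have h1 : (2 : ℤ) - 2 * ((1 : ℕ) : ℤ) = 0 := by norm_num
    rw [h1] at e2
    obtain ⟨e3⟩ := hD.tw_tw (-((1 : ℕ) : ℤ)) (-esh (n + 1) N) (one D)
    have h2 : -((1 : ℕ) : ℤ) + -esh (n + 1) N = -(esh (n + 1) N + 1) := by push_cast; ring
    rw [h2] at e3
    exact hS.iso (e1 ≪≫ (D.tw _).mapIso e2 ≪≫ e3).symm (hcub _)
  -- the points
  have hpt : ∀ s : Finset (Rel (Fin (n + 1))), zeroRel (n + 1) ⊆ s →
      (∀ r ∈ s, aeval (0 : Fin (n + 1) → k) (relPoly k r) = 0) →
      -esh (n + 1) (code s) ∈ tateSub hS hD (motC D (n + 1)) := by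
    intro s h1 h2
    obtain ⟨e⟩ := sys_point h1 h2
    obtain ⟨e1⟩ := hD.dict (m := n + 1) hm2 s (j := 0) le_rfl (by positivity)
    obtain ⟨e2⟩ := hD.iso_alg e 0
    exact hS.iso (e1 ≪≫ (D.tw _).mapIso e2).symm (hcub _)
  have hz : ∀ r ∈ zeroRel (n + 1), aeval (0 : Fin (n + 1) → k) (relPoly k r) = 0 := by
    intro r hr
    obtain ⟨i, -, rfl⟩ := Finset.mem_map.1 hr
    simp [relPoly]
  have h2 := hpt (zeroRel (n + 1)) subset_rfl hz
  have h1 := hpt (insert (firstRel n) (zeroRel (n + 1))) (Finset.subset_insert _ _) (by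
    intro r hr
    rcases Finset.mem_insert.1 hr with rfl | hr
    · simp [relPoly, firstRel]
    · exact hz r hr)
  have hc : code (insert (firstRel n) (zeroRel (n + 1))) = code (zeroRel (n + 1)) + 1 := by
    rw [code, Finset.sum_insert, relNum_firstRel, pow_zero, add_comm, code]
    intro h
    obtain ⟨i, -, h⟩ := Finset.mem_map.1 h
    exact absurd h (by simp [firstRel])
  rw [hc] at h1
  set T := tateSub hS hD (motC D (n + 1)) with hT
  set c := code (zeroRel (n + 1)) with hcd
  have h4 : ((n : ℤ) + 2) ∈ T := by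
    have h5 := T.sub_mem h2 h1
    have h6 : -esh (n + 1) c - -esh (n + 1) (c + 1) = (n : ℤ) + 2 := by
      rw [esh, esh]
      push_cast
      ring
    rwa [h6] at h5
  have h5 : (1 : ℤ) ∈ T := by
    have h6 := T.add_mem (T.sub_mem h2 h3) (T.zsmul_mem h4 ((c : ℤ) - N))
    have h7 : -esh (n + 1) c - -(esh (n + 1) N + 1) + ((c : ℤ) - N) • ((n : ℤ) + 2) = 1 := by
      rw [esh, esh, smul_eq_mul]
      push_cast
      ring
    rwa [h7] at h6
  intro a
  have h6 := T.zsmul_mem h5 a
  rw [smul_eq_mul, mul_one] at h6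
  exact h6

/-- **The cohomology of an affine scheme.** -/
theorem IsTannakian.affine (hk : IsPrimeField k) (hD : IsCoh D) (B : Type) [CommRing B]
    [Algebra k B] [Algebra.FiniteType k B] : ∃ m₀ : ℕ, ∀ m, m₀ ≤ m → ∀ j : ℤ,
      S (D.H j (aff k B)) (motC D m) := by
  obtain ⟨m₀, hm⟩ := coh_affine.{v, u} hk B
  obtain ⟨m₁, hm'⟩ := hS.tate hk hD
  obtain ⟨d, hd⟩ : ∃ d : ℕ, ringKrullDim B ≤ d := by
    obtain ⟨n, f, hf⟩ := Algebra.FiniteType.iff_quotient_mvPolynomial''.1
      (inferInstance : Algebra.FiniteType k B)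
    refine ⟨n, (ringKrullDim_le_of_surjective (f : MvPolynomial (Fin n) k →+* B) hf).trans ?_⟩
    rw [MvPolynomial.ringKrullDim_of_isNoetherianRing, ringKrullDim_eq_zero_of_field, zero_add,
      Nat.card_eq_fintype_card, Fintype.card_fin]
  refine ⟨max (max m₀ m₁) d, fun m hm1 j => ?_⟩
  have h0 : m₀ ≤ m := ((le_max_left _ _).trans (le_max_left _ _)).trans hm1
  have h1 : m₁ ≤ m := ((le_max_right _ _).trans (le_max_left _ _)).trans hm1
  have h2 : (d : ℤ) ≤ m := by exact_mod_cast (le_max_right _ _).trans hm1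
  by_cases h : 0 ≤ j ∧ j ≤ 2 * m
  · obtain ⟨N, hN⟩ := hm m h0
    refine hS.untwist hD (hN A D hD j h.1 h.2) (hS.cub_motC hD m _) ?_
    rw [neg_neg]
    exact hm' m h1 _
  · refine hS.zero _ _ ?_
    by_cases h3 : 0 ≤ j
    · exact hD.high _ d hd j (by
        by_contra h4
        exact h ⟨h3, by linarith⟩)
    · exact hD.low _ j (by omega)

/-- **All objects.** Every object is in the Tannakian subcategory generated by `⨁_j H^j_c(C_m)`, for all
large `m`. -/
theorem IsTannakian.exhaust (hk : IsPrimeField k) (hD : IsCoh D) (hg : GeneratedByAffine D S)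
    (N : A) : ∃ m₀ : ℕ, ∀ m, m₀ ≤ m → S N (motC D m) := by
  obtain ⟨B, _, _, _, n, hn, hN⟩ := hg N
  obtain ⟨m₀, hm⟩ := hS.affine hk hD B
  obtain ⟨m₁, hm'⟩ := hS.tate hk hD
  refine ⟨max m₀ m₁, fun m hm1 => hS.trans hN (hS.sum (hm' m ((le_max_right _ _).trans hm1) 1) ?_)⟩
  exact hS.biproduct _ fun j => hm m ((le_max_left _ _).trans hm1) j

/-- **A statement which passes to Tannakian subcategories** is true for all objects if and only if it is
true for the motives `⨁_j H^j_c(C_m)`, for infinitely many `m`. -/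
theorem IsTannakian.tfae (hk : IsPrimeField k) (hD : IsCoh D) (hg : GeneratedByAffine D S)
    {P : A → Prop} (hP : Inherits S P) :
    List.TFAE [∀ N, P N, ∀ m, P (motC D m), ∃ᶠ m in Filter.atTop, P (motC D m)] := by
  tfae_have 1 → 2 := fun h m => h _
  tfae_have 2 → 3 := fun h => (Filter.Eventually.of_forall h).frequently
  tfae_have 3 → 1 := fun h N => by
    obtain ⟨m₀, hm⟩ := hS.exhaust hk hD hg N
    obtain ⟨m, hm1, hm2⟩ := (Filter.frequently_atTop.1 h) m₀
    exact hP _ _ (hm m hm1) hm2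
  tfae_finish

end

end Pool.Agent.H367.OS
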