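import Pool.Agent.H367.OS.GDeg
import Pool.Graph.R_pool_sql_team_seeded_2aa45f1a.Q49.WU.Coh

/-!
# The dictionary for the objects: the pieces of the cohomology of the hypersurfaces `G_m = 1`
-/

set_option autoImplicit false

open CategoryTheory CategoryTheory.Limits AlgebraicGeometry MvPolynomial Pool.Agent.Y116.UV
  Pool.Agent.Z125.UN Pool.Agent.Q193.LT Pool.Agent.H854.SQ

universe v u

namespace Pool.Agent.H367.OS

/-- The weight graded pieces `G w j X = Gr^W_w H^j_c(X)` of the cohomology with compact supports, with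
values in the category `A`, and the Tate twists `M(a)` of the objects of `A`. -/
structure Pieces (k : Type) [Field k] (A : Type u) [Category.{v} A] where
  /-- `Gr^W_w H^j_c(X)` -/
  G : ℤ → ℤ → Sch k → A
  /-- the Tate twist `M(a)` -/
  tw : ℤ → A ⥤ A

/-- The standard properties of the weight graded pieces of the cohomology with compact supports:

* `exact`: the long exact sequences `⋯ → H^j_c(U) → H^j_c(X) → H^j_c(Z) → H^{j+1}_c(U) → ⋯` for a closed
  subscheme `Z` of `X` with the complement `U`, in each weight;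
* `bundle`: for the affine bundle `Spec B[w_1, …, w_m] / (∑ f_l w_l - 1) → U` with fibre `𝔸^{m-1}`,
  where `U` is the complement of `f = 0` in `Spec B`, the cohomology of the total space is
  `H^{j-2(m-1)}_c(U)(-(m-1))`;
* `space`: `H^j_c(𝔸^n)` is zero for `j ≠ 2n`, and of weight `2n` for `j = 2n`;
* `low`, `high`: the weights of `H^j_c(X)` are between `0` and `2 dim X`. -/
structure IsPieces {k : Type} [Field k] {A : Type u} [Category.{v} A] [Abelian A]
    (D : Pieces k A) : Prop where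
  twAdditive : ∀ a, (D.tw a).Additive
  twZero : Nonempty (D.tw 0 ≅ 𝟭 A)
  twAdd : ∀ a b, Nonempty (D.tw a ⋙ D.tw b ≅ D.tw (a + b))
  iso : ∀ {X Y : Sch k}, FT True X → Nonempty (X ≅ Y) → ∀ w j, Nonempty (D.G w j X ≅ D.G w j Y)
  exact : ∀ {Z X U : Sch k} (i : Z ⟶ X) (j : U ⟶ X), FT True X → IsTriple i j → ∀ w : ℤ,
    ∃ (a : ∀ n, D.G w n U ⟶ D.G w n X) (b : ∀ n, D.G w n X ⟶ D.G w n Z)
      (d : ∀ n, D.G w n Z ⟶ D.G w (n + 1) U) (hab : ∀ n, a n ≫ b n = 0)
      (hbd : ∀ n, b n ≫ d n = 0) (hda : ∀ n, d n ≫ a (n + 1) = 0),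
      (∀ n, (ShortComplex.mk (a n) (b n) (hab n)).Exact) ∧
      (∀ n, (ShortComplex.mk (b n) (d n) (hbd n)).Exact) ∧
      (∀ n, (ShortComplex.mk (d n) (a (n + 1)) (hda n)).Exact)
  bundle : ∀ (B : Type) [CommRing B] [Algebra k B] [Algebra.FiniteType k B] (m : ℕ)
    (f : Fin m → B) (U : Sch k) (j : U ⟶ aff k B), IsOpenImmersion j.left →
    Set.range j.left = {x : PrimeSpectrum B | ∃ l, f l ∉ x.asIdeal} →
    ∀ w n, Nonempty (D.G w n (aff k (Jou f)) ≅
      (D.tw (1 - m)).obj (D.G (w + 2 * (1 - m)) (n + 2 * (1 - m)) U))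
  space : ∀ (n : ℕ) (w j : ℤ), ¬ (w = 2 * n ∧ j = 2 * n) →
    IsZero (D.G w j (aff k (MvPolynomial (Fin n) k)))
  low : ∀ (B : Type) [CommRing B] [Algebra k B] [Algebra.FiniteType k B] (w j : ℤ), w < 0 →
    IsZero (D.G w j (aff k B))
  high : ∀ (B : Type) [CommRing B] [Algebra k B] [Algebra.FiniteType k B] (n : ℕ),
    ringKrullDim B ≤ n → ∀ w j : ℤ, 2 * (n : ℤ) < w → IsZero (D.G w j (aff k B))

section basic

variable {k : Type} [Field k] {A : Type u} [Category.{v} A] [Abelian A] {D : Pieces k A}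
  (hD : IsPieces D)

include hD

lemma IsPieces.tw_zero (a : ℤ) {M : A} (h : IsZero M) : IsZero ((D.tw a).obj M) := by
  have := hD.twAdditive a
  exact (D.tw a).map_isZero h

lemma IsPieces.tw_tw (a b : ℤ) (M : A) : Nonempty ((D.tw b).obj ((D.tw a).obj M) ≅
    (D.tw (a + b)).obj M) := by
  obtain ⟨e⟩ := hD.twAdd a b
  exact ⟨e.app M⟩

lemma IsPieces.tw_nil (M : A) : Nonempty ((D.tw 0).obj M ≅ M) := by
  obtain ⟨e⟩ := hD.twZero
  exact ⟨e.app M⟩

lemma IsPieces.tw_inv (a : ℤ) (M : A) : Nonempty ((D.tw (-a)).obj ((D.tw a).obj M) ≅ M) := by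
  obtain ⟨e⟩ := hD.tw_tw a (-a) M
  obtain ⟨e'⟩ := hD.tw_nil M
  rw [add_neg_cancel] at e
  exact ⟨e ≪≫ e'⟩

/-- If the closed part has no cohomology in the weight `w`. -/
lemma IsPieces.of_closed {Z X U : Sch k} (i : Z ⟶ X) (j : U ⟶ X) (hX : FT True X)
    (ht : IsTriple i j) (w : ℤ) (hZ : ∀ n, IsZero (D.G w n Z)) (n : ℤ) :
    Nonempty (D.G w n U ≅ D.G w n X) := by
  obtain ⟨a, b, d, hab, hbd, hda, e1, e2, e3⟩ := hD.exact i j hX ht w
  have h1 : Epi (a n) := (ShortComplex.exact_iff_epi _ ((hZ n).eq_zero_of_tgt _)).mp (e1 n)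
  have h2 : Mono (a (n - 1 + 1)) :=
    (ShortComplex.exact_iff_mono _ ((hZ (n - 1)).eq_zero_of_src _)).mp (e3 (n - 1))
  rw [sub_add_cancel] at h2
  have h3 : IsIso (a n) := isIso_of_mono_of_epi _
  exact ⟨asIso (a n)⟩

/-- If the open part has no cohomology in the weight `w`. -/
lemma IsPieces.of_open {Z X U : Sch k} (i : Z ⟶ X) (j : U ⟶ X) (hX : FT True X)
    (ht : IsTriple i j) (w : ℤ) (hU : ∀ n, IsZero (D.G w n U)) (n : ℤ) :
    Nonempty (D.G w n X ≅ D.G w n Z) := by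
  obtain ⟨a, b, d, hab, hbd, hda, e1, e2, e3⟩ := hD.exact i j hX ht w
  have h1 : Mono (b n) := (ShortComplex.exact_iff_mono _ ((hU n).eq_zero_of_src _)).mp (e1 n)
  have h2 : Epi (b n) :=
    (ShortComplex.exact_iff_epi _ ((hU (n + 1)).eq_zero_of_tgt _)).mp (e2 n)
  have h3 : IsIso (b n) := isIso_of_mono_of_epi _
  exact ⟨asIso (b n)⟩

/-- If the whole scheme has no cohomology in the weight `w`. -/
lemma IsPieces.of_total {Z X U : Sch k} (i : Z ⟶ X) (j : U ⟶ X) (hX : FT True X)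
    (ht : IsTriple i j) (w n : ℤ) (h1 : IsZero (D.G w n X)) (h2 : IsZero (D.G w (n + 1) X)) :
    Nonempty (D.G w n Z ≅ D.G w (n + 1) U) := by
  obtain ⟨a, b, d, hab, hbd, hda, e1, e2, e3⟩ := hD.exact i j hX ht w
  have h1 : Mono (d n) := (ShortComplex.exact_iff_mono _ (h1.eq_zero_of_src _)).mp (e2 n)
  have h2 : Epi (d n) := (ShortComplex.exact_iff_epi _ (h2.eq_zero_of_tgt _)).mp (e3 n)
  have h3 : IsIso (d n) := isIso_of_mono_of_epi _
  exact ⟨asIso (d n)⟩

/-- If both parts have no cohomology in the weight `w`. -/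
lemma IsPieces.zero_total {Z X U : Sch k} (i : Z ⟶ X) (j : U ⟶ X) (hX : FT True X)
    (ht : IsTriple i j) (w : ℤ) (hZ : ∀ n, IsZero (D.G w n Z)) (hU : ∀ n, IsZero (D.G w n U))
    (n : ℤ) : IsZero (D.G w n X) := by
  obtain ⟨e⟩ := hD.of_open i j hX ht w hU n
  exact (hZ n).of_iso e

lemma IsPieces.iso_alg {B C : Type} [CommRing B] [CommRing C] [Algebra k B] [Algebra k C]
    [Algebra.FiniteType k B] (e : B ≃ₐ[k] C) (w j : ℤ) :
    Nonempty (D.G w j (aff k B) ≅ D.G w j (aff k C)) :=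
  hD.iso (ft_aff True) ⟨(affIso e).symm⟩ w j

/-- Products with affine spaces. -/
lemma IsPieces.poly_fin (B : Type) [CommRing B] [Algebra k B] [Algebra.FiniteType k B] (n : ℕ)
    (w j : ℤ) : Nonempty (D.G w j (aff k (MvPolynomial (Fin n) B)) ≅
      (D.tw (-n)).obj (D.G (w - 2 * n) (j - 2 * n) (aff k B))) := by
  have h1 : IsOpenImmersion (𝟙 (aff k B) : aff k B ⟶ aff k B).left :=
    inferInstanceAs (IsOpenImmersion (𝟙 (aff k B).left))
  have h2 : Set.range (𝟙 (aff k B) : aff k B ⟶ aff k B).left =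
      {x : PrimeSpectrum B | ∃ l, f1 B n l ∉ x.asIdeal} := by
    have h1 : Set.range (𝟙 (aff k B) : aff k B ⟶ aff k B).left = Set.univ := Set.range_id
    have h2 : {x : PrimeSpectrum B | ∃ l, f1 B n l ∉ x.asIdeal} = Set.univ := by
      rw [Set.eq_univ_iff_forall]
      intro x
      exact ⟨0, fun h => x.isPrime.ne_top ((Ideal.eq_top_iff_one _).mpr h)⟩
    exact h1.trans h2.symm
  obtain ⟨e⟩ := hD.bundle B (n + 1) (f1 B n) (aff k B) (𝟙 _) h1 h2 w j
  have h4 : (1 : ℤ) - ((n + 1 : ℕ) : ℤ) = -n := by push_cast; ring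
  have h5 : w + 2 * (-(n : ℤ)) = w - 2 * n := by ring
  have h6 : j + 2 * (-(n : ℤ)) = j - 2 * n := by ring
  rw [h4, h5, h6] at e
  have : Algebra.FiniteType k (Jou (f1 B n)) :=
    Algebra.FiniteType.trans (S := B) inferInstance inferInstance
  obtain ⟨e'⟩ := hD.iso_alg ((jouOne B n).restrictScalars k) w j
  exact ⟨e'.symm ≪≫ e⟩

lemma IsPieces.poly (B : Type) [CommRing B] [Algebra k B] [Algebra.FiniteType k B] (τ : Type)
    [Finite τ] (w j : ℤ) : Nonempty (D.G w j (aff k (MvPolynomial τ B)) ≅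
      (D.tw (-Nat.card τ)).obj (D.G (w - 2 * Nat.card τ) (j - 2 * Nat.card τ) (aff k B))) := by
  have := Fintype.ofFinite τ
  have : Algebra.FiniteType k (MvPolynomial τ B) :=
    Algebra.FiniteType.trans (S := B) inferInstance inferInstance
  obtain ⟨e⟩ := hD.iso_alg ((renameEquiv B (Fintype.equivFin τ)).restrictScalars k) w j
  obtain ⟨e'⟩ := hD.poly_fin B (Fintype.card τ) w j
  rw [Nat.card_eq_fintype_card]
  exact ⟨e ≪≫ e'⟩

/-- The affine spaces. -/
lemma IsPieces.space' (τ : Type) [Finite τ] (w j : ℤ)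
    (h : ¬ (w = 2 * Nat.card τ ∧ j = 2 * Nat.card τ)) :
    IsZero (D.G w j (aff k (MvPolynomial τ k))) := by
  have := Fintype.ofFinite τ
  obtain ⟨e⟩ := hD.iso_alg (renameEquiv k (Fintype.equivFin τ)) w j
  rw [Nat.card_eq_fintype_card] at h
  exact (hD.space _ w j h).of_iso e

end basic

section comp

variable {k : Type} [Field k] {A : Type u} [Category.{v} A] [Abelian A] {D : Pieces k A}
  (hD : IsPieces D) {n : ℕ}

include hD

/-- The components. -/
lemma IsPieces.comp (t : Finset (Rel (Fin n))) (w j : ℤ) :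
    Nonempty (D.G w j (Pt k Finset.univ t) ≅ (D.tw (-((n + 1) * code t : ℕ))).obj
      (D.G (w - 2 * ((n + 1) * code t : ℕ)) (j - 2 * ((n + 1) * code t : ℕ))
        (aff k (Sys k t)))) := by
  have : Algebra.FiniteType k (MvPolynomial (ExtIn t) (Sys k t)) :=
    Algebra.FiniteType.trans (S := Sys k t) inferInstance inferInstance
  rw [← card_extIn]
  obtain ⟨e⟩ := hD.poly (Sys k t) (ExtIn t) w j
  obtain ⟨e'⟩ := hD.iso_alg (B := MvPolynomial (VarG n) k ⧸ part k Finset.univ t)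
    (C := MvPolynomial (ExtIn t) (Sys k t)) (compE t) w j
  exact ⟨e' ≪≫ e⟩

/-- The components with another code do not contribute to the weights `w + 2 (n + 1) N`,
`0 ≤ w ≤ 2 n + 1`. -/
lemma IsPieces.comp_zero (t : Finset (Rel (Fin n))) (N : ℕ) (ht : code t ≠ N) {w : ℤ}
    (h0 : 0 ≤ w) (h1 : w ≤ 2 * n + 1) (j : ℤ) :
    IsZero (D.G (w + 2 * ((n + 1) * N : ℕ)) j (Pt k Finset.univ t)) := by
  obtain ⟨e⟩ := hD.comp t (w + 2 * ((n + 1) * N : ℕ)) j
  refine IsZero.of_iso (hD.tw_zero _ ?_) e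
  rcases lt_or_gt_of_ne ht with hlt | hgt
  · refine hD.high _ n (krull_sys k t) _ _ ?_
    have h1 : ((code t : ℤ) + 1) ≤ N := by exact_mod_cast hlt
    have h2 : ((n : ℤ) + 1) * ((code t : ℤ) + 1) ≤ (n + 1) * N :=
      mul_le_mul_of_nonneg_left h1 (by positivity)
    push_cast
    linarith
  · refine hD.low _ _ _ ?_
    have h1 : ((N : ℤ) + 1) ≤ code t := by exact_mod_cast hgt
    have h2 : ((n : ℤ) + 1) * ((N : ℤ) + 1) ≤ (n + 1) * code t :=
      mul_le_mul_of_nonneg_left h1 (by positivity)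
    push_cast
    linarith

/-- If all components of a part have no cohomology in the weight `w`, the part has none. -/
lemma IsPieces.part_zero (w : ℤ) (F s : Finset (Rel (Fin n)))
    (h : ∀ t : Finset (Rel (Fin n)), (∀ r ∈ F, (r ∈ t ↔ r ∈ s)) →
      ∀ j, IsZero (D.G w j (Pt k Finset.univ t))) : ∀ j, IsZero (D.G w j (Pt k F s)) := by
  classical
  induction hN : (Finset.univ \ F).card generalizing F s with
  | zero =>
    rw [Finset.card_eq_zero, Finset.sdiff_eq_empty_iff_subset, Finset.univ_subset_iff] at hN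
    subst hN
    exact h s fun _ _ => Iff.rfl
  | succ N ih =>
    obtain ⟨r, hr⟩ : (Finset.univ \ F).Nonempty := by
      rw [← Finset.card_pos]
      omega
    have hrF : r ∉ F := (Finset.mem_sdiff.1 hr).2
    have hc : (Finset.univ \ insert r F).card = N := by
      rw [Finset.sdiff_insert, Finset.card_erase_of_mem hr, hN, Nat.add_sub_cancel]
    obtain ⟨i, j, ht⟩ := triple_part (k := k) F s hrF
    refine hD.zero_total i j (ft_aff True) ht w (ih _ _ (fun t ht => h t fun u hu => ?_) hc)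
      (ih _ _ (fun t ht => h t fun u hu => ?_) hc)
    · have hur : u ≠ r := fun h => hrF (h ▸ hu)
      rw [ht u (Finset.mem_insert_of_mem hu), Finset.mem_erase, and_iff_right hur]
    · have hur : u ≠ r := fun h => hrF (h ▸ hu)
      rw [ht u (Finset.mem_insert_of_mem hu), Finset.mem_insert, or_iff_right hur]

/-- If only one component has cohomology in the weight `w`. -/
lemma IsPieces.one_comp (w : ℤ) (s : Finset (Rel (Fin n)))
    (h : ∀ t : Finset (Rel (Fin n)), t ≠ s → ∀ j, IsZero (D.G w j (Pt k Finset.univ t)))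
    (j : ℤ) : Nonempty (D.G w j (aff k (MvPolynomial (VarG n) k ⧸ idealG k n)) ≅
      D.G w j (Pt k Finset.univ s)) := by
  classical
  have key : ∀ F : Finset (Rel (Fin n)),
      Nonempty (D.G w j (aff k (MvPolynomial (VarG n) k ⧸ idealG k n)) ≅
        D.G w j (Pt k F s)) := by
    intro F
    induction F using Finset.induction_on with
    | empty =>
      rw [Pt, part_empty]
      exact ⟨Iso.refl _⟩
    | insert r F hr ih =>
      obtain ⟨e⟩ := ih
      obtain ⟨i, j', ht⟩ := triple_part (k := k) F s hr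
      by_cases hs : r ∈ s
      · have h1 : ∀ j, IsZero (D.G w j (Pt k (insert r F) (s.erase r))) :=
          hD.part_zero w _ _ fun t ht => h t fun hts =>
            Finset.notMem_erase r s ((ht r (Finset.mem_insert_self r F)).1 (hts ▸ hs))
        obtain ⟨e'⟩ := hD.of_closed i j' (ft_aff True) ht w h1 j
        rw [Finset.insert_eq_of_mem hs] at e'
        exact ⟨e ≪≫ e'.symm⟩
      · have h1 : ∀ j, IsZero (D.G w j (Pt k (insert r F) (insert r s))) :=
          hD.part_zero w _ _ fun t ht => h t fun hts =>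
            hs (hts ▸ (ht r (Finset.mem_insert_self r F)).2 (Finset.mem_insert_self r s))
        obtain ⟨e'⟩ := hD.of_open i j' (ft_aff True) ht w h1 j
        rw [Finset.erase_eq_of_notMem hs] at e'
        exact ⟨e ≪≫ e'⟩
  exact key _

end comp

section cub

/-- The shift `(m + 1) N + E_m - 1`, where `E_m` is the number of the equations. -/
def esh (m N : ℕ) : ℤ := (m + 1) * N + (numEqn m - 1)

lemma idx_eq (m : ℕ) (q : ℤ) (N : ℕ) : idx m q N = q + esh m N := by
  rw [idx, esh]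
  ring

lemma numEqn_pos {m : ℕ} (hm : 1 ≤ m) : 1 ≤ numEqn m := by
  have : Nonempty (EqnG m) := ⟨.inl (.inl (⟨0, hm⟩, ⟨0, hm⟩))⟩
  exact Fintype.card_pos

/-- The number of the variables is large. -/
lemma card_varG {m : ℕ} (hm : 1 ≤ m) (s : Finset (Rel (Fin m))) :
    (m + 1) * code s + (m + 1) ≤ Nat.card (VarG m) := by
  have h1 : Nat.card (ExtIn s) ≤ Nat.card (Ext m) :=
    Nat.card_le_card_of_injective _ Subtype.val_injective
  have h2 : m + 1 ≤ Nat.card (Var m) := by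
    rw [Nat.card_eq_fintype_card, Fintype.card_sum, Fintype.card_sum, Fintype.card_fin,
      Fintype.card_prod, Fintype.card_fin]
    nlinarith [Nat.zero_le (Fintype.card (Rel (Fin m)))]
  have h3 : Nat.card (VarG m) = Nat.card (Var m) + Nat.card (Ext m) := Nat.card_sum
  rw [card_extIn] at h1
  omega

variable {k : Type} [Field k] {A : Type u} [Category.{v} A] [Abelian A] {D : Pieces k A}
  (hD : IsPieces D)

include hD

/-- From the complement of the zero set to the hypersurface. -/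
lemma IsPieces.opn_cub (m : ℕ) (w j : ℤ) :
    Nonempty (D.G (w + 2 * (numEqn m - 1)) (j + 2 * (numEqn m - 1)) (cubG k m) ≅
      (D.tw (-(numEqn m - 1))).obj (D.G w j
        (opn (aff k (MvPolynomial (VarG m) k)) (neOpen k (eqsG k m))))) := by
  obtain ⟨e⟩ := hD.bundle (MvPolynomial (VarG m) k) _ (eqsG k m)
    (opn (aff k (MvPolynomial (VarG m) k)) (neOpen k (eqsG k m)))
    (opnMap (aff k (MvPolynomial (VarG m) k)) (neOpen k (eqsG k m)))
    inferInstance (range_opnMap _ _) (w + 2 * (numEqn m - 1)) (j + 2 * (numEqn m - 1))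
  have h1 : (1 : ℤ) - (Fintype.card (EqnG m) : ℕ) = -((numEqn m : ℤ) - 1) := by
    rw [numEqn]
    ring
  have h2 : ∀ x : ℤ, x + 2 * ((numEqn m : ℤ) - 1) + 2 * (-((numEqn m : ℤ) - 1)) = x :=
    fun x => by ring
  rw [h1, h2, h2] at e
  obtain ⟨e'⟩ := hD.iso_alg (cubEquivG k m) (w + 2 * (numEqn m - 1)) (j + 2 * (numEqn m - 1))
  exact ⟨e' ≪≫ e⟩

omit hD in
lemma triple_zero (k : Type) [Field k] (m : ℕ) :
    ∃ (i : aff k (MvPolynomial (VarG m) k ⧸ idealG k m) ⟶ aff k (MvPolynomial (VarG m) k))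
      (j : opn (aff k (MvPolynomial (VarG m) k)) (neOpen k (eqsG k m)) ⟶
        aff k (MvPolynomial (VarG m) k)), IsTriple i j := by
  rw [← idealG_eq]
  refine ⟨affMap (Ideal.Quotient.mkₐ k (Ideal.span (Set.range (eqsG k m)))),
    opnMap (aff k (MvPolynomial (VarG m) k)) (neOpen k (eqsG k m)),
    closed_affMap _ (Ideal.Quotient.mkₐ_surjective k _), inferInstance, ?_⟩
  rw [range_affMap _ (Ideal.Quotient.mkₐ_surjective k _), range_opnMap]
  ext x
  change (∀ a, Ideal.Quotient.mk (Ideal.span (Set.range (eqsG k m))) a = 0 → a ∈ x.asIdeal) ↔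
    ¬ ∃ l, eqsG k m l ∉ x.asIdeal
  push Not
  constructor
  · intro h l
    exact h (eqsG k m l) (Ideal.Quotient.eq_zero_iff_mem.mpr (Ideal.subset_span ⟨l, rfl⟩))
  · intro h a ha
    rw [Ideal.Quotient.eq_zero_iff_mem] at ha
    refine (Ideal.span_le.mpr ?_ : Ideal.span (Set.range (eqsG k m)) ≤ x.asIdeal) ha
    rintro _ ⟨l, rfl⟩
    exact h l

/-- From the zero set to the hypersurface. -/
lemma IsPieces.zero_cub (m : ℕ) (w j : ℤ)
    (h : ¬ (w = 2 * Nat.card (VarG m) ∧ (j = 2 * Nat.card (VarG m) ∨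
      j + 1 = 2 * Nat.card (VarG m)))) :
    Nonempty (D.G (w + 2 * (numEqn m - 1)) (j + 1 + 2 * (numEqn m - 1)) (cubG k m) ≅
      (D.tw (-(numEqn m - 1))).obj (D.G w j
        (aff k (MvPolynomial (VarG m) k ⧸ idealG k m)))) := by
  obtain ⟨e⟩ := hD.opn_cub m w (j + 1)
  obtain ⟨i, j', ht⟩ := triple_zero k m
  obtain ⟨e'⟩ := hD.of_total i j' (ft_aff True) ht w j
    (hD.space' (VarG m) w j fun h1 => h ⟨h1.1, Or.inl h1.2⟩)
    (hD.space' (VarG m) w (j + 1) fun h1 => h ⟨h1.1, Or.inr h1.2⟩)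
  exact ⟨e ≪≫ (D.tw _).mapIso e'.symm⟩

/-- **The dictionary.** The piece of weight `w + 2 e` of `H^{j+2e+1}_c` of the hypersurface `G_m = 1` is
the Tate twist by `-e` of the piece of weight `w` of `H^j_c` of the scheme `X_s` defined by the
relations in `s`, for `e = (m + 1) N(s) + E_m - 1` and `0 ≤ w ≤ 2 m + 1`. -/
theorem IsPieces.dict {m : ℕ} (hm : 1 ≤ m) (s : Finset (Rel (Fin m))) {w : ℤ} (h0 : 0 ≤ w)
    (h1 : w ≤ 2 * m + 1) (j : ℤ) :
    Nonempty (D.G (w + 2 * esh m (code s)) (j + 2 * esh m (code s) + 1) (cubG k m) ≅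
      (D.tw (-esh m (code s))).obj (D.G w j (aff k (Sys k s)))) := by
  have hc := card_varG hm s
  have hc' : ((m : ℤ) + 1) * code s + (m + 1) ≤ Nat.card (VarG m) := by exact_mod_cast hc
  obtain ⟨e⟩ := hD.zero_cub m (w + 2 * ((m + 1) * code s : ℕ)) (j + 2 * ((m + 1) * code s : ℕ))
    (fun h => by
      have h2 := h.1
      push_cast at h2
      linarith)
  obtain ⟨e1⟩ := hD.one_comp (w + 2 * ((m + 1) * code s : ℕ)) s
    (fun t ht j => hD.comp_zero t (code s) (code_injective.ne ht) h0 h1 j)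
    (j + 2 * ((m + 1) * code s : ℕ))
  obtain ⟨e2⟩ := hD.comp s (w + 2 * ((m + 1) * code s : ℕ)) (j + 2 * ((m + 1) * code s : ℕ))
  rw [add_sub_cancel_right, add_sub_cancel_right] at e2
  obtain ⟨e3⟩ := hD.tw_tw (-((m + 1) * code s : ℕ)) (-((numEqn m : ℤ) - 1))
    (D.G w j (aff k (Sys k s)))
  have h2 : -(((m + 1) * code s : ℕ) : ℤ) + -((numEqn m : ℤ) - 1) = -esh m (code s) := by
    rw [esh]
    push_cast
    ring
  have h3 : w + 2 * (((m + 1) * code s : ℕ) : ℤ) + 2 * ((numEqn m : ℤ) - 1) =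
      w + 2 * esh m (code s) := by
    rw [esh]
    push_cast
    ring
  have h4 : j + 2 * (((m + 1) * code s : ℕ) : ℤ) + 1 + 2 * ((numEqn m : ℤ) - 1) =
      j + 2 * esh m (code s) + 1 := by
    rw [esh]
    push_cast
    ring
  rw [h2] at e3
  rw [h3, h4] at e
  exact ⟨e ≪≫ (D.tw _).mapIso (e1 ≪≫ e2) ≪≫ e3⟩

/-- The pieces of weight `w + 2 e`, `e = (m + 1) N + E_m - 1`, `0 ≤ w ≤ 2 m + 1`, of the hypersurface
`G_m = 1` come from a scheme `X_s` with the code `N`, or are zero (or belong to the cohomology in the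
highest degree). -/
theorem IsPieces.cases {m : ℕ} (N : ℕ) {w : ℤ} (h0 : 0 ≤ w)
    (h1 : w ≤ 2 * m + 1) (j : ℤ) :
    (∃ s : Finset (Rel (Fin m)), code s = N) ∨
      IsZero (D.G (w + 2 * esh m N) (j + 2 * esh m N + 1) (cubG k m)) ∨ j + 1 = w := by
  by_cases hN : ∃ s : Finset (Rel (Fin m)), code s = N
  · exact Or.inl hN
  by_cases hj : j + 1 = w
  · exact Or.inr (Or.inr hj)
  refine Or.inr (Or.inl ?_)
  push Not at hN
  have hW : ∀ j, IsZero (D.G (w + 2 * ((m + 1) * N : ℕ)) j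
      (aff k (MvPolynomial (VarG m) k ⧸ idealG k m))) := by
    intro j
    have h2 := hD.part_zero (k := k) (w + 2 * ((m + 1) * N : ℕ)) ∅ (∅ : Finset (Rel (Fin m)))
      (fun t _ j => hD.comp_zero t N (hN t) h0 h1 j) j
    rwa [Pt, part_empty] at h2
  obtain ⟨i, j', ht⟩ := triple_zero k m
  obtain ⟨e1⟩ := hD.of_closed i j' (ft_aff True) ht (w + 2 * ((m + 1) * N : ℕ)) hW
    (j + 2 * ((m + 1) * N : ℕ) + 1)
  have h2 : IsZero (D.G (w + 2 * ((m + 1) * N : ℕ)) (j + 2 * ((m + 1) * N : ℕ) + 1)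
      (aff k (MvPolynomial (VarG m) k))) := hD.space' _ _ _ fun h => hj (by omega)
  obtain ⟨e⟩ := hD.opn_cub m (w + 2 * ((m + 1) * N : ℕ)) (j + 2 * ((m + 1) * N : ℕ) + 1)
  have h3 : w + 2 * (((m + 1) * N : ℕ) : ℤ) + 2 * ((numEqn m : ℤ) - 1) =
      w + 2 * esh m N := by
    rw [esh]
    push_cast
    ring
  have h4 : j + 2 * (((m + 1) * N : ℕ) : ℤ) + 1 + 2 * ((numEqn m : ℤ) - 1) =
      j + 2 * esh m N + 1 := by
    rw [esh]
    push_cast
    ring
  rw [h3, h4] at e
  exact (hD.tw_zero _ (h2.of_iso e1)).of_iso e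

end cub

end Pool.Agent.H367.OS
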