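import Pool.Agent.H367.OS.OFac
import Mathlib

/-!
# Properties which do not depend on Tate twists, and large sets of primes
-/

set_option autoImplicit false

open CategoryTheory CategoryTheory.Limits AlgebraicGeometry Pool.Agent.Y116.UV
  Pool.Agent.Q193.LT Pool.Agent.H854.SQ
open scoped Nat.Prime

universe v u

namespace Pool.Agent.H367.OS

section

variable {k : Type} [Field k] {A : Type u} [Category.{v} A]

/-- The hypersurfaces `G_m = 1` decide the property `Q` of the pieces of the cohomology with compact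
supports, which does not depend on Tate twists. Let `e = (m + 1) N + E_m - 1` (`esh m N`).

* For every `w ≥ 0` the property `Q` of the single objects `Gr^W_{w+2e} H^{w+2e+1}_c` of the hypersurfaces
  `G_m = 1`, for all `N` and infinitely many `m`, is equivalent to the property `Q` of `H^w(Y)` for all
  smooth projective schemes `Y`, and of `Gr^W_w H^j_c(X)` for all separated schemes `X` of finite type and
  all `j`.
* The property `Q` of the pieces of weight `j - 1` of `H^j_c` of the hypersurfaces `G_m = 1`, for all `j`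
  and infinitely many `m`, is equivalent to the property `Q` of `H^i(Y)` for all smooth projective schemes
  `Y` and all `i`, and of all pieces of all separated schemes of finite type.
* For every affine scheme `Spec B` of finite type and all large `m` there is an `N` such that for
  `0 ≤ w ≤ 2 m + 1` and all `j` the property `Q` of `Gr^W_w H^j_c(Spec B)` is equivalent to the property `Q`
  of `Gr^W_{w+2e} H^{j+2e+1}_c` of the hypersurface `G_m = 1`.
* For every separated scheme `X` of finite type and all large `m` there is an `N` such that for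
  `0 ≤ w ≤ 2 m + 1` and all `j` the property `Q` of `Gr^W_{w+2e} H^{j+2e+1}_c` of the hypersurface
  `G_m = 1` implies the property `Q` of `Gr^W_w H^j_c(X)`.
* For every smooth projective scheme `Y`, every `d` and all large `m` there is an `e'` such that for all
  `i ≤ d` the property `Q` of `H^i(Y)` is equivalent to the property `Q` of `Gr^W_{i+2e'} H^{i+2e'+1}_c` of
  the hypersurface `G_m = 1`. -/
structure DecidesPlain (D : Pieces k A) (Q : A → Prop) : Prop where
  weight : ∀ w : ℕ, List.TFAE [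
    ∃ᶠ m in Filter.atTop, ∀ N : ℕ, Q (D.G (w + 2 * esh m N) (w + 2 * esh m N + 1) (cubG k m)),
    ∀ Y : Sch k, SmoothProj Y → Q (D.G w w Y),
    ∀ X : Sch k, FT True X → ∀ j : ℤ, Q (D.G w j X)]
  all : List.TFAE [
    ∃ᶠ m in Filter.atTop, ∀ j : ℤ, Q (D.G (j - 1) j (cubG k m)),
    ∀ Y : Sch k, SmoothProj Y → ∀ i : ℤ, Q (D.G i i Y),
    ∀ X : Sch k, FT True X → ∀ w j : ℤ, Q (D.G w j X)]
  exact : ∀ (B : Type) [CommRing B] [Algebra k B] [Algebra.FiniteType k B], ∃ m₀ : ℕ, ∀ m, m₀ ≤ m →
    ∃ N : ℕ, ∀ w j : ℤ, 0 ≤ w → w ≤ 2 * m + 1 →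
      (Q (D.G (w + 2 * esh m N) (j + 2 * esh m N + 1) (cubG k m)) ↔ Q (D.G w j (aff k B)))
  single : ∀ X : Sch k, FT True X → ∃ m₀ : ℕ, ∀ m, m₀ ≤ m →
    ∃ N : ℕ, ∀ w j : ℤ, 0 ≤ w → w ≤ 2 * m + 1 →
      Q (D.G (w + 2 * esh m N) (j + 2 * esh m N + 1) (cubG k m)) → Q (D.G w j X)
  proj : ∀ Y : Sch k, SmoothProj Y → ∀ d : ℕ, ∃ m₀ : ℕ, ∀ m, m₀ ≤ m → ∃ e : ℕ, ∀ i : ℕ, i ≤ d →
    (Q (D.G (i + 2 * e) (i + 2 * e + 1) (cubG k m)) ↔ Q (D.G i i Y))

variable [Abelian A] {D : Pieces k A} {Q : A → Prop}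

omit [Abelian A] in
/-- **The sequence decides.** -/
theorem DecidesPieces.plain (h : DecidesPieces D Q) (htw : ∀ (t : ℤ) (N : A),
    Q ((D.tw t).obj N) ↔ Q N) : DecidesPlain D Q := by
  refine ⟨fun w => ?_, ?_, fun B _ _ _ => ?_, fun X hX => ?_, fun Y hY d => ?_⟩
  · have h1 := h.weight w 0
    simpa only [htw] using h1
  · have h1 := h.all
    simp only [htw] at h1
    tfae_have 1 → 2 := by
      intro g Y hY i
      have h2 := h1.out 0 1
      exact h2.mp (g.mono fun m hm j _ => hm j) Y hY i 0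
    tfae_have 2 → 3 := by
      intro g X hX w j
      have h2 := h1.out 1 2
      exact h2.mp (fun Y hY i _ => g Y hY i) X hX w j 0
    tfae_have 3 → 1 := fun g => Filter.Frequently.of_forall fun m j => g _ (ft_aff True) _ _
    tfae_finish
  · obtain ⟨m₀, hm⟩ := h.exact B
    refine ⟨m₀, fun m hm1 => ?_⟩
    obtain ⟨N, hN⟩ := hm m hm1
    refine ⟨N, fun w j h0 h2 => ?_⟩
    have h3 := hN w j 0 h0 h2
    rwa [htw, htw] at h3
  · obtain ⟨m₀, hm⟩ := h.single X hX
    refine ⟨m₀, fun m hm1 => ?_⟩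
    obtain ⟨N, hN⟩ := hm m hm1
    refine ⟨N, fun w j h0 h2 => ?_⟩
    have h3 := hN w j 0 h0 h2
    rwa [htw, htw] at h3
  · obtain ⟨m₀, hm⟩ := h.proj Y hY d
    refine ⟨m₀, fun m hm1 => ?_⟩
    obtain ⟨e, he⟩ := hm m hm1
    refine ⟨e, fun i hi => ?_⟩
    have h3 := he i hi 0
    rwa [htw, htw] at h3

end

section large

/-- The set of prime numbers `S` has positive lower density: the number of the elements `p ≤ n` of `S` is
at least `c π(n)`, for some `c > 0` and all large `n`. -/
def PosDens (S : Set ℕ) : Prop :=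
  ∃ c : ℝ, 0 < c ∧ ∀ᶠ n in Filter.atTop,
    c * (π n : ℝ) ≤ ((S ∩ {p | p.Prime ∧ p ≤ n}).ncard : ℝ)

/-- A family `L` of large sets of prime numbers: it contains all sets which contain a set in `L` up to
finitely many elements. -/
def IsLarge (L : Set ℕ → Prop) : Prop := ∀ S T : Set ℕ, L T → (T \ S).Finite → L S

lemma large_infinite : IsLarge Set.Infinite := by
  intro S T hT h hS
  exact hT ((h.union hS).subset fun x hx => by
    by_cases hxS : x ∈ S
    · exact Or.inr hxS
    · exact Or.inl ⟨hx, hxS⟩)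

lemma large_posDens : IsLarge PosDens := by
  rintro S T ⟨c, hc, hT⟩ hf
  refine ⟨c / 2, by positivity, ?_⟩
  have h1 : Filter.Tendsto (fun n : ℕ => (π n : ℝ)) Filter.atTop Filter.atTop :=
    tendsto_natCast_atTop_atTop.comp Nat.tendsto_primeCounting
  have h2 : ∀ᶠ n : ℕ in Filter.atTop, ((T \ S).ncard : ℝ) ≤ c / 2 * (π n : ℝ) :=
    (h1.const_mul_atTop (by positivity : (0 : ℝ) < c / 2)).eventually_ge_atTop _
  filter_upwards [hT, h2] with n h3 h4
  have hfin : ∀ R : Set ℕ, (R ∩ {p | p.Prime ∧ p ≤ n}).Finite := fun R =>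
    (Set.finite_Iic n).subset fun p hp => hp.2.2
  have h5 : (T ∩ {p | p.Prime ∧ p ≤ n}).ncard ≤
      (S ∩ {p | p.Prime ∧ p ≤ n}).ncard + (T \ S).ncard := by
    refine (Set.ncard_le_ncard (t := (S ∩ {p | p.Prime ∧ p ≤ n}) ∪ (T \ S)) ?_
      ((hfin S).union hf)).trans (Set.ncard_union_le _ _)
    rintro x ⟨hx, hx'⟩
    by_cases hxS : x ∈ S
    · exact Or.inl ⟨hxS, hx'⟩
    · exact Or.inr ⟨hx, hxS⟩
  have h6 : ((T ∩ {p | p.Prime ∧ p ≤ n}).ncard : ℝ) ≤
      ((S ∩ {p | p.Prime ∧ p ≤ n}).ncard : ℝ) + ((T \ S).ncard : ℝ) := by exact_mod_cast h5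
  linarith

variable {k : Type} [Field k] {A : Type u} [Category.{v} A] [Abelian A]

/-- The sets `ord N` of prime numbers (for example the primes at which the motive `N` is ordinary), up to
finitely many primes: a prime in `ord N'` is in `ord N` for direct factors `N` of `N'`, and for Tate
twists. -/
structure IsPlaces (D : Pieces k A) (ord : A → Set ℕ) : Prop where
  factor : ∀ {N N' : A}, Factor N N' → (ord N' \ ord N).Finite
  twist : ∀ (t : ℤ) (N : A), (ord N \ ord ((D.tw t).obj N)).Finite ∧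
    (ord ((D.tw t).obj N) \ ord N).Finite

/-- The set of primes `ord N` is large. -/
def Large (L : Set ℕ → Prop) (ord : A → Set ℕ) (N : A) : Prop := L (ord N)

/-- **Large sets of primes.** -/
theorem decides_large {D : Pieces k A} (hk : IsPrimeField k) (h : IsMot D) {ord : A → Set ℕ}
    (ho : IsPlaces D ord) {L : Set ℕ → Prop} (hL : IsLarge L) : DecidesPlain D (Large L ord) :=
  (decides_pieces hk h (fun hf hN => hL _ _ hN (ho.factor hf))).plain fun t N =>
    ⟨fun g => hL _ _ g (ho.twist t N).2, fun g => hL _ _ g (ho.twist t N).1⟩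

end large

end Pool.Agent.H367.OS
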