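import Pool.Agent.H367.OS.GSem
import Pool.Agent.H367.OS.GPlain
import Pool.Graph.R_pool_sql_team_seeded_2aa45f1a.Q148.LI.WM

/-!
# Purity of the monodromy filtration

The definitions (`OpAlg`, `fil`, `IsWeil`, `Pure`, `Twisted`, `PureAt`) are from the library
(`Pool.Agent.Q148.LI`).
-/

set_option autoImplicit false

open CategoryTheory CategoryTheory.Limits AlgebraicGeometry Pool.Agent.Y116.UV Pool.Agent.Z125.UN
  Pool.Agent.Q193.LT Pool.Agent.Q148.LI Pool.Agent.H854.SQ

universe w v u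

namespace Pool.Agent.H367.OS

variable {k : Type} [Field k] {M : Type u} [Category.{v} M] {E G : Type} [Field E]
  [CharZero E] {p : ℕ} {d : G → ℤ} {ω : ℤ → (M ⥤ ModuleCat.{w} (OpAlg E G))}

/-- Purity passes to direct factors. -/
lemma pureAt_closed : FactorClosed (PureAt p d ω) := by
  have hmap : ∀ {X Y : M} (m : ℤ) (f : X ⟶ Y) {j : ℤ} {x : (ω m).obj X},
      x ∈ fil E G ((ω m).obj X) j → ((ω m).map f).hom x ∈ fil E G ((ω m).obj Y) j := by
    intro X Y m f j x hx
    exact fil_map ((ω m).map f).hom.toAddMonoidHom (fun y => ((ω m).map f).hom.map_smul _ _) hx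
  rintro N N' ⟨i, r, hir⟩ hY m j g x c h1 h2 h3
  refine hY m j g (((ω m).map i).hom x) c (hmap m i h1) (fun h4 => h2 ?_) ?_
  · have h5 := hmap m r h4
    have h6 : ((ω m).map r).hom (((ω m).map i).hom x) = x := by
      rw [← ModuleCat.comp_apply, ← (ω m).map_comp, hir, (ω m).map_id, ModuleCat.id_apply]
    rwa [h6] at h5
  · have h5 := hmap m i h3
    rwa [map_sub, map_smul, map_smul] at h5

/-- The part of weight `m` of `N(a)` is the Tate twist by `a` of the part of weight `m + 2 a` of `N`. -/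
def IsTwisted (D : Pieces k M) (p : ℕ) (d : G → ℤ) (ω : ℤ → (M ⥤ ModuleCat.{w} (OpAlg E G))) :
    Prop :=
  ∀ (a m : ℤ) (N : M), Twisted p d a ((ω m).obj ((D.tw a).obj N)) ((ω (m + 2 * a)).obj N)

variable {D : Pieces k M}

lemma IsTwisted.to_twist [hp : Fact p.Prime] (h : IsTwisted D p d ω) (a : ℤ) {N : M}
    (hN : PureAt p d ω N) : PureAt p d ω ((D.tw a).obj N) := by
  intro m j g x c h1 h2 h3
  obtain ⟨e, he1, he2, he3⟩ := h a m N
  have hp0 : (p : E) ≠ 0 := by exact_mod_cast hp.out.ne_zero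
  have hf : ∀ {i : ℤ} {y : (ω m).obj ((D.tw a).obj N)}, y ∈ fil E G _ i → e y ∈ fil E G _ i :=
    fun hy => fil_map e.toAddMonoidHom he1 hy
  have hb : ∀ {i : ℤ} {y : (ω (m + 2 * a)).obj N}, y ∈ fil E G _ i → e.symm y ∈ fil E G _ i := by
    intro i y hy
    refine fil_map e.symm.toAddMonoidHom (fun z => ?_) hy
    apply e.injective
    change e (e.symm (opN E G • z)) = e (opN E G • e.symm z)
    rw [he1, e.apply_symm_apply, e.apply_symm_apply]
  have h4 : e x ∉ fil E G _ (j - 1) := fun h5 => h2 (by simpa using hb h5)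
  have h5 := fil_scal ((p : E) ^ (a * d g)) (hf h3)
  have h6 : scal G ((p : E) ^ (a * d g)) • e (op E g • x - scal G c • x) =
      op E g • e x - scal G ((p : E) ^ (a * d g) * c) • e x := by
    rw [map_sub, he3, he2, smul_sub, ← mul_smul, ← mul_assoc, ← mul_smul,
      scal_mul, scal_mul, ← zpow_add₀ hp0, add_neg_cancel, zpow_zero, scal_one, one_mul]
  rw [h6] at h5
  have h7 := (hN (m + 2 * a) j g (e x) _ (hf h1) h4 h5).mul (-(a * d g))
  have h8 : (m + 2 * a + j) * d g + 2 * -(a * d g) = (m + j) * d g := by ring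
  have h9 : (p : E) ^ (-(a * d g)) * ((p : E) ^ (a * d g) * c) = c := by
    rw [← mul_assoc, ← zpow_add₀ hp0, neg_add_cancel, zpow_zero, one_mul]
  rwa [h8, h9] at h7

variable [Abelian M]

/-- Purity does not depend on Tate twists. -/
lemma IsTwisted.twist [Fact p.Prime] (hD : IsPieces D) (h : IsTwisted D p d ω) (t : ℤ) (N : M) :
    PureAt p d ω ((D.tw t).obj N) ↔ PureAt p d ω N := by
  refine ⟨fun g => ?_, h.to_twist t⟩
  obtain ⟨e⟩ := hD.tw_inv t N
  exact pureAt_closed ⟨e.inv, e.hom, e.inv_hom_id⟩ (h.to_twist (-t) g)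

/-- **The sequence decides the purity of the monodromy filtration.** -/
theorem decides_pure [Fact p.Prime] (hk : IsPrimeField k) (h : IsMot D) (ht : IsTwisted D p d ω) :
    DecidesPlain D (PureAt p d ω) :=
  (decides_pieces hk h pureAt_closed).plain (ht.twist h.pieces)

end Pool.Agent.H367.OS
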