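import Pool.Agent.H367.OS.GSer

/-!
# Semisimple objects
-/

set_option autoImplicit false

open CategoryTheory CategoryTheory.Limits AlgebraicGeometry Pool.Agent.Y116.UV
  Pool.Agent.Q193.LT Pool.Agent.H854.SQ

universe w v u v' u'

namespace Pool.Agent.H367.OS

section

variable {A : Type u} [Category.{v} A]

/-- Every subobject of `N` is a direct factor. -/
def SemiObj (N : A) : Prop := ∀ (P : A) (i : P ⟶ N), Mono i → ∃ r : N ⟶ P, i ≫ r = 𝟙 P

lemma SemiObj.of_mono {M N : A} (j : M ⟶ N) (hj : Mono j) (hN : SemiObj N) : SemiObj M := by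
  intro P i hi
  obtain ⟨r, hr⟩ := hN P (i ≫ j) (mono_comp i j)
  exact ⟨j ≫ r, by rw [← Category.assoc, hr]⟩

lemma SemiObj.map {B : Type u'} [Category.{v'} B] (F : A ⥤ B) [F.IsEquivalence] {N : A}
    (h : SemiObj N) : SemiObj (F.obj N) := by
  intro P i hi
  let e := F.objObjPreimageIso P
  have h1 : Mono (e.hom ≫ i) := inferInstance
  let i' : F.objPreimage P ⟶ N := F.preimage (e.hom ≫ i)
  have h2 : F.map i' = e.hom ≫ i := F.map_preimage _
  have h3 : Mono i' := by
    have : Mono (F.map i') := by rw [h2]; exact h1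
    exact F.mono_of_mono_map this
  obtain ⟨r, hr⟩ := h _ i' h3
  refine ⟨F.map r ≫ e.hom, ?_⟩
  have h4 : i = e.inv ≫ F.map i' := by rw [h2, Iso.inv_hom_id_assoc]
  rw [h4, Category.assoc, ← F.map_comp_assoc, hr, F.map_id, Category.id_comp, Iso.inv_hom_id]

variable [Abelian A]

lemma SemiObj.of_epi {M N : A} (p : N ⟶ M) (hp : Epi p) (hN : SemiObj N) : SemiObj M := by
  obtain ⟨r, hr⟩ := hN _ (kernel.ι p) inferInstance
  let S : ShortComplex A := ShortComplex.mk (kernel.ι p) p (kernel.condition p)
  have hS : S.Exact := ShortComplex.exact_of_f_is_kernel S (kernelIsKernel p)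
  have hg : Epi S.g := hp
  let s : S.Splitting := ShortComplex.Splitting.ofExactOfRetraction S hS r hr hg
  have h1 : Mono (s.s ≫ p) := by
    have h2 : s.s ≫ p = 𝟙 M := s.s_g
    rw [h2]
    infer_instance
  exact hN.of_mono s.s (mono_of_mono s.s p)

lemma semiObj_closed : SubClosed (A := A) SemiObj := by
  rintro M N ⟨P, i, p, hi, hp⟩ hN
  exact (hN.of_mono i hi).of_epi p hp

end

section

variable {Λ : Type u'} [Ring Λ]

/-- For modules this is the usual notion. -/
theorem semiObj_iff (N : ModuleCat.{w} Λ) : SemiObj N ↔ IsSemisimpleModule Λ N := by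
  constructor
  · intro h
    refine (isSemisimpleModule_iff Λ N).mpr ⟨fun P => ?_⟩
    obtain ⟨r, hr⟩ := h (ModuleCat.of Λ P) (ModuleCat.ofHom P.subtype)
      ((ModuleCat.mono_iff_injective _).mpr P.injective_subtype)
    refine ⟨LinearMap.ker r.hom, LinearMap.isCompl_of_proj fun x => ?_⟩
    have h1 := congrArg (fun f : ModuleCat.of Λ P ⟶ ModuleCat.of Λ P => f.hom x) hr
    simpa using h1
  · intro h P i hi
    obtain ⟨r, hr⟩ := IsSemisimpleModule.extension_property i.hom
      ((ModuleCat.mono_iff_injective _).mp hi) LinearMap.id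
    exact ⟨ModuleCat.ofHom r, by ext x; exact LinearMap.congr_fun hr x⟩

end

section

variable {k : Type} [Field k] {A : Type u} [Category.{v} A] [Abelian A] {D : Pieces k A}

lemma IsPieces.semi_twist (hD : IsPieces D) (t : ℤ) (N : A) :
    SemiObj ((D.tw t).obj N) ↔ SemiObj N := by
  have h1 := hD.tw_equiv t
  have h2 := hD.tw_equiv (-t)
  constructor
  · intro h
    obtain ⟨e⟩ := hD.tw_inv t N
    exact (h.map (D.tw (-t))).of_mono e.inv inferInstance
  · exact fun h => h.map (D.tw t)

/-- **Semisimple pieces.** The pieces of weight `j - 1` of `H^j_c` of the hypersurfaces `G_m = 1` are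
semisimple for all `j` and infinitely many `m`, if and only if `H^i(Y)` is semisimple for all smooth
projective `Y` and all `i`, and if and only if all pieces of all separated schemes of finite type are
semisimple. -/
theorem semi_tfae (hk : IsPrimeField k) (h : IsGeo D) : List.TFAE [
    ∃ᶠ m in Filter.atTop, ∀ j : ℕ, SemiObj (D.G (j - 1) j (cubG k m)),
    ∀ Y : Sch k, SmoothProj Y → ∀ i : ℕ, SemiObj (D.G i i Y),
    ∀ X : Sch k, FT True X → ∀ w j : ℤ, SemiObj (D.G w j X)] := by
  have h1 := (decides_twists hk h (semiObj_closed (A := A))).all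
  simp only [h.pieces.semi_twist] at h1
  tfae_have 1 → 2 := by
    intro g Y hY i
    have h2 := h1.out 0 1
    exact h2.mp (g.mono fun m hm j _ => hm j) Y hY i 0
  tfae_have 2 → 3 := by
    intro g X hX w j
    have h2 := h1.out 1 2
    exact h2.mp (fun Y hY i _ => g Y hY i) X hX w j 0
  tfae_have 3 → 1 := fun g => Filter.Frequently.of_forall fun m j => g _ (ft_aff True) _ _
  tfae_finish

end

end Pool.Agent.H367.OS
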