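import Pool.Agent.H367.OS.GSub
import Pool.Graph.R_pool_sql_team_seeded_2aa45f1a.Q193.LT.Origin

/-!
# Serre classes, and simple objects which occur in one degree of the cohomology
-/

set_option autoImplicit false

open CategoryTheory CategoryTheory.Limits AlgebraicGeometry Pool.Agent.Y116.UV Pool.Agent.Z125.UN
  Pool.Agent.Q193.LT Pool.Agent.H854.SQ

universe v u

namespace Pool.Agent.H367.OS

section

variable {A : Type u} [Category.{v} A] [Abelian A]

/-- A class of objects which is closed under subquotients and extensions. -/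
structure SerreClass (S : A → Prop) : Prop where
  sub : SubClosed S
  mid : ∀ {P Q R : A} (f : P ⟶ Q) (g : Q ⟶ R) (w : f ≫ g = 0),
    (ShortComplex.mk f g w).Exact → S P → S R → S Q

/-- The simple object `ρ` does not occur in `N`. -/
lemma not_subQ (ρ : A) [Simple ρ] : SerreClass fun N => ¬ SubQ ρ N where
  sub := fun h hN h1 => hN (SubQuot.trans (show SubQuot ρ _ from h1) h)
  mid f g w hex hP hR hQ := by
    rcases SubQ.mid f g w hex hQ with h | h
    · exact hP h
    · exact hR h

/-- All simple subquotients of `N` have the property `Q`. -/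
def AllSimple (Q : A → Prop) (N : A) : Prop := ∀ ρ : A, Simple ρ → SubQ ρ N → Q ρ

lemma allSimple_serre (Q : A → Prop) : SerreClass (AllSimple Q) where
  sub := fun h hN ρ hρ h1 => hN ρ hρ (SubQuot.trans (show SubQuot ρ _ from h1) h)
  mid f g w hex hP hR ρ hρ hQ := by
    rcases SubQ.mid f g w hex hQ with h | h
    · exact hP ρ hρ h
    · exact hR ρ hρ h

end

section

variable {k : Type} [Field k] {A : Type u} [Category.{v} A] [Abelian A] {D : Pieces k A}

/-- The pieces of weight `w` of `H^w_c` of all schemes, if the pieces of all affine schemes are in the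
Serre class. -/
theorem top_serre (hD : IsPieces D) {S : A → Prop} (hS : SerreClass S) (w t : ℤ)
    (h : ∀ (B : Type) [CommRing B] [Algebra k B] [Algebra.FiniteType k B],
      S ((D.tw t).obj (D.G w w (aff k B)))) (X : Sch k) (hX : FT True X) :
    S ((D.tw t).obj (D.G w w X)) := by
  have := hD.tw_equiv t
  have := hD.twAdditive t
  refine of_affine' (sep := True) (P := fun X : Sch k => S ((D.tw t).obj (D.G w w X)))
    ?_ ?_ (fun B _ _ _ => h B) X hX
  · intro X Y hX e hY
    obtain ⟨e'⟩ := hD.iso hX e w w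
    exact hS.sub (SubQuot.of_iso ((D.tw t).mapIso e').symm) hY
  · intro Z X U i j hX ht hZ hU
    obtain ⟨a, b, d, hab, hbd, hda, e1, e2, e3⟩ := hD.exact i j hX ht w
    exact hS.mid _ _ _ ((e1 w).map (D.tw t)) hU hZ

/-- **One degree and a Serre class.** Let `e = (m + 1) N + E_m - 1` (`esh m N`). The single objects
`Gr^W_{w+2e} H^{w+2e+1}_c(t + e)` of the hypersurfaces `G_m = 1`, for all `N` and infinitely many `m`, are
in the Serre class if and only if `H^w(Y)(t)` is for all smooth projective `Y`, and if and only if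
`Gr^W_w H^j_c(X)(t)` is for all separated schemes `X` of finite type and all `j`. -/
theorem weight_serre (hk : IsPrimeField k) (h : IsGeo D) {S : A → Prop} (hS : SerreClass S)
    (w : ℕ) (t : ℤ) : List.TFAE [
    ∃ᶠ m in Filter.atTop, ∀ N : ℕ, S ((D.tw (t + esh m N)).obj
      (D.G (w + 2 * esh m N) (w + 2 * esh m N + 1) (cubG k m))),
    ∀ Y : Sch k, SmoothProj Y → S ((D.tw t).obj (D.G w w Y)),
    ∀ X : Sch k, FT True X → ∀ j : ℤ, S ((D.tw t).obj (D.G w j X))] := by
  have := h.pieces.tw_equiv t
  tfae_have 1 → 2 := by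
    intro g Y hY
    refine top_serre h.pieces hS w t (fun B _ _ _ => ?_) Y hY.ft
    obtain ⟨m₀, hm⟩ := exact_affine hk h.pieces (SubClosed.iso hS.sub) B
    obtain ⟨m, hm1, hm2⟩ := (Filter.frequently_atTop.1 g) (max m₀ w)
    obtain ⟨N, hN⟩ := hm m ((le_max_left _ _).trans hm1)
    have h1 : (w : ℤ) ≤ m := by exact_mod_cast (le_max_right _ _).trans hm1
    exact (hN w w t (by positivity) (by linarith)).mp (hm2 N)
  tfae_have 2 → 3 := by
    intro g X hX j
    obtain ⟨Y, hY, hf⟩ := h.ofProj X hX w j
    exact hS.sub (hf.map (D.tw t)) (g Y hY)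
  tfae_have 3 → 1 := by
    intro g
    refine Filter.Eventually.frequently ?_
    filter_upwards [Filter.eventually_ge_atTop (max w 1)] with m hm N
    have h1 : (w : ℤ) ≤ m := by exact_mod_cast (le_max_left _ _).trans hm
    rcases h.pieces.cases N (by positivity) (show (w : ℤ) ≤ 2 * m + 1 by linarith) (w : ℤ) with
      ⟨s, rfl⟩ | hz | hj
    · obtain ⟨e⟩ := h.pieces.back (h.pieces.dict ((le_max_right _ _).trans hm) s (by positivity)
        (show (w : ℤ) ≤ 2 * m + 1 by linarith) (w : ℤ)) t
      exact hS.sub (SubQuot.of_iso e) (g _ (ft_aff True) _)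
    · exact hS.sub (SubQuot.zero (h.pieces.tw_zero _ hz) _) (g (aff k k) (ft_aff True) 0)
    · omega
  tfae_finish

/-- **Simple objects in one degree.** A simple object `ρ` is a subquotient of `H^w(Y)(t)` for some smooth
projective `Y` if and only if for all large `m` it is a subquotient of the single object
`Gr^W_{w+2e} H^{w+2e+1}_c(t + e)` of the hypersurface `G_m = 1`, for some `N`. -/
theorem simple_weight (hk : IsPrimeField k) (h : IsGeo D) (ρ : A) [Simple ρ] (w : ℕ) (t : ℤ) :
    (∃ Y : Sch k, SmoothProj Y ∧ SubQ ρ ((D.tw t).obj (D.G w w Y))) ↔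
      ∀ᶠ m in Filter.atTop, ∃ N : ℕ, SubQ ρ ((D.tw (t + esh m N)).obj
        (D.G (w + 2 * esh m N) (w + 2 * esh m N + 1) (cubG k m))) := by
  have h1 := (weight_serre hk h (not_subQ ρ) w t).out 0 1
  rw [← not_iff_not, Filter.not_eventually]
  push Not
  exact h1.symm

/-- The hypersurfaces `G_m = 1` decide the property `S`, which is closed under subquotients and
extensions (see `weight_serre`, `DecidesTwists`). -/
structure DecidesSerre (D : Pieces k A) (S : A → Prop) : Prop where
  weight : ∀ (w : ℕ) (t : ℤ), List.TFAE [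
    ∃ᶠ m in Filter.atTop, ∀ N : ℕ, S ((D.tw (t + esh m N)).obj
      (D.G (w + 2 * esh m N) (w + 2 * esh m N + 1) (cubG k m))),
    ∀ Y : Sch k, SmoothProj Y → S ((D.tw t).obj (D.G w w Y)),
    ∀ X : Sch k, FT True X → ∀ j : ℤ, S ((D.tw t).obj (D.G w j X))]
  twists : DecidesTwists D S

theorem decides_serre (hk : IsPrimeField k) (h : IsGeo D) {S : A → Prop} (hS : SerreClass S) :
    DecidesSerre D S :=
  ⟨weight_serre hk h hS, decides_twists hk h hS.sub⟩

end

end Pool.Agent.H367.OS
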