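import Pool.Agent.H367.OS.OFac

/-!
# Properties which pass to subquotients, and objects which come from geometry

Here the category need not be semisimple: for example the category of the `ℓ`-adic representations of
the Galois group of the prime field.
-/

set_option autoImplicit false

open CategoryTheory CategoryTheory.Limits AlgebraicGeometry Pool.Agent.Y116.UV
  Pool.Agent.Q193.LT Pool.Agent.H854.SQ

universe v u v' u'

namespace Pool.Agent.H367.OS

section

variable {A : Type u} [Category.{v} A]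

/-- `M` is a subquotient of `N`: a quotient of a subobject. -/
def SubQuot (M N : A) : Prop := ∃ (P : A) (i : P ⟶ N) (p : P ⟶ M), Mono i ∧ Epi p

lemma SubQuot.refl (M : A) : SubQuot M M := ⟨M, 𝟙 M, 𝟙 M, inferInstance, inferInstance⟩

lemma SubQuot.of_iso {M N : A} (e : M ≅ N) : SubQuot M N :=
  ⟨M, e.hom, 𝟙 M, inferInstance, inferInstance⟩

lemma SubQuot.of_factor {M N : A} (h : Factor M N) : SubQuot M N := by
  obtain ⟨i, r, e⟩ := h
  have : Mono (i ≫ r) := by rw [e]; infer_instance
  exact ⟨M, i, 𝟙 M, mono_of_mono i r, inferInstance⟩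

lemma SubQuot.map {B : Type u'} [Category.{v'} B] (F : A ⥤ B) [F.IsEquivalence] {M N : A}
    (h : SubQuot M N) : SubQuot (F.obj M) (F.obj N) := by
  obtain ⟨P, i, p, hi, hp⟩ := h
  exact ⟨F.obj P, F.map i, F.map p, inferInstance, inferInstance⟩

variable [Abelian A]

lemma SubQuot.trans {M N L : A} (h : SubQuot M N) (h' : SubQuot N L) : SubQuot M L := by
  obtain ⟨P, i, p, hi, hp⟩ := h
  obtain ⟨Q, j, q, hj, hq⟩ := h'
  refine ⟨pullback i q, pullback.snd i q ≫ j, pullback.fst i q ≫ p, ?_, ?_⟩
  · exact mono_comp _ _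
  · exact epi_comp _ _

lemma SubQuot.zero {M : A} (h : IsZero M) (N : A) : SubQuot M N :=
  ⟨M, 0, 𝟙 M, ⟨fun _ _ _ => h.eq_of_tgt _ _⟩, inferInstance⟩

omit [Abelian A] in
/-- The property `Q` passes to subquotients. -/
def SubClosed (Q : A → Prop) : Prop := ∀ {M N : A}, SubQuot M N → Q N → Q M

omit [Abelian A] in
lemma SubClosed.factor {Q : A → Prop} (h : SubClosed Q) : FactorClosed Q :=
  fun hf hN => h (SubQuot.of_factor hf) hN

omit [Abelian A] in
lemma SubClosed.iso {Q : A → Prop} (h : SubClosed Q) : IsoInv Q :=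
  fun e hM => h (SubQuot.of_iso e.symm) hM

/-- All subquotients of `N` have the property `Q`. -/
def AllSub (Q : A → Prop) (N : A) : Prop := ∀ R : A, SubQuot R N → Q R

lemma allSub_closed (Q : A → Prop) : SubClosed (AllSub Q) :=
  fun h hN R hR => hN R (hR.trans h)

omit [Abelian A] in
/-- The realization is a semisimple module. -/
lemma semisimple_sub {Λ : Type u'} [Ring Λ] (ω : A ⥤ ModuleCat.{v'} Λ) [ω.PreservesMonomorphisms]
    [ω.PreservesEpimorphisms] : SubClosed (Semisimple ω) := by
  rintro M N ⟨P, i, p, hi, hp⟩ (hN : IsSemisimpleModule Λ (ω.obj N))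
  have h1 : IsSemisimpleModule Λ (ω.obj P) :=
    IsSemisimpleModule.of_injective (ω.map i).hom
      ((ModuleCat.mono_iff_injective _).mp inferInstance)
  exact IsSemisimpleModule.of_surjective (ω.map p).hom
    ((ModuleCat.epi_iff_surjective _).mp inferInstance)

end

section

variable {k : Type} [Field k] {A : Type u} [Category.{v} A] [Abelian A] {D : Pieces k A}

lemma IsPieces.tw_equiv (hD : IsPieces D) (a : ℤ) : (D.tw a).IsEquivalence := by
  obtain ⟨e0⟩ := hD.twZero
  obtain ⟨e1⟩ := hD.twAdd a (-a)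
  obtain ⟨e2⟩ := hD.twAdd (-a) a
  have h1 : a + -a = 0 := by ring
  have h2 : -a + a = 0 := by ring
  rw [h1] at e1
  rw [h2] at e2
  exact (CategoryTheory.Equivalence.mk (D.tw a) (D.tw (-a)) (e1 ≪≫ e0).symm
    (e2 ≪≫ e0)).isEquivalence_functor

/-- The standard properties of the weight graded pieces of the cohomology with compact supports, in an
abelian category which need not be semisimple:

* `pieces`: exact sequences, affine bundles, the cohomology of affine spaces, weights in `[0, 2 dim]` for
  affine schemes;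
* `device`: every smooth projective scheme has an affine bundle whose total space is affine (Jouanolou);
* `ofProj`: every piece of weight `w` is a subquotient of `H^w(Y)` for a smooth projective `Y`;
* `low`: there are no negative weights. -/
structure IsGeo (D : Pieces k A) : Prop where
  pieces : IsPieces D
  device : Device D
  ofProj : ∀ X : Sch k, FT True X → ∀ w j : ℤ, ∃ Y : Sch k, SmoothProj Y ∧
    SubQuot (D.G w j X) (D.G w w Y)
  low : ∀ X : Sch k, FT True X → ∀ w j : ℤ, w < 0 → IsZero (D.G w j X)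

lemma IsMot.geo (h : IsMot D) : IsGeo D where
  pieces := h.pieces
  device := h.device
  ofProj X hX w j := by
    obtain ⟨Y, hY, hf⟩ := h.ofProj X hX w j
    exact ⟨Y, hY, SubQuot.of_factor hf⟩
  low X hX w j hw := by
    obtain ⟨B, _, _, hB, h'⟩ := exists_affine_factor.{v, u} X hX
    obtain ⟨i, r, hir⟩ := h' A D h.pieces h.disj h.splits w j
    rw [IsZero.iff_id_eq_zero, ← hir, (h.pieces.low B w j hw).eq_zero_of_tgt i, zero_comp]

variable {Q : A → Prop}

/-- The hypersurfaces `G_m = 1` decide the property `Q` of all Tate twists of the pieces of the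
cohomology with compact supports. Let `e = (m + 1) N + E_m - 1` (`esh m N`).

* The property `Q` of all twists of the pieces of weight `j - 1` of `H^j_c` of the hypersurfaces
  `G_m = 1`, for all `j` and infinitely many `m`, is equivalent to the property `Q` of all twists of
  `H^i(Y)` for all smooth projective schemes `Y` and all `i`, and of all twists of all pieces of all
  separated schemes of finite type.
* For every affine scheme `Spec B` of finite type and all large `m` there is an `N` such that for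
  `0 ≤ w ≤ 2 m + 1`, all `j` and all `t` the property `Q` of `Gr^W_w H^j_c(Spec B)(t)` is equivalent to
  the property `Q` of `Gr^W_{w+2e} H^{j+2e+1}_c(t + e)` of the hypersurface `G_m = 1`.
* For every smooth projective scheme `Y`, every `d` and all large `m` there is an `e'` such that for all
  `i ≤ d` and all `t` the property `Q` of `H^i(Y)(t)` is equivalent to the property `Q` of
  `Gr^W_{i+2e'} H^{i+2e'+1}_c(t + e')` of the hypersurface `G_m = 1`.
* For every separated scheme `X` of finite type, all `w ≥ 0` and `j` and all large `m` there is an `e'`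
  such that for all `t` the property `Q` of `Gr^W_{w+2e'} H^{w+2e'+1}_c(t + e')` of the hypersurface
  `G_m = 1` implies the property `Q` of `Gr^W_w H^j_c(X)(t)`. -/
structure DecidesTwists (D : Pieces k A) (Q : A → Prop) : Prop where
  all : List.TFAE [
    ∃ᶠ m in Filter.atTop, ∀ (j : ℕ) (t : ℤ), Q ((D.tw t).obj (D.G (j - 1) j (cubG k m))),
    ∀ Y : Sch k, SmoothProj Y → ∀ (i : ℕ) (t : ℤ), Q ((D.tw t).obj (D.G i i Y)),
    ∀ X : Sch k, FT True X → ∀ w j t : ℤ, Q ((D.tw t).obj (D.G w j X))]
  exact : ∀ (B : Type) [CommRing B] [Algebra k B] [Algebra.FiniteType k B], ∃ m₀ : ℕ, ∀ m, m₀ ≤ m →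
    ∃ N : ℕ, ∀ w j t : ℤ, 0 ≤ w → w ≤ 2 * m + 1 →
      (Q ((D.tw (t + esh m N)).obj (D.G (w + 2 * esh m N) (j + 2 * esh m N + 1) (cubG k m))) ↔
        Q ((D.tw t).obj (D.G w j (aff k B))))
  proj : ∀ Y : Sch k, SmoothProj Y → ∀ d : ℕ, ∃ m₀ : ℕ, ∀ m, m₀ ≤ m → ∃ e : ℕ, ∀ i : ℕ, i ≤ d →
    ∀ t : ℤ, (Q ((D.tw (t + e)).obj (D.G (i + 2 * e) (i + 2 * e + 1) (cubG k m))) ↔
      Q ((D.tw t).obj (D.G i i Y)))
  single : ∀ X : Sch k, FT True X → ∀ (w : ℕ) (j : ℤ), ∃ m₀ : ℕ, ∀ m, m₀ ≤ m → ∃ e : ℕ, ∀ t : ℤ,
    Q ((D.tw (t + e)).obj (D.G (w + 2 * e) (w + 2 * e + 1) (cubG k m))) →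
      Q ((D.tw t).obj (D.G w j X))

/-- **The sequence decides** properties which pass to subquotients. -/
theorem decides_twists (hk : IsPrimeField k) (h : IsGeo D) (hQ : SubClosed Q) :
    DecidesTwists D Q := by
  have hp := exact_proj hk h.pieces h.device hQ.iso
  have htw := fun t : ℤ => h.pieces.tw_equiv t
  have h12 : (∃ᶠ m in Filter.atTop, ∀ (j : ℕ) (t : ℤ),
      Q ((D.tw t).obj (D.G (j - 1) j (cubG k m)))) →
      ∀ Y : Sch k, SmoothProj Y → ∀ (i : ℕ) (t : ℤ), Q ((D.tw t).obj (D.G i i Y)) :=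
    (decides_proj hk h.pieces h.device hQ.iso).all
  refine ⟨?_, fun B _ _ _ => exact_affine hk h.pieces hQ.iso B, hp, ?_⟩
  · tfae_have 1 → 2 := h12
    tfae_have 2 → 3 := by
      intro g X hX w j t
      have := htw t
      rcases lt_or_ge w 0 with hw | hw
      · obtain ⟨Y, hY, -⟩ := h.ofProj X hX w j
        exact hQ (SubQuot.zero (h.pieces.tw_zero t (h.low X hX w j hw)) _) (g Y hY 0 0)
      · obtain ⟨Y, hY, hf⟩ := h.ofProj X hX w j
        lift w to ℕ using hw
        exact hQ (hf.map (D.tw t)) (g Y hY w t)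
    tfae_have 3 → 1 := fun g => Filter.Frequently.of_forall fun m j t => g _ (ft_aff True) _ _ _
    tfae_finish
  · intro X hX w j
    obtain ⟨Y, hY, hf⟩ := h.ofProj X hX w j
    obtain ⟨m₀, hm⟩ := hp Y hY w
    refine ⟨m₀, fun m hm1 => ?_⟩
    obtain ⟨e, he⟩ := hm m hm1
    refine ⟨e, fun t h1 => ?_⟩
    have := htw t
    exact hQ (hf.map (D.tw t)) ((he w le_rfl t).mp h1)

/-- The object `V` comes from geometry: it is a subquotient of a Tate twist of `H^i(Y)`, for a smooth
projective scheme `Y` over `k`. -/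
def FromGeometry (D : Pieces k A) (V : A) : Prop :=
  ∃ (Y : Sch k) (i : ℕ) (t : ℤ), SmoothProj Y ∧ SubQuot V ((D.tw t).obj (D.G i i Y))

/-- The object `V` occurs in the hypersurface `G_m = 1`: it is a subquotient of a Tate twist of the piece of
weight `j - 1` of `H^j_c`, for some `j`. -/
def OccursIn (D : Pieces k A) (m : ℕ) (V : A) : Prop :=
  ∃ j t : ℤ, SubQuot V ((D.tw t).obj (D.G (j - 1) j (cubG k m)))

/-- **Objects which come from geometry.** The following are equivalent: `V` comes from geometry; `V` occurs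
in the hypersurface `G_m = 1` for all large `m`; `V` occurs in `G_m = 1` for some `m`; `V` is a
subquotient of a Tate twist of a piece of the cohomology with compact supports of a separated scheme of
finite type. -/
theorem from_geometry (hk : IsPrimeField k) (h : IsGeo D) (V : A) : List.TFAE [
    FromGeometry D V,
    ∀ᶠ m in Filter.atTop, OccursIn D m V,
    ∃ m, OccursIn D m V,
    ∃ (X : Sch k) (w j t : ℤ), FT True X ∧ SubQuot V ((D.tw t).obj (D.G w j X))] := by
  tfae_have 1 → 2 := by
    rintro ⟨Y, i, t, hY, hV⟩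
    obtain ⟨m₀, hm⟩ := pieces_proj hk h.pieces h.device Y hY i
    filter_upwards [Filter.eventually_ge_atTop m₀] with m hm1
    obtain ⟨e, he⟩ := hm m hm1
    obtain ⟨g⟩ := h.pieces.back (he i i (by positivity) le_rfl) t
    refine ⟨i + 2 * e + 1, t + e, ?_⟩
    rw [add_sub_cancel_right]
    exact hV.trans (SubQuot.of_iso g.symm)
  tfae_have 2 → 3 := fun g => g.exists
  tfae_have 3 → 4 := fun ⟨m, j, t, hV⟩ => ⟨cubG k m, j - 1, j, t, ft_aff True, hV⟩
  tfae_have 4 → 1 := by
    rintro ⟨X, w, j, t, hX, hV⟩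
    have := h.pieces.tw_equiv t
    obtain ⟨Y, hY, hf⟩ := h.ofProj X hX w j
    rcases lt_or_ge w 0 with hw | hw
    · refine ⟨Y, 0, 0, hY, hV.trans (SubQuot.zero ?_ _)⟩
      exact h.pieces.tw_zero t (h.low X hX w j hw)
    · lift w to ℕ using hw
      exact ⟨Y, w, t, hY, hV.trans (hf.map (D.tw t))⟩
  tfae_finish

end

end Pool.Agent.H367.OS
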