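import Pool.Agent.H367.OS.GPlain

/-!
# Ranks and multiplicities

For motives modulo numerical equivalence over a finite field: the dimension `rk N r` of
`Hom(1(-r), N)` is at most the multiplicity `mu N r` of `q ^ r` as an eigenvalue of Frobenius.
-/

set_option autoImplicit false

open CategoryTheory CategoryTheory.Limits AlgebraicGeometry Pool.Agent.Y116.UV
  Pool.Agent.Q193.LT Pool.Agent.H854.SQ

universe v u

namespace Pool.Agent.H367.OS

variable {k : Type} [Field k] {A : Type u} [Category.{v} A] [Abelian A]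

/-- Properties of the numbers `rk N r` (the rank of the group of the algebraic classes) and `mu N r` (the
multiplicity of the eigenvalue `q ^ r` of Frobenius):

* `le`: the rank is at most the multiplicity;
* `factor`: the difference for a direct factor is at most the difference for the object (both numbers
  are additive);
* `rkTwist`, `muTwist`: Tate twists;
* `pure`: on the part of weight `w` the eigenvalues have absolute value `q ^ (w / 2)`. -/
structure IsRanks (D : Pieces k A) (rk mu : A → ℤ → ℕ) : Prop where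
  le : ∀ N r, rk N r ≤ mu N r
  factor : ∀ {N N' : A}, Factor N N' → ∀ r, mu N r + rk N' r ≤ mu N' r + rk N r
  rkTwist : ∀ (t : ℤ) (N : A) (r : ℤ), rk ((D.tw t).obj N) r = rk N (r + t)
  muTwist : ∀ (t : ℤ) (N : A) (r : ℤ), mu ((D.tw t).obj N) r = mu N (r + t)
  pure : ∀ X : Sch k, FT True X → ∀ w j r : ℤ, w ≠ 2 * r → mu (D.G w j X) r = 0

/-- The ranks are equal to the multiplicities. -/
def TateObj (rk mu : A → ℤ → ℕ) (N : A) : Prop := ∀ r : ℤ, rk N r = mu N r

variable {D : Pieces k A} {rk mu : A → ℤ → ℕ}

omit [Abelian A] in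
lemma IsRanks.closed (h : IsRanks D rk mu) : FactorClosed (TateObj rk mu) := by
  intro N N' hf hN r
  have h1 := h.factor hf r
  have h2 := h.le N r
  have h3 := hN r
  omega

omit [Abelian A] in
lemma IsRanks.twist (h : IsRanks D rk mu) (t : ℤ) (N : A) :
    TateObj rk mu ((D.tw t).obj N) ↔ TateObj rk mu N := by
  constructor
  · intro g r
    have h1 := g (r - t)
    rwa [h.rkTwist, h.muTwist, sub_add_cancel] at h1
  · intro g r
    rw [h.rkTwist, h.muTwist]
    exact g _

omit [Abelian A] in
/-- On a piece of weight `2 r` only the eigenvalue `q ^ r` matters. -/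
lemma IsRanks.piece (h : IsRanks D rk mu) {X : Sch k} (hX : FT True X) (w j r : ℤ)
    (hw : w = 2 * r) : TateObj rk mu (D.G w j X) ↔ rk (D.G w j X) r = mu (D.G w j X) r := by
  refine ⟨fun g => g r, fun g r' => ?_⟩
  by_cases hr : r' = r
  · rw [hr, g]
  · have h1 := h.pure X hX w j r' (by omega)
    have h2 := h.le (D.G w j X) r'
    omega

/-- **Ranks and multiplicities.** -/
theorem decides_ranks (hk : IsPrimeField k) (h : IsMot D) (hr : IsRanks D rk mu) :
    DecidesPlain D (TateObj rk mu) :=
  (decides_pieces hk h hr.closed).plain hr.twist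

/-- **One codimension.** The rank is equal to the multiplicity in `H^{2r}(Y)` for all smooth projective `Y`
if and only if this is true for the single pieces of weight `2 r + 2 e` of `H^{2 r + 2 e + 1}_c` of the
hypersurfaces `G_m = 1`, for all `N` and infinitely many `m`. -/
theorem ranks_weight (hk : IsPrimeField k) (h : IsMot D) (hr : IsRanks D rk mu) (r : ℕ) :
    (∀ Y : Sch k, SmoothProj Y → rk (D.G (2 * r) (2 * r) Y) r = mu (D.G (2 * r) (2 * r) Y) r) ↔
      ∃ᶠ m in Filter.atTop, ∀ N : ℕ,
        rk (D.G (2 * (r + esh m N)) (2 * (r + esh m N) + 1) (cubG k m)) (r + esh m N) =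
          mu (D.G (2 * (r + esh m N)) (2 * (r + esh m N) + 1) (cubG k m)) (r + esh m N) := by
  have h1 := ((decides_ranks hk h hr).weight (2 * r)).out 1 0
  have h2 : ((2 * r : ℕ) : ℤ) = 2 * (r : ℤ) := by push_cast; ring
  rw [h2] at h1
  refine Iff.trans ?_ (h1.trans ?_)
  · exact forall₂_congr fun Y hY => (hr.piece hY.ft _ _ r rfl).symm
  · refine Filter.frequently_congr (Filter.Eventually.of_forall fun m => forall_congr' fun N => ?_)
    have h3 : (2 * (r : ℤ) + 2 * (esh m N : ℤ)) = 2 * (r + esh m N) := by ring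
    rw [h3]
    exact hr.piece (ft_aff True) _ _ _ rfl

/-- **One scheme.** For every smooth projective `Y`, every `r` and all large `m` there is an `e` such that the
rank is equal to the multiplicity in `H^{2r}(Y)` if and only if this is true for the single piece of
weight `2 r + 2 e` of `H^{2 r + 2 e + 1}_c` of the hypersurface `G_m = 1`. -/
theorem ranks_proj (hk : IsPrimeField k) (h : IsMot D) (hr : IsRanks D rk mu) (Y : Sch k)
    (hY : SmoothProj Y) (r : ℕ) : ∀ᶠ m in Filter.atTop, ∃ e : ℕ,
      (rk (D.G (2 * (r + e)) (2 * (r + e) + 1) (cubG k m)) (r + e) =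
          mu (D.G (2 * (r + e)) (2 * (r + e) + 1) (cubG k m)) (r + e) ↔
        rk (D.G (2 * r) (2 * r) Y) r = mu (D.G (2 * r) (2 * r) Y) r) := by
  obtain ⟨m₀, hm⟩ := (decides_ranks hk h hr).proj Y hY (2 * r)
  filter_upwards [Filter.eventually_ge_atTop m₀] with m hm1
  obtain ⟨e, he⟩ := hm m hm1
  refine ⟨e, ?_⟩
  have h1 := he (2 * r) le_rfl
  have h2 : ((2 * r : ℕ) : ℤ) = 2 * (r : ℤ) := by push_cast; ring
  have h3 : (2 * (r : ℤ) + 2 * (e : ℤ)) = 2 * (r + e) := by ring
  rw [h2, h3] at h1
  exact ((hr.piece (ft_aff True) _ _ _ rfl).symm.trans h1).trans (hr.piece hY.ft _ _ r rfl)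

end Pool.Agent.H367.OS
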