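import Pool.Agent.H367.OS.GMix

/-!
# Windows of degrees in the cohomology of the hypersurfaces `G_m = 1`
-/

set_option autoImplicit false

open CategoryTheory CategoryTheory.Limits AlgebraicGeometry MvPolynomial Pool.Agent.Y116.UV
  Pool.Agent.Z125.UN Pool.Agent.Q193.LT Pool.Agent.H854.SQ

universe v u

namespace Pool.Agent.H367.OS

/-- The number of the relations. -/
abbrev numRel (n : ℕ) : ℕ := n * (n * n) + (n * (n * n) + n)

lemma code_lt {n : ℕ} (s : Finset (Rel (Fin n))) : code s < 2 ^ numRel n := by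
  let f : Rel (Fin n) ↪ ℕ := ⟨fun r => (relNum n r : ℕ), fun a b hab =>
    (relNum n).injective (Fin.ext hab)⟩
  have h1 : code s = ∑ i ∈ s.map f, 2 ^ i := by
    rw [Finset.sum_map]
    rfl
  rw [h1]
  refine Nat.geomSum_lt le_rfl fun i hi => ?_
  obtain ⟨r, -, rfl⟩ := Finset.mem_map.1 hi
  exact (relNum n r).2

/-- Every number less than `2 ^ R_n` is the code of a set of relations. -/
lemma exists_code {n N : ℕ} (hN : N < 2 ^ numRel n) : ∃ s : Finset (Rel (Fin n)), code s = N := by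
  classical
  let f : Finset (Rel (Fin n)) → Fin (2 ^ numRel n) := fun s => ⟨code s, code_lt s⟩
  have h1 : Function.Injective f := fun s t h => code_injective (Fin.mk.inj_iff.1 h)
  have h2 : Fintype.card (Finset (Rel (Fin n))) = Fintype.card (Fin (2 ^ numRel n)) := by
    rw [Fintype.card_finset, Fintype.card_fin, Fintype.card_congr (relNum n), Fintype.card_fin]
  obtain ⟨s, hs⟩ := ((Fintype.bijective_iff_injective_and_card f).2 ⟨h1, h2⟩).2 ⟨N, hN⟩
  exact ⟨s, congrArg Fin.val hs⟩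

section

variable {k : Type} [Field k] {A : Type u} [Category.{v} A] [Abelian A] (D : CompactData k A)

/-- The objects `H^{j+2e+1}_c(C_m)(e)`, `0 ≤ j ≤ 2 d`, and zero for all other `j`. -/
noncomputable def window (m d : ℕ) (e : ℤ) (j : ℤ) : A :=
  open scoped Classical in
  if 0 ≤ j ∧ j ≤ 2 * d then (D.tw e).obj (D.H (j + 2 * e + 1) (cubG k m)) else
    (Limits.HasZeroObject.zero' A).zero

/-- The statements `P` on families of objects do not change if all objects are replaced by isomorphic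
ones. -/
def FamInv (P : (ℤ → A) → Prop) : Prop :=
  ∀ M N : ℤ → A, (∀ j, Nonempty (M j ≅ N j)) → P M → P N

/-- The scheme `V` has an affine bundle with fibre `𝔸^r` whose total space is affine (Jouanolou's device
for quasi-projective schemes; the affine schemes themselves, with `r = 0`), and its cohomology with
compact supports vanishes in the degrees less than `0` and greater than `2 d`. -/
structure HasDevice (d : ℕ) (V : Sch k) : Prop where
  bundle : ∃ (B : Type) (_ : CommRing B) (_ : Algebra k B) (_ : Algebra.FiniteType k B) (r : ℕ),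
    ∀ j : ℤ, Nonempty (D.H (j + 2 * r) (aff k B) ≅ (D.tw (-r)).obj (D.H j V))
  low : ∀ j : ℤ, j < 0 → IsZero (D.H j V)
  high : ∀ j : ℤ, 2 * (d : ℤ) < j → IsZero (D.H j V)

end

section

open scoped ZeroObject

variable {k : Type} [Field k] {A : Type u} [Category.{v} A] [Abelian A] {D : CompactData k A}

lemma IsCoh.tw_inv (hD : IsCoh D) (a : ℤ) (M : A) :
    Nonempty ((D.tw (-a)).obj ((D.tw a).obj M) ≅ M) := by
  obtain ⟨e⟩ := hD.tw_tw a (-a) M
  obtain ⟨e'⟩ := hD.twZero
  rw [add_neg_cancel] at e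
  exact ⟨e ≪≫ e'.app M⟩

lemma window_in {m d : ℕ} {e j : ℤ} (h : 0 ≤ j ∧ j ≤ 2 * d) :
    window D m d e j = (D.tw e).obj (D.H (j + 2 * e + 1) (cubG k m)) := if_pos h

lemma window_out {m d : ℕ} {e j : ℤ} (h : ¬ (0 ≤ j ∧ j ≤ 2 * d)) : IsZero (window D m d e j) := by
  rw [window, if_neg h]
  exact isZero_zero A

/-- **One quasi-projective scheme.** For all large `m` there is an `e` such that
`H^j_c(V) ≅ H^{j+2e+1}_c(C_m)(e)` for `0 ≤ j ≤ 2 d`. -/
theorem coh_quasi (hk : IsPrimeField k) (hD : IsCoh D) {d : ℕ} {V : Sch k}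
    (hV : HasDevice D d V) : ∃ m₀ : ℕ, ∀ m, m₀ ≤ m → ∃ e : ℕ, ∀ j : ℤ, 0 ≤ j → j ≤ 2 * d →
      Nonempty (D.H j V ≅ (D.tw e).obj (D.H (j + 2 * e + 1) (cubG k m))) := by
  obtain ⟨B, _, _, _, r, hr⟩ := hV.bundle
  obtain ⟨m₀, hm⟩ := coh_affine.{v, u} hk B
  refine ⟨max m₀ (max 1 (d + r)), fun m hm1 => ?_⟩
  obtain ⟨N, hN⟩ := hm m ((le_max_left _ _).trans hm1)
  have hm2 : 1 ≤ m := ((le_max_left _ _).trans (le_max_right _ _)).trans hm1
  have hm3 : d + r ≤ m := ((le_max_right _ _).trans (le_max_right _ _)).trans hm1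
  have hm4 : (d : ℤ) + r ≤ m := by exact_mod_cast hm3
  have he0 : ((r + (m + 1) * N + (numEqn m - 1) : ℕ) : ℤ) = r + esh m N := by
    rw [esh]
    have := numEqn_pos hm2
    push_cast [Nat.cast_sub this]
    ring
  refine ⟨r + (m + 1) * N + (numEqn m - 1), fun j hj0 hjd => ?_⟩
  obtain ⟨e1⟩ := hN A D hD (j + 2 * r) (by positivity) (by linarith)
  obtain ⟨e2⟩ := hr j
  obtain ⟨e3⟩ := hD.tw_tw (-r) (-esh m N) (D.H j V)
  obtain ⟨e4⟩ := hD.tw_inv (-(r + esh m N)) (D.H j V)
  have h1 : -(r : ℤ) + -esh m N = -(r + esh m N) := by ring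
  have h2 : j + 2 * r + 2 * esh m N + 1 = j + 2 * (r + esh m N) + 1 := by ring
  rw [h1] at e3
  rw [h2] at e1
  rw [neg_neg] at e4
  rw [he0]
  exact ⟨e4.symm ≪≫ (D.tw _).mapIso (e1 ≪≫ (D.tw _).mapIso e2 ≪≫ e3).symm⟩

/-- **One quasi-projective scheme, all degrees.** A statement on the family of the objects `H^j_c(V)`,
`j ∈ ℤ`, is equivalent to the same statement on the family of the objects `H^{j+2e+1}_c(C_m)(e)`,
`0 ≤ j ≤ 2 d`. -/
theorem family_quasi (hk : IsPrimeField k) (hD : IsCoh D) {d : ℕ} {V : Sch k}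
    (hV : HasDevice D d V) : ∃ m₀ : ℕ, ∀ m, m₀ ≤ m → ∃ e : ℕ, ∀ P : (ℤ → A) → Prop,
      FamInv P → (P (fun j => D.H j V) ↔ P (window D m d e)) := by
  obtain ⟨m₀, hm⟩ := coh_quasi hk hD hV
  refine ⟨m₀, fun m hm1 => ?_⟩
  obtain ⟨e, he⟩ := hm m hm1
  refine ⟨e, fun P hP => ?_⟩
  have h1 : ∀ j : ℤ, Nonempty (D.H j V ≅ window D m d e j) := by
    intro j
    by_cases h : 0 ≤ j ∧ j ≤ 2 * d
    · rw [window_in h]
      exact he j h.1 h.2
    · have h2 : IsZero (D.H j V) := by
        by_cases h3 : 0 ≤ j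
        · exact hV.high j (by by_contra h4; exact h ⟨h3, by omega⟩)
        · exact hV.low j (by omega)
      exact ⟨h2.iso (window_out h)⟩
  exact ⟨hP _ _ h1, hP _ _ fun j => (h1 j).map Iso.symm⟩

/-- **All affine schemes.** A statement on the families of the objects `H^j_c(V)`, `j ∈ ℤ`, for all affine
schemes `V` of finite type, is equivalent to the same statement on the families of the objects
`H^{j+2e+1}_c(C_m)(e)`, `0 ≤ j ≤ 2 m`, `e = (m + 1) N + E_m - 1`, for all `N < 2 ^ R_m` and infinitely many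
`m` (or all `m ≥ 1`). -/
theorem family_affine (hk : IsPrimeField k) (hD : IsCoh D) {P : (ℤ → A) → Prop}
    (hP : FamInv P) : List.TFAE [
      ∀ (B : Type) [CommRing B] [Algebra k B] [Algebra.FiniteType k B],
        P (fun j => D.H j (aff k B)),
      ∀ m, 1 ≤ m → ∀ N : ℕ, N < 2 ^ numRel m → P (window D m m (esh m N)),
      ∃ᶠ m in Filter.atTop, ∀ N : ℕ, N < 2 ^ numRel m → P (window D m m (esh m N))] := by
  have key : ∀ m, 1 ≤ m → ∀ (s : Finset (Rel (Fin m))) (j : ℤ),
      Nonempty (D.H j (aff k (Sys k s)) ≅ window D m m (esh m (code s)) j) := by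
    intro m hm s j
    by_cases h : 0 ≤ j ∧ j ≤ 2 * m
    · obtain ⟨e1⟩ := hD.dict hm s h.1 h.2
      obtain ⟨e4⟩ := hD.tw_inv (-esh m (code s)) (D.H j (aff k (Sys k s)))
      rw [window_in h]
      rw [neg_neg] at e4
      exact ⟨e4.symm ≪≫ (D.tw _).mapIso e1.symm⟩
    · have h2 : IsZero (D.H j (aff k (Sys k s))) := by
        by_cases h3 : 0 ≤ j
        · exact hD.high _ m (krull_sys k s) j (by by_contra h4; exact h ⟨h3, by omega⟩)
        · exact hD.low _ j (by omega)
      exact ⟨h2.iso (window_out h)⟩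
  tfae_have 1 → 2 := fun h m hm N hN => by
    obtain ⟨s, rfl⟩ := exists_code hN
    exact hP _ _ (key m hm s) (h (Sys k s))
  tfae_have 2 → 3 := fun h => by
    refine Filter.Eventually.frequently ?_
    filter_upwards [Filter.eventually_ge_atTop 1] with m hm
    exact h m hm
  tfae_have 3 → 1 := fun h B _ _ _ => by
    classical
    obtain ⟨m₀, hm⟩ := exists_fin (B := B) hk
    obtain ⟨m, hm1, hm2⟩ := (Filter.frequently_atTop.1 h) (max m₀ 1)
    obtain ⟨b, hb, hp⟩ := hm m ((le_max_left _ _).trans hm1)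
    let s : Finset (Rel (Fin m)) := Finset.univ.filter (· ∈ holds k b)
    have h1 : Ideal.span (relPoly k '' (s : Set (Rel (Fin m)))) =
        RingHom.ker (aeval b : MvPolynomial (Fin m) k →ₐ[k] B) := by
      have h2 : (s : Set (Rel (Fin m))) = holds k b := by
        ext r
        simp [s]
      rw [h2]
      exact le_antisymm (fun f hf => span_le_of_holds b hf) fun f hf => hp f hf
    let e : Sys k s ≃ₐ[k] B := (Ideal.quotientEquivAlgOfEq k h1).trans
      (Ideal.quotientKerAlgEquivOfSurjective hb)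
    refine hP _ _ (fun j => ?_) (hm2 (code s) (code_lt s))
    obtain ⟨e1⟩ := key m ((le_max_right _ _).trans hm1) s j
    obtain ⟨e2⟩ := hD.iso_alg e j
    exact ⟨e1.symm ≪≫ e2⟩
  tfae_finish

end

end Pool.Agent.H367.OS
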