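import Pool.Agent.H367.OS.GWu

/-!
# The sequence of cubics and pairs of invariants that are not zero in negative indices
-/

set_option autoImplicit false

open CategoryTheory CategoryTheory.Limits AlgebraicGeometry MvPolynomial Pool.Agent.Y116.UV
  Pool.Agent.Z125.UN Pool.Agent.Q193.LT Pool.Agent.Q49.WU Pool.Agent.H854.SQ

universe w w'

namespace Pool.Agent.H367.OS

variable {k : Type} [Field k] {ι : Type} {E : Type w'} [CommRing E]

/-- The groups of an affine scheme of dimension at most `d` are zero for the indices of weight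
`> d`. -/
def PHigh (C : PairData.{w} k ι E) (wt : ι → ℤ) : Prop :=
  ∀ (B : Type) [CommRing B] [Algebra k B] [Algebra.FiniteType k B] (d : ℕ),
    ringKrullDim B ≤ d → ∀ j : ι, (d : ℤ) < wt j →
      Subsingleton (C.A j (aff k B)) ∧ Subsingleton (C.B j (aff k B))

variable {C : PairData.{w} k ι E} {wt : ι → ℤ} {δ τ σ : ι ≃ ι}

theorem graduated_pair' (hC : IsPair C δ τ σ) (hg : IsGraded wt δ τ σ) (hv : PHigh C wt)
    (h1 : BijAll C (aff k k)) (hw : GenAt C wt)
    (small : ∀ q : ℤ, q < 0 → ∀ Y : Sch k, SmoothProj Y → BijAt C wt q Y) :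
    Graduated (BijAt C wt) :=
  graduated_wuni (wuni_pair hC hg h1)
    (fun B _ _ _ q hq => hw q (small q hq) (aff k B) (ft_aff True))
    (fun B _ _ _ d hd q hq j hj => by
      obtain ⟨h2, h3⟩ := hv B d hd j (by omega)
      exact bij_of_sub _ h2 h3)

/-- **The sequence decides, index by index**, if the smooth projective cases with a negative index
are known. -/
theorem decides_pair' (hk : IsPrimeField k) (hw : GenAt C wt) (hC : IsPair C δ τ σ)
    (hg : IsGraded wt δ τ σ) (hv : PHigh C wt) (h1 : BijAll C (aff k k))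
    (small : ∀ q : ℤ, q < 0 → ∀ Y : Sch k, SmoothProj Y → BijAt C wt q Y) :
    Decides (BijAt C wt) :=
  decides_gen hk (graduated_pair' hC hg hv h1 hw small) fun q h => hw q h

end Pool.Agent.H367.OS
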