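import Pool.Agent.H367.OS.OOri
import Mathlib.NumberTheory.NumberField.Basic
import Mathlib.FieldTheory.Galois.Basic

/-!
# Artin motives and the pieces of weight zero
-/

set_option autoImplicit false

open CategoryTheory CategoryTheory.Limits AlgebraicGeometry Pool.Agent.Y116.UV
  Pool.Agent.Q193.LT Pool.Agent.H854.SQ

universe w v u

namespace Pool.Agent.H367.OS

variable {A : Type u} [Category.{v} A] {D : Pieces ℚ A}

/-- The single object `Gr^W_{2e} H^{2e+1}_c(e)` of the hypersurface `G_m = 1`, where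
`e = (m + 1) N + E_m - 1`. It is an Artin motive. -/
noncomputable def single0 (D : Pieces ℚ A) (m N : ℕ) : A :=
  (D.tw (esh m N)).obj (D.G (2 * esh m N) (2 * esh m N + 1) (cubG ℚ m))

/-- The irreducible characters of the absolute Galois group of `ℚ` and the Artin motives `h^0(Y)`. Here
`occ χ N` says that `χ` occurs in `N ⊗ ℂ`, and `irr L` is the set of the irreducible characters of
`Gal(L/ℚ)`, for finite Galois extensions `L` of `ℚ`.

* `factor`: a character which occurs in a direct factor of `N` occurs in `N`.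
* `field`: the characters of `Gal(L/ℚ)` are the characters which occur in `h^0(Spec L)`.
* `galois`: the characters which occur in `h^0(Y)` are characters of `Gal(L/ℚ)`, if `L` contains the
  fields of constants of the connected components of `Y`. -/
structure ArtinMotives {I : Type w} (D : Pieces ℚ A) (occ : I → A → Prop)
    (irr : ∀ (L : Type) [Field L] [NumberField L], Set I) : Prop where
  factor : ∀ {N N' : A}, Factor N N' → ∀ χ : I, occ χ N → occ χ N'
  field : ∀ (L : Type) [Field L] [NumberField L] [IsGalois ℚ L], ∃ Y : Sch ℚ, SmoothProj Y ∧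
    ∀ χ : I, χ ∈ irr L ↔ occ χ (D.G 0 0 Y)
  galois : ∀ Y : Sch ℚ, SmoothProj Y → ∃ (L : Type) (_ : Field L) (_ : NumberField L),
    IsGalois ℚ L ∧ ∀ χ : I, occ χ (D.G 0 0 Y) → χ ∈ irr L

variable [Abelian A]

/-- One weight, weight zero. -/
lemma zero_weight (h : IsMot D) {Q : A → Prop} (hQ : FactorClosed Q) :
    (∀ Y : Sch ℚ, SmoothProj Y → Q (D.G 0 0 Y)) ↔
      ∃ᶠ m in Filter.atTop, ∀ N : ℕ, Q (single0 D m N) := by
  have h1 := ((decides_pieces isPrimeField_rat h hQ).weight 0 0).out 1 0
  have h2 : (∀ Y : Sch ℚ, SmoothProj Y → Q ((D.tw 0).obj (D.G (0 : ℕ) (0 : ℕ) Y))) ↔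
      ∀ Y : Sch ℚ, SmoothProj Y → Q (D.G 0 0 Y) := by
    refine forall₂_congr fun Y _ => ?_
    obtain ⟨e⟩ := h.pieces.tw_nil (D.G 0 0 Y)
    exact ⟨fun g => hQ.isoInv (by exact_mod_cast e) g,
      fun g => hQ.isoInv (by exact_mod_cast e.symm) g⟩
  rw [← h2, h1]
  simp only [single0, Nat.cast_zero, zero_add]

/-- Objects which are direct factors of `h^0(Y)` are direct factors of a single object, for all large
`m`. -/
lemma occurs_zero (h : IsMot D) {R : A} {Y : Sch ℚ} (hY : SmoothProj Y)
    (hf : Factor R (D.G 0 0 Y)) :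
    ∀ᶠ m in Filter.atTop, ∃ N : ℕ, Factor R (single0 D m N) := by
  obtain ⟨e⟩ := h.pieces.tw_nil (D.G 0 0 Y)
  have h2 := (exists_weight isPrimeField_rat h (fun S => Factor R S) 0 0).mp
    ⟨Y, hY, _, Factor.refl _, hf.trans (Factor.of_iso (by exact_mod_cast e.symm))⟩
  filter_upwards [h2] with m hm
  obtain ⟨N, S, hS, hR⟩ := hm
  refine ⟨N, ?_⟩
  have h3 := hR.trans hS
  rw [single0]
  simpa using h3

/-- The single objects are direct factors of `h^0(Y)`. -/
lemma single0_factor (h : IsMot D) {m : ℕ} (hm : 1 ≤ m) (N : ℕ) :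
    ∃ Y : Sch ℚ, SmoothProj Y ∧ Factor (single0 D m N) (D.G 0 0 Y) := by
  obtain ⟨Y, hY, hf⟩ := piece_factor h hm N 0 (Nat.zero_le m) 0
  obtain ⟨e⟩ := h.pieces.tw_nil (D.G 0 0 Y)
  refine ⟨Y, hY, ?_⟩
  rw [single0]
  have h1 := hf.trans (Factor.of_iso (by exact_mod_cast e))
  simpa using h1

/-- Every `h^0(Y)` is a single piece. -/
lemma whole_zero (h : IsMot D) {Y : Sch ℚ} (hY : SmoothProj Y) :
    ∀ᶠ m in Filter.atTop, ∃ e : ℕ, Nonempty (D.G 0 0 Y ≅
      (D.tw e).obj (D.G (2 * e) (2 * e + 1) (cubG ℚ m))) := by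
  obtain ⟨m₀, hm⟩ := pieces_proj isPrimeField_rat h.pieces h.device Y hY 0
  filter_upwards [Filter.eventually_ge_atTop m₀] with m hm1
  obtain ⟨e, he⟩ := hm m hm1
  obtain ⟨g⟩ := h.pieces.back (he 0 0 le_rfl (by simp)) 0
  obtain ⟨g'⟩ := h.pieces.tw_nil (D.G 0 0 Y)
  rw [zero_add, zero_add] at g
  exact ⟨e, ⟨g'.symm ≪≫ g.symm⟩⟩

/-- **Artin representations.** Let `P` be a property of sets of irreducible characters of the absolute
Galois group of `ℚ` which passes to subsets. It is true for the sets of the irreducible characters of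
the Galois groups of all finite Galois extensions of `ℚ` if and only if for infinitely many `m` it is
true for the sets of the characters which occur in the single Artin motives `single0 D m N`, for all `N`.
The irreducible characters of the Galois group of one field occur in one of these motives, for all
large `m`, and the characters which occur in one of these motives are characters of the Galois group
of one field. -/
theorem artin_decides (h : IsMot D) {I : Type w} {occ : I → A → Prop}
    {irr : ∀ (L : Type) [Field L] [NumberField L], Set I} (ha : ArtinMotives D occ irr)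
    {P : Set I → Prop} (hP : ∀ S T : Set I, S ⊆ T → P T → P S) :
    ((∀ (L : Type) [Field L] [NumberField L] [IsGalois ℚ L], P (irr L)) ↔
      ∃ᶠ m in Filter.atTop, ∀ N : ℕ, P {χ | occ χ (single0 D m N)}) ∧
    (∀ (L : Type) [Field L] [NumberField L] [IsGalois ℚ L], ∀ᶠ m in Filter.atTop, ∃ N : ℕ,
      irr L ⊆ {χ | occ χ (single0 D m N)}) ∧
    (∀ m, 1 ≤ m → ∀ N : ℕ, ∃ (L : Type) (_ : Field L) (_ : NumberField L),
      IsGalois ℚ L ∧ {χ | occ χ (single0 D m N)} ⊆ irr L) := by
  have hQ : FactorClosed fun N : A => P {χ | occ χ N} := fun hf hN =>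
    hP _ _ (fun χ hχ => ha.factor hf χ hχ) hN
  refine ⟨Iff.trans ?_ (zero_weight h hQ), fun L _ _ _ => ?_, fun m hm N => ?_⟩
  · constructor
    · intro g Y hY
      obtain ⟨L, _, _, _, hL⟩ := ha.galois Y hY
      exact hP _ _ hL (g L)
    · intro g L _ _ _
      obtain ⟨Y, hY, hL⟩ := ha.field L
      exact hP _ _ (fun χ hχ => (hL χ).mp hχ) (g Y hY)
  · obtain ⟨Y, hY, hL⟩ := ha.field L
    filter_upwards [occurs_zero h hY (Factor.refl _)] with m hm
    obtain ⟨N, hN⟩ := hm
    exact ⟨N, fun χ hχ => ha.factor hN χ ((hL χ).mp hχ)⟩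
  · obtain ⟨Y, hY, hf⟩ := single0_factor h hm N
    obtain ⟨L, i1, i2, i3, hL⟩ := ha.galois Y hY
    exact ⟨L, i1, i2, i3, fun χ hχ => hL χ (ha.factor hf χ hχ)⟩

end Pool.Agent.H367.OS
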