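import Pool.Agent.H367.OS.OArt
import Mathlib.FieldTheory.IsAlgClosed.AlgebraicClosure
import Mathlib.FieldTheory.PrimitiveElement
import Mathlib.Analysis.Complex.Basic

/-!
# The number fields cut out by the pieces of weight zero
-/

set_option autoImplicit false

open CategoryTheory CategoryTheory.Limits AlgebraicGeometry Pool.Agent.Y116.UV
  Pool.Agent.Q193.LT Pool.Agent.H854.SQ

universe w v u

namespace Pool.Agent.H367.OS

/-- The subfields of the algebraic closure of `ℚ`. -/
abbrev AlgField : Type := IntermediateField ℚ (AlgebraicClosure ℚ)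

/-- The field of all totally real algebraic numbers: `φ x` is a real number for all embeddings `φ` of the
field of all algebraic numbers in `ℂ`. -/
def totReal : AlgField where
  carrier := {x | ∀ φ : AlgebraicClosure ℚ →+* ℂ, (starRingEnd ℂ) (φ x) = φ x}
  mul_mem' {x y} hx hy φ := by rw [map_mul, map_mul, hx φ, hy φ]
  add_mem' {x y} hx hy φ := by rw [map_add, map_add, hx φ, hy φ]
  algebraMap_mem' q φ := by
    rw [eq_ratCast (algebraMap ℚ (AlgebraicClosure ℚ)) q, map_ratCast, map_ratCast]
  inv_mem' x hx φ := by rw [map_inv₀, map_inv₀, hx φ]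

/-- `L` is a number field (of finite degree over `ℚ`): it is contained in a field which is generated by
finitely many algebraic numbers. -/
def OfFiniteDegree (L : AlgField) : Prop :=
  ∃ s : Finset (AlgebraicClosure ℚ), L ≤ IntermediateField.adjoin ℚ (s : Set (AlgebraicClosure ℚ))

/-- `L` is a normal extension of `ℚ`. -/
def IsNormal (L : AlgField) : Prop :=
  ∀ σ : AlgebraicClosure ℚ →ₐ[ℚ] AlgebraicClosure ℚ, L.map σ ≤ L

lemma OfFiniteDegree.mono {L L' : AlgField} (h : L ≤ L') (h' : OfFiniteDegree L') :
    OfFiniteDegree L :=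
  h'.imp fun _ hs => h.trans hs

lemma totReal_normal : IsNormal totReal := by
  rintro σ _ ⟨x, hx, rfl⟩ φ
  exact hx (φ.comp σ.toRingHom)

lemma IsNormal.inf {L L' : AlgField} (h : IsNormal L) (h' : IsNormal L') : IsNormal (L ⊓ L') := by
  rintro σ _ ⟨x, hx, rfl⟩
  exact ⟨h σ ⟨x, hx.1, rfl⟩, h' σ ⟨x, hx.2, rfl⟩⟩

variable {A : Type u} [Category.{v} A] {D : Pieces ℚ A}

/-- The fields cut out by motives over `ℚ`: `cut N` is the fixed field of the kernel of the action of the
absolute Galois group of `ℚ` on an ℓ-adic realization of `N`.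

* `factor`: the field of a direct factor of `N` is a subfield of the field of `N`.
* `normal`: kernels are normal subgroups.
* `field`: the field of `h^0(Spec L)` contains `L` (it is the Galois closure of `L`).
* `finite`: the field of the Artin motive `h^0(Y)` is a number field. -/
structure CutsOut (D : Pieces ℚ A) (cut : A → AlgField) : Prop where
  factor : ∀ {N N' : A}, Factor N N' → cut N ≤ cut N'
  normal : ∀ N : A, IsNormal (cut N)
  field : ∀ L : AlgField, OfFiniteDegree L → ∃ Y : Sch ℚ, SmoothProj Y ∧ L ≤ cut (D.G 0 0 Y)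
  finite : ∀ Y : Sch ℚ, SmoothProj Y → OfFiniteDegree (cut (D.G 0 0 Y))

/-- The number field cut out by the single Artin motive `single0 D m N`. -/
noncomputable def numField (D : Pieces ℚ A) (cut : A → AlgField) (m N : ℕ) : AlgField :=
  cut (single0 D m N)

/-- Its largest totally real subfield. -/
noncomputable def realField (D : Pieces ℚ A) (cut : A → AlgField) (m N : ℕ) : AlgField :=
  numField D cut m N ⊓ totReal

variable [Abelian A]

/-- **Number fields.** The fields `numField D cut m N` are Galois extensions of `ℚ` of finite degree, and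
every number field is contained in one of them, for all large `m`; the same for the totally real
fields. -/
theorem fields (h : IsMot D) {cut : A → AlgField} (hc : CutsOut D cut) :
    (∀ m, 1 ≤ m → ∀ N : ℕ, OfFiniteDegree (numField D cut m N) ∧ IsNormal (numField D cut m N)) ∧
    (∀ m, 1 ≤ m → ∀ N : ℕ, OfFiniteDegree (realField D cut m N) ∧
      IsNormal (realField D cut m N) ∧ realField D cut m N ≤ totReal) ∧
    (∀ L : AlgField, OfFiniteDegree L → ∀ᶠ m in Filter.atTop, ∃ N : ℕ,
      L ≤ numField D cut m N) ∧
    (∀ L : AlgField, OfFiniteDegree L → L ≤ totReal → ∀ᶠ m in Filter.atTop, ∃ N : ℕ,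
      L ≤ realField D cut m N) := by
  have h1 : ∀ m, 1 ≤ m → ∀ N : ℕ, OfFiniteDegree (numField D cut m N) := by
    intro m hm N
    obtain ⟨Y, hY, hf⟩ := single0_factor h hm N
    exact (hc.finite Y hY).mono (hc.factor hf)
  have h2 : ∀ L : AlgField, OfFiniteDegree L → ∀ᶠ m in Filter.atTop, ∃ N : ℕ,
      L ≤ numField D cut m N := by
    intro L hL
    obtain ⟨Y, hY, hLY⟩ := hc.field L hL
    filter_upwards [occurs_zero h hY (Factor.refl _)] with m hm
    obtain ⟨N, hN⟩ := hm
    exact ⟨N, hLY.trans (hc.factor hN)⟩
  refine ⟨fun m hm N => ⟨h1 m hm N, hc.normal _⟩, fun m hm N => ⟨(h1 m hm N).mono inf_le_left,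
    (hc.normal _).inf totReal_normal, inf_le_right⟩, h2, fun L hL hr => ?_⟩
  filter_upwards [h2 L hL] with m hm
  obtain ⟨N, hN⟩ := hm
  exact ⟨N, le_inf hN hr⟩

/-- A statement about number fields which passes to subfields is true for all number fields if and only if
for infinitely many `m` it is true for the fields `numField D cut m N`, for all `N`. -/
theorem decides_fields (h : IsMot D) {cut : A → AlgField} (hc : CutsOut D cut)
    {P : AlgField → Prop} (hP : ∀ L L' : AlgField, OfFiniteDegree L' → L ≤ L' → P L' → P L) :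
    (∀ L : AlgField, OfFiniteDegree L → P L) ↔
      ∃ᶠ m in Filter.atTop, ∀ N : ℕ, P (numField D cut m N) := by
  obtain ⟨h1, _, h3, _⟩ := fields h hc
  constructor
  · intro g
    exact ((Filter.eventually_ge_atTop 1).mono fun m hm N => g _ (h1 m hm N).1).frequently
  · intro g L hL
    obtain ⟨m, hm, ⟨N, hN⟩, hm1⟩ :=
      (g.and_eventually ((h3 L hL).and (Filter.eventually_ge_atTop 1))).exists
    exact hP L _ (h1 m hm1 N).1 hN (hm N)

/-- The same for totally real fields. -/
theorem decides_real (h : IsMot D) {cut : A → AlgField} (hc : CutsOut D cut)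
    {P : AlgField → Prop}
    (hP : ∀ L L' : AlgField, OfFiniteDegree L' → L' ≤ totReal → L ≤ L' → P L' → P L) :
    (∀ L : AlgField, OfFiniteDegree L → L ≤ totReal → P L) ↔
      ∃ᶠ m in Filter.atTop, ∀ N : ℕ, P (realField D cut m N) := by
  obtain ⟨_, h2, _, h4⟩ := fields h hc
  constructor
  · intro g
    exact ((Filter.eventually_ge_atTop 1).mono fun m hm N =>
      g _ (h2 m hm N).1 (h2 m hm N).2.2).frequently
  · intro g L hL hr
    obtain ⟨m, hm, ⟨N, hN⟩, hm1⟩ :=
      (g.and_eventually ((h4 L hL hr).and (Filter.eventually_ge_atTop 1))).exists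
    exact hP L _ (h2 m hm1 N).1 (h2 m hm1 N).2.2 hN (hm N)

omit [Abelian A] in
lemma ofFiniteDegree_fieldRange {K : Type} [Field K] [NumberField K]
    (φ : K →ₐ[ℚ] AlgebraicClosure ℚ) : OfFiniteDegree φ.fieldRange := by
  obtain ⟨α, hα⟩ := Field.exists_primitive_element ℚ K
  refine ⟨{φ α}, ?_⟩
  rw [AlgHom.fieldRange_eq_map, ← hα, IntermediateField.adjoin_map]
  simp

lemma isIntegral_aux {K : Type} [Field K] [CharZero K] (a b : Algebra ℚ K) (x : K)
    (h : @_root_.IsIntegral ℚ K _ _ a x) : @_root_.IsIntegral ℚ K _ _ b x := by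
  have : a = b := Subsingleton.elim _ _
  subst this
  exact h

lemma isIntegral_alg (x : AlgebraicClosure ℚ) : _root_.IsIntegral ℚ x :=
  isIntegral_aux _ _ x ((AlgebraicClosure.isAlgebraic ℚ).isIntegral.isIntegral x)

/-- The fields of finite degree are number fields. -/
lemma numberField_of {L : AlgField} (h : OfFiniteDegree L) : NumberField L := by
  obtain ⟨s, hs⟩ := h
  have h1 : FiniteDimensional ℚ (IntermediateField.adjoin ℚ (s : Set (AlgebraicClosure ℚ))) :=
    IntermediateField.finiteDimensional_adjoin fun x _ => isIntegral_alg x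
  have h2 : FiniteDimensional ℚ L :=
    FiniteDimensional.of_injective (IntermediateField.inclusion hs).toLinearMap
      (IntermediateField.inclusion hs).toRingHom.injective
  exact { to_charZero := inferInstance, to_finiteDimensional := by convert h2 }

/-- Every number field is isomorphic to a subfield of one of the fields `numField D cut m N`, for all
large `m`. -/
theorem embeds (h : IsMot D) {cut : A → AlgField} (hc : CutsOut D cut) (K : Type) [Field K]
    [NumberField K] : ∀ᶠ m in Filter.atTop, ∃ N : ℕ, Nonempty (K →+* numField D cut m N) := by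
  let φ : K →ₐ[ℚ] AlgebraicClosure ℚ := IsAlgClosed.lift
  filter_upwards [(fields h hc).2.2.1 φ.fieldRange (ofFiniteDegree_fieldRange φ)] with m hm
  obtain ⟨N, hN⟩ := hm
  exact ⟨N, ⟨(IntermediateField.inclusion hN).toRingHom.comp φ.rangeRestrict.toRingHom⟩⟩

end Pool.Agent.H367.OS
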