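import Pool.Agent.H367.OS.OFac

/-!
# The dictionary for the objects, and single objects of the sequence
-/

set_option autoImplicit false

open CategoryTheory CategoryTheory.Limits AlgebraicGeometry Pool.Agent.Y116.UV
  Pool.Agent.Q193.LT Pool.Agent.H854.SQ

universe v u

namespace Pool.Agent.H367.OS

variable {k : Type} [Field k] {A : Type u} [Category.{v} A] [Abelian A]

/-- The single object `V_{m,N}^i(t) = Gr^W_{i+2e} H^{i+2e+1}_c(C_m)(t + e)`, `e = (m + 1) N + E_m - 1`,
of the hypersurface `C_m : G_m = 1`. -/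
noncomputable def sgl (D : Pieces k A) (m N : ℕ) (i t : ℤ) : A :=
  (D.tw (t + esh m N)).obj (D.G (i + 2 * esh m N) (i + 2 * esh m N + 1) (cubG k m))

/-- **The dictionary for the objects.** Let `e = (m + 1) N + E_m - 1`, where `E_m` is the number of the
equations.

* For every affine scheme `Spec B` of finite type and all large `m` there is an `N` such that
  `Gr^W_{w+2e} H^{j+2e+1}_c(C_m)` is isomorphic to `Gr^W_w H^j_c(Spec B)(-e)`, for `0 ≤ w ≤ 2 m + 1` and all
  `j`.
* For every smooth projective scheme `Y`, every `d` and all large `m` there is an `e'` such that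
  `Gr^W_{i+2e'} H^{i+2e'+1}_c(C_m)` is isomorphic to `H^i(Y)(-e')`, for all `i ≤ d`.
* For every separated scheme `X` of finite type and all large `m` there is an `N` such that
  `Gr^W_w H^j_c(X)(-e)` is a direct factor of `Gr^W_{w+2e} H^{j+2e+1}_c(C_m)`, for `0 ≤ w ≤ 2 m + 1` and all
  `j`. -/
structure Dictionary (D : Pieces k A) : Prop where
  affine : ∀ (B : Type) [CommRing B] [Algebra k B] [Algebra.FiniteType k B],
    ∀ᶠ m : ℕ in Filter.atTop, ∃ N : ℕ, ∀ w j : ℤ, 0 ≤ w → w ≤ 2 * m + 1 →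
      Nonempty (D.G (w + 2 * esh m N) (j + 2 * esh m N + 1) (cubG k m) ≅
        (D.tw (-esh m N)).obj (D.G w j (aff k B)))
  proj : ∀ Y : Sch k, SmoothProj Y → ∀ d : ℕ, ∀ᶠ m : ℕ in Filter.atTop, ∃ e : ℕ, ∀ i : ℕ, i ≤ d →
    Nonempty (D.G (i + 2 * e) (i + 2 * e + 1) (cubG k m) ≅ (D.tw (-e)).obj (D.G i i Y))
  factor : ∀ X : Sch k, FT True X → ∀ᶠ m : ℕ in Filter.atTop, ∃ N : ℕ, ∀ w j : ℤ, 0 ≤ w →
    w ≤ 2 * m + 1 → Factor ((D.tw (-esh m N)).obj (D.G w j X))
      (D.G (w + 2 * esh m N) (j + 2 * esh m N + 1) (cubG k m))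

variable {D : Pieces k A} {Q : A → Prop}

theorem IsMot.dictionary (hk : IsPrimeField k) (h : IsMot D) : Dictionary D where
  affine B _ _ _ := by
    obtain ⟨m₀, hm⟩ := pieces_affine.{v, u} hk B
    filter_upwards [Filter.eventually_ge_atTop m₀] with m hm1
    obtain ⟨N, hN⟩ := hm m hm1
    exact ⟨N, fun w j h0 h1 => hN A D h.pieces w j h0 h1⟩
  proj Y hY d := by
    obtain ⟨m₀, hm⟩ := pieces_proj hk h.pieces h.device Y hY d
    filter_upwards [Filter.eventually_ge_atTop m₀] with m hm1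
    obtain ⟨e, he⟩ := hm m hm1
    exact ⟨e, fun i hi => he i i (by positivity) (by exact_mod_cast hi)⟩
  factor X hX := by
    obtain ⟨m₀, hm⟩ := pieces_factor.{v, u} hk X hX
    filter_upwards [Filter.eventually_ge_atTop m₀] with m hm1
    obtain ⟨N, hN⟩ := hm m hm1
    exact ⟨N, fun w j h0 h1 => hN A D h.pieces h.disj h.splits w j h0 h1⟩

/-- Every direct factor of `H^i(Y)(t)` is a direct factor of one of the single objects. -/
theorem IsMot.factor_sgl (hk : IsPrimeField k) (h : IsMot D) {N : A} {Y : Sch k}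
    (hY : SmoothProj Y) {i : ℕ} {t : ℤ} (hN : Factor N ((D.tw t).obj (D.G i i Y))) :
    ∀ᶠ m : ℕ in Filter.atTop, ∃ n : ℕ, Factor N (sgl D m n i t) := by
  filter_upwards [(h.dictionary hk).factor Y hY.ft, Filter.eventually_ge_atTop i] with m hm hm1
  obtain ⟨n, hn⟩ := hm
  have h1 : (i : ℤ) ≤ m := by exact_mod_cast hm1
  exact ⟨n, hN.trans (h.pieces.back_factor (hn i i (by positivity) (by linarith)) t)⟩

/-- One degree and one twist. -/
theorem IsMot.degree_sgl (hk : IsPrimeField k) (h : IsMot D) (hQ : FactorClosed Q) (i : ℕ)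
    (t : ℤ) : (∀ Y : Sch k, SmoothProj Y → Q ((D.tw t).obj (D.G i i Y))) ↔
      ∃ᶠ m : ℕ in Filter.atTop, ∀ N : ℕ, Q (sgl D m N i t) :=
  ((decides_pieces hk h hQ).weight i t).out 1 0

/-- The single objects are direct factors of the motives `H^i(Y)(t)`, for all large `m`. -/
theorem IsMot.sgl_factor (h : IsMot D) (i : ℕ) (t : ℤ) :
    ∀ᶠ m : ℕ in Filter.atTop, ∀ N : ℕ, ∃ Y : Sch k, SmoothProj Y ∧
      Factor (sgl D m N i t) ((D.tw t).obj (D.G i i Y)) := by
  filter_upwards [Filter.eventually_ge_atTop (max i 1)] with m hm N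
  have h1 : (i : ℤ) ≤ m := by exact_mod_cast (le_max_left _ _).trans hm
  rcases h.pieces.cases N (by positivity) (show (i : ℤ) ≤ 2 * m + 1 by linarith) (i : ℤ) with
    ⟨s, rfl⟩ | hz | hj
  · obtain ⟨e⟩ := h.pieces.back (h.pieces.dict ((le_max_right _ _).trans hm) s (by positivity)
      (show (i : ℤ) ≤ 2 * m + 1 by linarith) (i : ℤ)) t
    obtain ⟨Y, hY, hf⟩ := h.ofProj (aff k (Sys k s)) (ft_aff True) i i
    exact ⟨Y, hY, (Factor.of_iso e).trans (hf.map _)⟩
  · obtain ⟨Y, hY, -⟩ := h.ofProj (aff k k) (ft_aff True) 0 0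
    exact ⟨Y, hY, Factor.zero (h.pieces.tw_zero _ hz) _⟩
  · omega

/-- **All motives and single objects.** Let every motive `N`, except those for which there is nothing to
prove, be a direct factor of `H^i(Y)(t)` for a smooth projective scheme `Y` and a pair `(i, t)` in the set
`I`. Then all motives have the property `Q` if and only if for infinitely many `m` all direct factors of
the single objects `V_{m,N}^i(t)` have it, for all `N` and all `(i, t)` in `I`. -/
theorem IsMot.all_sgl (hk : IsPrimeField k) (h : IsMot D) {I : ℕ → ℤ → Prop}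
    (factors : ∀ N : A, ¬ Q N → ∃ (Y : Sch k) (i : ℕ) (t : ℤ), SmoothProj Y ∧ I i t ∧
      Factor N ((D.tw t).obj (D.G i i Y))) :
    (∀ N : A, Q N) ↔ ∃ᶠ m : ℕ in Filter.atTop, ∀ (N i : ℕ) (t : ℤ), I i t →
      AllFactors Q (sgl D m N i t) := by
  constructor
  · intro g
    exact Filter.Frequently.of_forall fun m N i t _ R _ => g R
  · intro g N
    by_contra hN
    obtain ⟨Y, i, t, hY, hi, hF⟩ := factors N hN
    obtain ⟨m, hm, n, hn⟩ := (g.and_eventually (h.factor_sgl hk hY hF)).exists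
    exact hN (hm n i t hi N hn)

/-- The direct factors of the single objects are, for large `m`, the direct factors of the `H^i(Y)(t)`. -/
theorem IsMot.factors_iff (hk : IsPrimeField k) (h : IsMot D) (i : ℕ) (t : ℤ) (N : A) :
    List.TFAE [∃ Y : Sch k, SmoothProj Y ∧ Factor N ((D.tw t).obj (D.G i i Y)),
      ∀ᶠ m : ℕ in Filter.atTop, ∃ n : ℕ, Factor N (sgl D m n i t),
      ∃ᶠ m : ℕ in Filter.atTop, ∃ n : ℕ, Factor N (sgl D m n i t)] := by
  tfae_have 1 → 2 := fun ⟨Y, hY, hN⟩ => h.factor_sgl hk hY hN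
  tfae_have 2 → 3 := Filter.Eventually.frequently
  tfae_have 3 → 1 := by
    intro g
    obtain ⟨m, ⟨n, hn⟩, hm⟩ := (g.and_eventually (h.sgl_factor i t)).exists
    obtain ⟨Y, hY, hf⟩ := hm n
    exact ⟨Y, hY, hn.trans hf⟩
  tfae_finish

end Pool.Agent.H367.OS
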