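import Pool.Agent.H367.OS.OTan

/-!
# Equidistribution of the classes of Frobenius
-/

set_option autoImplicit false

open CategoryTheory MeasureTheory Filter Topology
open scoped BoundedContinuousFunction Nat.Prime

universe v u

namespace Pool.Agent.H367.OS

/-- For every object `N` a topological space `X N` (the space of the conjugacy classes of the Sato-Tate
group of `N`) with a measure (the image of the normalised Haar measure), and for every prime number `p` a
point `cls N p` (the class of Frobenius at `p`; any point for the finitely many primes which are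
excluded). -/
structure ClassData (M : Type u) where
  /-- the space of the conjugacy classes -/
  X : M → Type
  /-- its topology -/
  top : ∀ N, TopologicalSpace (X N)
  /-- its Borel sets -/
  meas : ∀ N, MeasurableSpace (X N)
  /-- the measure -/
  μ : ∀ N, @Measure (X N) (meas N)
  /-- the class of Frobenius at `p` -/
  cls : ∀ N, ℕ → X N

variable {M : Type u}

attribute [local instance] ClassData.top ClassData.meas

/-- The classes `cls N p` are equidistributed: for every bounded continuous function `f` the mean value of
`f (cls N p)` over the prime numbers `p ≤ n` tends to the integral of `f`. -/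
def Equidistributed (E : ClassData M) (N : M) : Prop :=
  ∀ f : E.X N →ᵇ ℝ, Tendsto (fun n : ℕ => (∑ p ∈ (Finset.range (n + 1)).filter Nat.Prime,
    f (E.cls N p)) / (π n : ℝ)) atTop (𝓝 (∫ x, f x ∂E.μ N))

lemma tendsto_err {c : ℕ → ℝ} {C : ℝ} (hc : ∀ p, |c p| ≤ C) (h : ∀ᶠ p in atTop, p.Prime → c p = 0) :
    Tendsto (fun n : ℕ => (∑ p ∈ (Finset.range (n + 1)).filter Nat.Prime, c p) / (π n : ℝ))
      atTop (𝓝 0) := by
  obtain ⟨p₀, hp⟩ := eventually_atTop.1 h
  have hC : 0 ≤ C := (abs_nonneg _).trans (hc 0)
  have hb : ∀ n : ℕ, |∑ p ∈ (Finset.range (n + 1)).filter Nat.Prime, c p| ≤ p₀ * C := by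
    intro n
    have h1 : ∑ p ∈ (Finset.range (n + 1)).filter Nat.Prime, c p =
        ∑ p ∈ ((Finset.range (n + 1)).filter Nat.Prime).filter (· < p₀), c p := by
      refine (Finset.sum_filter_of_ne (p := (· < p₀)) fun p hp1 hp2 => ?_).symm
      by_contra hlt
      exact hp2 (hp p (not_lt.1 hlt) (Finset.mem_filter.1 hp1).2)
    rw [h1]
    refine (Finset.abs_sum_le_sum_abs _ _).trans ((Finset.sum_le_card_nsmul _ _ C
      fun p _ => hc p).trans ?_)
    rw [nsmul_eq_mul]
    refine mul_le_mul_of_nonneg_right ?_ hC
    have h2 : (((Finset.range (n + 1)).filter Nat.Prime).filter (· < p₀)).card ≤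
        (Finset.range p₀).card := Finset.card_le_card fun p hp =>
      Finset.mem_range.2 (Finset.mem_filter.1 hp).2
    rw [Finset.card_range] at h2
    exact_mod_cast h2
  have ht : Tendsto (fun n : ℕ => (p₀ * C) / (π n : ℝ)) atTop (𝓝 0) := by
    refine Tendsto.div_atTop tendsto_const_nhds ?_
    exact tendsto_natCast_atTop_atTop.comp Nat.tendsto_primeCounting
  refine squeeze_zero_norm (fun n => ?_) ht
  rw [Real.norm_eq_abs, abs_div, Nat.abs_cast]
  exact div_le_div_of_nonneg_right (hb n) (Nat.cast_nonneg _)

variable [Category.{v} M]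

/-- The known properties: if `N` is a direct factor of `N'`, there is a continuous map from the space of
the conjugacy classes of `N'` to that of `N` (the Sato-Tate group of `N` is a quotient of that of `N'`)
with the following properties: the measure of `N` is the image of the measure of `N'`, and the class of
Frobenius of `N'` is mapped to the class of Frobenius of `N`, for all prime numbers except finitely
many. -/
structure IsClassData (E : ClassData M) : Prop where
  borel : ∀ N, BorelSpace (E.X N)
  factor : ∀ {N N' : M}, Factor N N' → ∃ φ : E.X N' → E.X N, Continuous φ ∧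
    E.μ N = (E.μ N').map φ ∧ ∀ᶠ p in atTop, p.Prime → φ (E.cls N' p) = E.cls N p

/-- Equidistribution passes to direct factors. -/
theorem Equidistributed.factor {E : ClassData M} (hE : IsClassData E) {N N' : M}
    (h : Factor N N') (hN : Equidistributed E N') : Equidistributed E N := by
  obtain ⟨φ, hφ, hμ, hc⟩ := hE.factor h
  have := hE.borel N
  have := hE.borel N'
  intro f
  have h1 := hN (f.compContinuous ⟨φ, hφ⟩)
  have h2 : ∫ x, f x ∂E.μ N = ∫ x, f.compContinuous ⟨φ, hφ⟩ x ∂E.μ N' := by
    rw [hμ, integral_map hφ.measurable.aemeasurable]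
    · rfl
    · exact f.continuous.measurable.aestronglyMeasurable
  have h3 : Tendsto (fun n : ℕ => (∑ p ∈ (Finset.range (n + 1)).filter Nat.Prime,
      (f (E.cls N p) - f (φ (E.cls N' p)))) / (π n : ℝ)) atTop (𝓝 0) := by
    refine tendsto_err (C := 2 * ‖f‖) (fun p => ?_) (hc.mono fun p h4 h5 => ?_)
    · refine (abs_sub _ _).trans ?_
      have h4 := f.norm_coe_le_norm (E.cls N p)
      have h5 := f.norm_coe_le_norm (φ (E.cls N' p))
      rw [Real.norm_eq_abs] at h4 h5
      linarith
    · rw [h4 h5, sub_self]
  rw [h2]
  have h4 := h1.add h3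
  rw [add_zero] at h4
  refine h4.congr fun n => ?_
  rw [← add_div, ← Finset.sum_add_distrib]
  congr 1
  refine Finset.sum_congr rfl fun p _ => ?_
  change f (φ (E.cls N' p)) + (f (E.cls N p) - f (φ (E.cls N' p))) = f (E.cls N p)
  ring

end Pool.Agent.H367.OS
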