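import Pool.Agent.H367.OS.OTan

/-!
# Examples of properties which pass to direct factors
-/

set_option autoImplicit false

open CategoryTheory CategoryTheory.Limits AlgebraicGeometry Pool.Agent.Y116.UV
  Pool.Agent.Q193.LT Pool.Agent.H854.SQ

universe w v u v' u' v'' u''

namespace Pool.Agent.H367.OS

section

variable {M : Type u} [Category.{v} M]

/-- All direct factors of `N` (in particular, all objects isomorphic to `N`) have the property `Q`. -/
def AllFactors (Q : M → Prop) (N : M) : Prop := ∀ R : M, Factor R N → Q R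

lemma allFactors_closed (Q : M → Prop) : FactorClosed (AllFactors Q) :=
  fun h hN R hR => hN R (hR.trans h)

lemma AllFactors.self {Q : M → Prop} {N : M} (h : AllFactors Q N) : Q N := h N (Factor.refl N)

lemma AllFactors.iff_of_closed {Q : M → Prop} (hQ : FactorClosed Q) (N : M) :
    AllFactors Q N ↔ Q N := ⟨fun h => h.self, fun h _ hR => hQ hR h⟩

lemma FactorClosed.and {P Q : M → Prop} (hP : FactorClosed P) (hQ : FactorClosed Q) :
    FactorClosed fun N => P N ∧ Q N := fun h hN => ⟨hP h hN.1, hQ h hN.2⟩

lemma FactorClosed.forall {I : Sort*} {P : I → M → Prop} (hP : ∀ i, FactorClosed (P i)) :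
    FactorClosed fun N => ∀ i, P i N := fun h hN i => hP i h (hN i)

/-- The realization of `N` is a semisimple module (over the group algebra of a Galois group: a semisimple
representation). -/
def Semisimple {Λ : Type u'} [Ring Λ] (ω : M ⥤ ModuleCat.{w} Λ) (N : M) : Prop :=
  IsSemisimpleModule Λ (ω.obj N)

lemma semisimple_closed {Λ : Type u'} [Ring Λ] (ω : M ⥤ ModuleCat.{w} Λ) :
    FactorClosed (Semisimple ω) := by
  rintro N N' ⟨i, r, h⟩ (hN : IsSemisimpleModule Λ (ω.obj N'))
  refine IsSemisimpleModule.of_injective (ω.map i).hom fun x y hxy => ?_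
  have h1 : ∀ z, (ω.map r).hom ((ω.map i).hom z) = z := by
    intro z
    have h2 : ω.map i ≫ ω.map r = 𝟙 _ := by rw [← ω.map_comp, h, ω.map_id]
    have h3 := congrArg (fun f : ω.obj N ⟶ ω.obj N => f.hom z) h2
    simpa using h3
  rw [← h1 x, ← h1 y]
  exact congrArg _ hxy

/-- Every morphism from `ω(1)` to `ω(β N)` comes from a morphism from the unit object `1` to `β N`. (For
the Hodge realization `ω` of motives for absolute Hodge cycles, and the base change `β`: every Hodge
class of `β N` is absolute Hodge.) -/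
def Covers {B : Type u'} [Category.{v'} B] {H : Type u''} [Category.{v''} H] (one : B) (β : M ⥤ B)
    (ω : B ⥤ H) (N : M) : Prop :=
  ∀ g : ω.obj one ⟶ ω.obj (β.obj N), ∃ f : one ⟶ β.obj N, ω.map f = g

lemma covers_closed {B : Type u'} [Category.{v'} B] {H : Type u''} [Category.{v''} H] (one : B)
    (β : M ⥤ B) (ω : B ⥤ H) : FactorClosed (Covers one β ω) := by
  rintro N N' ⟨i, r, h⟩ hN g
  obtain ⟨f, hf⟩ := hN (g ≫ ω.map (β.map i))
  refine ⟨f ≫ β.map r, ?_⟩
  rw [ω.map_comp, hf, Category.assoc, ← ω.map_comp, ← β.map_comp, h, β.map_id, ω.map_id,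
    Category.comp_id]

end

end Pool.Agent.H367.OS
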