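import Pool.Agent.H367.OS.GSer

/-!
# Objects which occur as direct factors, and abelian varieties
-/

set_option autoImplicit false

open CategoryTheory CategoryTheory.Limits AlgebraicGeometry Pool.Agent.Y116.UV
  Pool.Agent.Q193.LT Pool.Agent.H854.SQ

universe v u u'

namespace Pool.Agent.H367.OS

variable {k : Type} [Field k] {A : Type u} [Category.{v} A] [Abelian A] {D : Pieces k A}

/-- Some direct factor of `N` has the property `Φ`. -/
def HasFactor (Φ : A → Prop) (N : A) : Prop := ∃ R : A, Factor R N ∧ Φ R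

omit [Abelian A] in
lemma not_hasFactor (Φ : A → Prop) (N : A) : AllFactors (fun R => ¬ Φ R) N ↔ ¬ HasFactor Φ N := by
  simp only [AllFactors, HasFactor]
  push Not
  rfl

/-- **One weight.** Some direct factor of `H^w(Y)(t)`, for some smooth projective `Y`, has the property
`Φ`, if and only if for all large `m` some direct factor of the single object
`Gr^W_{w+2e} H^{w+2e+1}_c(t + e)` of the hypersurface `G_m = 1` has it, for some `N`, where
`e = (m + 1) N + E_m - 1`. -/
theorem exists_weight (hk : IsPrimeField k) (h : IsMot D) (Φ : A → Prop) (w : ℕ) (t : ℤ) :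
    (∃ Y : Sch k, SmoothProj Y ∧ HasFactor Φ ((D.tw t).obj (D.G w w Y))) ↔
      ∀ᶠ m in Filter.atTop, ∃ N : ℕ, HasFactor Φ ((D.tw (t + esh m N)).obj
        (D.G (w + 2 * esh m N) (w + 2 * esh m N + 1) (cubG k m))) := by
  have h1 := ((decides_pieces hk h (allFactors_closed fun R => ¬ Φ R)).weight w t).out 0 1
  simp only [not_hasFactor] at h1
  rw [← not_iff_not, Filter.not_eventually]
  push Not
  exact h1.symm

/-- **All weights.** Some direct factor of some `H^i(Y)(t)` has the property `Φ` if and only if for all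
large `m` some direct factor of a Tate twist of the single object `Gr^W_{j-1} H^j_c` of the hypersurface
`G_m = 1` has it, for some `j`. -/
theorem exists_all (hk : IsPrimeField k) (h : IsMot D) (Φ : A → Prop) :
    (∃ (Y : Sch k) (i t : ℤ), SmoothProj Y ∧ HasFactor Φ ((D.tw t).obj (D.G i i Y))) ↔
      ∀ᶠ m in Filter.atTop, ∃ j t : ℤ, HasFactor Φ ((D.tw t).obj (D.G (j - 1) j (cubG k m))) := by
  have h1 := (decides_pieces hk h (allFactors_closed fun R => ¬ Φ R)).all.out 0 1
  simp only [not_hasFactor] at h1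
  rw [← not_iff_not, Filter.not_eventually]
  push Not
  refine Iff.trans ?_ h1.symm
  exact ⟨fun g Y hY i t => g Y i t hY, fun g Y i t hY => g Y hY i t⟩

/-- The single object of weight `w + 2 e` (twisted by `t + e`) of the hypersurface `G_m = 1` is the piece of
weight `w` of `H^w_c` of an affine scheme, twisted by `t`, and therefore a direct factor of
`H^w(Y)(t)`, for `w ≤ m` and all `N`. -/
theorem piece_factor (h : IsMot D) {m : ℕ} (hm : 1 ≤ m) (N w : ℕ) (hw : w ≤ m) (t : ℤ) :
    ∃ Y : Sch k, SmoothProj Y ∧ Factor ((D.tw (t + esh m N)).obj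
      (D.G (w + 2 * esh m N) (w + 2 * esh m N + 1) (cubG k m))) ((D.tw t).obj (D.G w w Y)) := by
  have h1 : (w : ℤ) ≤ m := by exact_mod_cast hw
  rcases h.pieces.cases N (by positivity) (show (w : ℤ) ≤ 2 * m + 1 by linarith) (w : ℤ) with
    ⟨s, rfl⟩ | hz | hj
  · obtain ⟨e⟩ := h.pieces.back (h.pieces.dict hm s (by positivity)
      (show (w : ℤ) ≤ 2 * m + 1 by linarith) (w : ℤ)) t
    obtain ⟨Y, hY, hf⟩ := h.ofProj (aff k (Sys k s)) (ft_aff True) w w
    exact ⟨Y, hY, (Factor.of_iso e).trans (hf.map (D.tw t))⟩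
  · obtain ⟨Y, hY, -⟩ := h.ofProj (aff k k) (ft_aff True) w w
    exact ⟨Y, hY, Factor.zero (h.pieces.tw_zero _ hz) _⟩
  · omega

/-- The abelian varieties over a field (the objects of `Ab`, with the motives `h1 A`), and the motives of
weight one of the schemes over `ℚ`:

* `occurs`: every `h^1(A)` is a direct factor of `h^1(Y)` for a smooth projective scheme `Y` over `ℚ`
  (`A` is a union of connected components of the base change of `Y = A`, as a scheme over `ℚ`);
* `albanese`: every direct factor of `h^1(Y)` is `h^1(A)` for an abelian variety `A` (a quotient of the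
  Albanese variety of `Y`). -/
structure AbelianVarieties {Ab : Type u'} (D : Pieces k A) (h1 : Ab → A) : Prop where
  occurs : ∀ B : Ab, ∃ Y : Sch k, SmoothProj Y ∧ Factor (h1 B) (D.G 1 1 Y)
  albanese : ∀ (Y : Sch k) (R : A), SmoothProj Y → Factor R (D.G 1 1 Y) →
    ∃ B : Ab, Nonempty (h1 B ≅ R)

variable {Ab : Type u'} {h1 : Ab → A}

/-- **Abelian varieties.** For all `m ≥ 1` and `N` the single object `Gr^W_{2e+1} H^{2e+2}_c(e)` of the
hypersurface `G_m = 1` is `h^1(B)` of an abelian variety `B`; and for every abelian variety `B` and all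
large `m` there is an `N` such that `h^1(B)` is a direct factor of this object. -/
theorem abelian_occurs (hk : IsPrimeField k) (h : IsMot D) (ha : AbelianVarieties D h1) :
    (∀ m, 1 ≤ m → ∀ N : ℕ, ∃ B : Ab, Nonempty (h1 B ≅ (D.tw (esh m N)).obj
      (D.G (1 + 2 * esh m N) (1 + 2 * esh m N + 1) (cubG k m)))) ∧
    ∀ B : Ab, ∀ᶠ m in Filter.atTop, ∃ N : ℕ, Factor (h1 B) ((D.tw (esh m N)).obj
      (D.G (1 + 2 * esh m N) (1 + 2 * esh m N + 1) (cubG k m))) := by
  constructor
  · intro m hm N
    obtain ⟨Y, hY, hf⟩ := piece_factor h hm N 1 hm 0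
    rw [zero_add] at hf
    obtain ⟨e⟩ := h.pieces.tw_nil (D.G 1 1 Y)
    have h2 := ha.albanese Y _ hY (hf.trans (Factor.of_iso (by exact_mod_cast e)))
    simpa using h2
  · intro B
    obtain ⟨Y, hY, hf⟩ := ha.occurs B
    obtain ⟨e⟩ := h.pieces.tw_nil (D.G 1 1 Y)
    have h2 := (exists_weight hk h (fun R => Factor (h1 B) R) 1 0).mp
      ⟨Y, hY, _, Factor.refl _, hf.trans (Factor.of_iso (by exact_mod_cast e.symm))⟩
    filter_upwards [h2] with m hm
    obtain ⟨N, R, hR, hB⟩ := hm
    refine ⟨N, ?_⟩
    have h3 := hB.trans hR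
    simpa using h3

/-- A property of abelian varieties is true for all of them if and only if for infinitely many `m` it is
true for all abelian varieties `B` such that `h^1(B)` is a direct factor of the single object
`Gr^W_{2e+1} H^{2e+2}_c(e)` of the hypersurface `G_m = 1`, for some `N`. -/
theorem all_abelian (hk : IsPrimeField k) (h : IsMot D) (ha : AbelianVarieties D h1)
    (P : Ab → Prop) : (∀ B, P B) ↔ ∃ᶠ m in Filter.atTop, ∀ (N : ℕ) (B : Ab),
      Factor (h1 B) ((D.tw (esh m N)).obj
        (D.G (1 + 2 * esh m N) (1 + 2 * esh m N + 1) (cubG k m))) → P B := by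
  constructor
  · exact fun g => Filter.Frequently.of_forall fun m N B _ => g B
  · intro g B
    obtain ⟨m, hm1, hm2⟩ := (g.and_eventually ((abelian_occurs hk h ha).2 B)).exists
    obtain ⟨N, hN⟩ := hm2
    exact hm1 N B hN

/-- Some abelian variety has the property `P` if and only if for all large `m` there are an `N` and an
abelian variety `B` with the property `P` such that `h^1(B)` is a direct factor of the single object
`Gr^W_{2e+1} H^{2e+2}_c(e)` of the hypersurface `G_m = 1`. -/
theorem exists_abelian (hk : IsPrimeField k) (h : IsMot D) (ha : AbelianVarieties D h1)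
    (P : Ab → Prop) : (∃ B, P B) ↔ ∀ᶠ m in Filter.atTop, ∃ (N : ℕ) (B : Ab),
      Factor (h1 B) ((D.tw (esh m N)).obj
        (D.G (1 + 2 * esh m N) (1 + 2 * esh m N + 1) (cubG k m))) ∧ P B := by
  constructor
  · rintro ⟨B, hB⟩
    filter_upwards [(abelian_occurs hk h ha).2 B] with m hm
    obtain ⟨N, hN⟩ := hm
    exact ⟨N, B, hN, hB⟩
  · intro g
    obtain ⟨m, N, B, -, hB⟩ := g.exists
    exact ⟨B, hB⟩

end Pool.Agent.H367.OS
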