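import Pool.Agent.H367.OS.Fld
import Pool.Graph.R_pool_sql_team_seeded_2aa45f1a.Q137.UO.Grp

/-!
# Properties of Tannakian categories of motives
-/

set_option autoImplicit false

open CategoryTheory CategoryTheory.Limits AlgebraicGeometry Pool.Agent.Y116.UV
  Pool.Agent.Q193.LT Pool.Agent.H854.SQ Pool.Agent.Q137.UO

universe v u v' u'

namespace Pool.Agent.H367.OS

/-- The equality of two groups passes to direct factors. -/
lemma same_closed {M : Type u} [Category.{v} M] {C : Type u'} [Category.{v'} C] {W : M ⥤ C}
    {P : GroupPair W} (hA : Restricts P.A) (hB : Restricts P.B) : FactorClosed (Same P) := by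
  rintro N N' ⟨i, r, h⟩ hN
  exact Same.factor hA hB i r h hN

variable {k : Type} [Field k] {A : Type u} [Category.{v} A]

/-- Every motive `N` has the property `P` if the motives `H^i(Y)(t)` of smooth projective schemes have
it: for every `N` there are a smooth projective scheme `Y` and numbers `i`, `t` such that the property of
`H^i(Y)(t)` implies that of `N` (for instance because `N` is in the Tannakian category generated by
`H^i(Y)(t)`). -/
def Exhausts (D : Pieces k A) (P : A → Prop) : Prop :=
  ∀ N : A, ∃ (Y : Sch k) (i : ℕ) (t : ℤ), SmoothProj Y ∧ (P ((D.tw t).obj (D.G i i Y)) → P N)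

variable {D : Pieces k A} {P : A → Prop}

/-- All motives. -/
theorem all_motives (h : DecidesPieces D P) (he : Exhausts D P) :
    (∀ N : A, P N) ↔ ∃ᶠ m in Filter.atTop, ∀ j t : ℤ, P ((D.tw t).obj (D.G (j - 1) j (cubG k m))) := by
  have h0 := h.all.out 1 0
  refine Iff.trans ?_ h0
  constructor
  · exact fun g Y _ i t => g _
  · intro g N
    obtain ⟨Y, i, t, hY, h1⟩ := he N
    exact h1 (g Y hY i t)

/-- For every motive one piece of one hypersurface is sufficient. -/
theorem one_motive (h : DecidesPieces D P) (he : Exhausts D P) (N : A) : ∃ m₀ : ℕ, ∀ m, m₀ ≤ m →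
    ∃ j t : ℤ, P ((D.tw t).obj (D.G (j - 1) j (cubG k m))) → P N := by
  obtain ⟨Y, i, t, hY, h1⟩ := he N
  obtain ⟨m₀, hm⟩ := h.proj Y hY i
  refine ⟨m₀, fun m hm1 => ?_⟩
  obtain ⟨e, he⟩ := hm m hm1
  refine ⟨i + 2 * e + 1, t + e, fun h2 => h1 ((he i le_rfl t).mp ?_)⟩
  rwa [add_sub_cancel_right] at h2

/-- Statements `Holds K N` for the motives `N : Obj K` over the finitely generated fields `K` of
characteristic zero, and statements `P N` for the motives `N : M` over `ℚ`:

* `rational`: the statements for all motives over `ℚ`;
* `reduce`: for every motive `N` over `K` there is a motive `N'` over `ℚ` such that the statement for `N`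
  follows from the statement for `N'` (a specialization of `N` over a number field with the same
  `ℓ`-adic monodromy group, and the restriction of scalars to `ℚ`). -/
structure FromMotives {M : Type u} (Obj : ∀ (K : Type) [Field K] [CharZero K], Type u')
    (Holds : ∀ (K : Type) [Field K] [CharZero K], Obj K → Prop) (P : M → Prop) : Prop where
  rational : (∀ N : Obj ℚ, Holds ℚ N) → ∀ N : M, P N
  reduce : ∀ (K : Type) [Field K] [CharZero K], (⊤ : IntermediateField ℚ K).FG → ∀ N : Obj K,
    ∃ N' : M, P N' → Holds K N

/-- The statement for all motives over all finitely generated fields of characteristic zero. -/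
def AllMotives (Obj : ∀ (K : Type) [Field K] [CharZero K], Type u')
    (Holds : ∀ (K : Type) [Field K] [CharZero K], Obj K → Prop) : Prop :=
  ∀ (K : Type) [Field K] [CharZero K], (⊤ : IntermediateField ℚ K).FG → ∀ N : Obj K, Holds K N

theorem FromMotives.all {M : Type u} {Obj : ∀ (K : Type) [Field K] [CharZero K], Type u'}
    {Holds : ∀ (K : Type) [Field K] [CharZero K], Obj K → Prop} {P : M → Prop}
    (h : FromMotives Obj Holds P) : AllMotives Obj Holds ↔ ∀ N : M, P N := by
  constructor
  · exact fun g => h.rational (g ℚ fg_rat)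
  · intro g K _ _ hK N
    obtain ⟨N', h1⟩ := h.reduce K hK N
    exact h1 (g N')

end Pool.Agent.H367.OS
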