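import Pool.Agent.H367.OS.Seq
import Pool.Graph.R_seed8.Z125.UN.MotUni
import Pool.Graph.R_pool_sql_team_seeded_2aa45f1a.Q193.LT.Crit

/-!
# Thick subcategories generated by the motives of the hypersurfaces `G_m = 1`
-/

set_option autoImplicit false

open CategoryTheory MonoidalCategory AlgebraicGeometry Pool.Agent.Y116.UV Pool.Agent.Z125.UN
  Pool.Agent.Q193.LT Pool.Agent.H854.SQ Pretriangulated

universe v u

namespace Pool.Agent.H367.OS

section

variable {C : Type u} [Category.{v} C] [MonoidalCategory C] [Preadditive C]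
  [Limits.HasZeroObject C] [HasShift C ℤ] [∀ n : ℤ, (shiftFunctor C n).Additive]
  [Pretriangulated C]

/-- The class `S` of objects is thick, contains the unit object and is stable under Tate twists. -/
structure Thick (L : C) (S : C → Prop) : Prop where
  unit : S (𝟙_ C)
  iso : ∀ {A B : C}, Nonempty (A ≅ B) → S A → S B
  shift : ∀ (A : C) (n : ℤ), S A → S (A⟦n⟧)
  factor : ∀ {A B : C} (s : A ⟶ B) (r : B ⟶ A), s ≫ r = 𝟙 A → S B → S A
  cone : ∀ T ∈ Pretriangulated.distinguishedTriangles (C := C), S T.obj₁ → S T.obj₂ → S T.obj₃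
  twist : ∀ A : C, S (L ⊗ A) ↔ S A

/-- The thick class generated by the class `Q`: all objects which are obtained from Tate twists of
objects of `Q` and of the unit object by shifts, cones and direct factors. -/
def Gen (L : C) (Q : C → Prop) (A : C) : Prop :=
  ∀ S : C → Prop, Thick L S → (∀ B, Q B → S B) → S A

lemma gen_thick (L : C) (Q : C → Prop) :
    Thick L (Gen L Q) where
  unit S hS _ := hS.unit
  iso e h S hS hQ := hS.iso e (h S hS hQ)
  shift A n h S hS hQ := hS.shift A n (h S hS hQ)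
  factor s r e h S hS hQ := hS.factor s r e (h S hS hQ)
  cone T hT h h' S hS hQ := hS.cone T hT (h S hS hQ) (h' S hS hQ)
  twist A := ⟨fun h S hS hQ => (hS.twist A).mp (h S hS hQ),
    fun h S hS hQ => (hS.twist A).mpr (h S hS hQ)⟩

variable {k : Type} [Field k]

/-- The known standard properties of geometric motives over the perfect field `k` with rational
coefficients.

* `iso`: isomorphic schemes have isomorphic motives with compact support;
* `localization`: the triangle `Mc Z → Mc X → Mc U → Mc Z[1]` for a closed subscheme `Z` of `X` and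
  its complement `U`;
* `disjoint`: `Mc Z` is a direct factor of `Mc X` for an open and closed subscheme `Z` of `X`;
* `bundle`: for the affine bundle `Spec A[w_1, …, w_m] / (∑ f_l w_l - 1) → U` with fibre `𝔸^(m-1)`,
  where `U` is the complement of `f = 0` in `Spec A`, the motive with compact support of the total
  space is the one of `U` twisted by `(m-1)[2m-2]`;
* `torus`: `L ⊗ Mc X` is a direct summand of `Mc (X × 𝔾_m)`;
* `point`: `Mc (Spec k)` is the unit. -/
structure StdMotives (D : Motives k C) : Prop where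
  iso : ∀ {X Y : Sch k}, FT True X → Nonempty (X ≅ Y) → Nonempty (D.Mc X ≅ D.Mc Y)
  localization : ∀ {Z X U : Sch k} (i : Z ⟶ X) (j : U ⟶ X), FT True X → IsTriple i j →
    ∃ (a : D.Mc Z ⟶ D.Mc X) (b : D.Mc X ⟶ D.Mc U) (d : D.Mc U ⟶ (D.Mc Z)⟦(1 : ℤ)⟧),
      Pretriangulated.Triangle.mk a b d ∈ Pretriangulated.distinguishedTriangles (C := C)
  disjoint : ∀ {Z X U : Sch k} (i : Z ⟶ X) (j : U ⟶ X), FT True X → IsTriple i j →
    IsOpenImmersion i.left → ∃ (s : D.Mc Z ⟶ D.Mc X) (r : D.Mc X ⟶ D.Mc Z), s ≫ r = 𝟙 _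
  bundle : ∀ (A : Type) [CommRing A] [Algebra k A] [Algebra.FiniteType k A] (m : ℕ)
    (f : Fin m → A) (U : Sch k) (j : U ⟶ aff k A), IsOpenImmersion j.left →
    Set.range j.left = {x : PrimeSpectrum A | ∃ l, f l ∉ x.asIdeal} →
    Nonempty (D.Mc (aff k (Jou f)) ≅ tw D.L (m - 1) (D.Mc U))
  torus : ∀ (A : Type) [CommRing A] [Algebra k A] [Algebra.FiniteType k A],
    ∃ (s : D.L ⊗ D.Mc (aff k A) ⟶ D.Mc (aff k (LaurentPolynomial A)))
      (r : D.Mc (aff k (LaurentPolynomial A)) ⟶ D.L ⊗ D.Mc (aff k A)), s ≫ r = 𝟙 _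
  point : Nonempty (D.Mc (aff k k) ≅ 𝟙_ C)

lemma thick_tw {L : C} {S : C → Prop} (hS : Thick L S) (A : C) : ∀ n, S (tw L n A) ↔ S A
  | 0 => Iff.rfl
  | n + 1 => (hS.twist _).trans (thick_tw hS A n)

/-- The schemes whose motives with compact support are in a thick class. -/
theorem uni_thick {D : Motives k C} (h : StdMotives D) {S : C → Prop} (hS : Thick D.L S) :
    Uni True fun X : Sch k => S (D.Mc X) where
  iso hX e := hS.iso (h.iso hX e)
  total i j hX ht hZ hU := by
    obtain ⟨a, b, d, hT⟩ := h.localization i j hX ht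
    exact hS.cone _ (inv_rot_of_distTriang _ hT) (hS.shift _ (-1) hU) hZ
  opened i j hX ht hZ hX' := by
    obtain ⟨a, b, d, hT⟩ := h.localization i j hX ht
    exact hS.cone _ hT hZ hX'
  closed i j hX ht hX' hU := by
    obtain ⟨a, b, d, hT⟩ := h.localization i j hX ht
    have h1 : S ((D.Mc _)⟦(1 : ℤ)⟧) := hS.cone _ (rot_of_distTriang _ hT) hX' hU
    exact hS.iso ⟨shiftShiftNeg _ (1 : ℤ)⟩ (hS.shift _ (-1) h1)
  space n := by
    have h1 : S (D.Mc (aff k k)) := hS.iso (h.point.map Iso.symm) hS.unit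
    obtain ⟨h2⟩ := h.bundle k (n + 1) (f1 k n) (aff k k) (𝟙 _) inferInstance (range_id n)
    have h3 : S (D.Mc (aff k (Jou (f1 k n)))) :=
      hS.iso ⟨h2.symm⟩ ((thick_tw hS _ _).mpr h1)
    exact hS.iso (h.iso (ft_aff True) ⟨(affIso (jouOne k n)).symm⟩) h3
  jouanolou A _ _ _ m f U j hj hr hJ := by
    exact (thick_tw hS _ _).mp (hS.iso (h.bundle A m f U j hj hr) hJ)
  torus A _ _ _ hA := by
    obtain ⟨s, r, hs⟩ := h.torus A
    exact (hS.twist _).mp (hS.factor s r hs hA)

theorem clopen_thick {D : Motives k C} (h : StdMotives D) {S : C → Prop} (hS : Thick D.L S) :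
    Clopen fun X : Sch k => S (D.Mc X) := by
  intro Z X U i j hX ht hi hS'
  obtain ⟨s, r, e⟩ := h.disjoint i j hX ht hi
  exact hS.factor s r e hS'

/-- The thick class generated by the motive with compact support of the hypersurface `G_m = 1`. -/
def CubClass (D : Motives k C) (m : ℕ) : C → Prop := Gen D.L fun B => B = D.Mc (cub k m)

/-- **One scheme.** -/
theorem cubClass_single (hk : IsPrimeField k) {D : Motives k C} (h : StdMotives D) (X : Sch k)
    (hX : FT True X) : ∃ m₀ : ℕ, ∀ m, m₀ ≤ m → CubClass D m (D.Mc X) := by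
  obtain ⟨m₀, hm⟩ := single hk X hX
  exact ⟨m₀, fun m hm1 => hm m hm1 (fun X => CubClass D m (D.Mc X))
    (uni_thick h (gen_thick _ _)) (clopen_thick h (gen_thick _ _)) fun S _ hQ => hQ _ rfl⟩

/-- **All objects.** Every object which is generated by the motives with compact support of schemes is
in the thick class generated by the motive of `C_m`, for all large `m`. -/
theorem cubClass_exhaust (hk : IsPrimeField k) {D : Motives k C} (h : StdMotives D) {A : C}
    (hA : Gen D.L (fun B => ∃ X : Sch k, FT True X ∧ B = D.Mc X) A) :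
    ∃ m₀ : ℕ, ∀ m, m₀ ≤ m → CubClass D m A := by
  refine hA (fun A => ∃ m₀ : ℕ, ∀ m, m₀ ≤ m → CubClass D m A) ?_ ?_
  · exact {
      unit := ⟨0, fun m _ => (gen_thick _ _).unit⟩
      iso := by
        rintro A B e ⟨m₀, hm⟩
        exact ⟨m₀, fun m hm1 => (gen_thick _ _).iso e (hm m hm1)⟩
      shift := by
        rintro A n ⟨m₀, hm⟩
        exact ⟨m₀, fun m hm1 => (gen_thick _ _).shift A n (hm m hm1)⟩
      factor := by
        rintro A B s r e ⟨m₀, hm⟩
        exact ⟨m₀, fun m hm1 => (gen_thick _ _).factor s r e (hm m hm1)⟩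
      cone := by
        rintro T hT ⟨m₀, hm⟩ ⟨m₁, hm'⟩
        exact ⟨max m₀ m₁, fun m hm1 => (gen_thick _ _).cone T hT
          (hm m ((le_max_left _ _).trans hm1)) (hm' m ((le_max_right _ _).trans hm1))⟩
      twist := by
        intro A
        constructor
        · rintro ⟨m₀, hm⟩
          exact ⟨m₀, fun m hm1 => ((gen_thick _ _).twist A).mp (hm m hm1)⟩
        · rintro ⟨m₀, hm⟩
          exact ⟨m₀, fun m hm1 => ((gen_thick _ _).twist A).mpr (hm m hm1)⟩ }
  · rintro B ⟨X, hX, rfl⟩
    exact cubClass_single hk h X hX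

end

end Pool.Agent.H367.OS
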